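import Mathlib

set_option autoImplicit false
set_option linter.unusedSectionVars false

open Finset Matrix

namespace Pool.Agent.H72.Bireg

/-! Graphs whose adjacency matrix `A` satisfies `A + T I ≥ 0`: elementary structure. -/

section Defs

variable {V : Type} [Fintype V] [DecidableEq V] (G : SimpleGraph V) [DecidableRel G.Adj]

/-- The quadratic form of `A + T I`. -/
def qf (T : ℝ) (u : V → ℝ) : ℝ := u ⬝ᵥ (G.adjMatrix ℝ *ᵥ u) + T * (u ⬝ᵥ u)

/-- `A + T I` is positive semidefinite. -/
def PSD (T : ℝ) : Prop := ∀ u : V → ℝ, 0 ≤ qf G T u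

/-- Indicator vector. -/
def ind (S : Finset V) : V → ℝ := fun x => if x ∈ S then 1 else 0

/-- number of ordered pairs `(x,y)`, `x ∈ S`, `y ∈ S'`, `x ~ y`, as a real. -/
def e (S S' : Finset V) : ℝ := ∑ x ∈ S, ∑ y ∈ S', (if G.Adj x y then (1 : ℝ) else 0)

end Defs

section

variable {V : Type} [Fintype V] [DecidableEq V] {G : SimpleGraph V} [DecidableRel G.Adj]

lemma ind_dot (S S' : Finset V) : ind S ⬝ᵥ ind S' = ((S ∩ S').card : ℝ) := by
  unfold ind dotProduct
  rw [Finset.card_eq_sum_ones, Nat.cast_sum]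
  rw [← Finset.sum_filter_add_sum_filter_not univ (fun x => x ∈ S ∩ S')]
  have h1 : ∑ x ∈ univ.filter (fun x => x ∈ S ∩ S'), (if x ∈ S then (1:ℝ) else 0) * (if x ∈ S' then 1 else 0)
      = ∑ x ∈ S ∩ S', ((1 : ℕ) : ℝ) := by
    rw [show univ.filter (fun x => x ∈ S ∩ S') = S ∩ S' by ext; simp]
    apply Finset.sum_congr rfl
    intro x hx
    rw [Finset.mem_inter] at hx
    simp [hx.1, hx.2]
  have h2 : ∑ x ∈ univ.filter (fun x => ¬ x ∈ S ∩ S'), (if x ∈ S then (1:ℝ) else 0) * (if x ∈ S' then 1 else 0) = 0 := by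
    apply Finset.sum_eq_zero
    intro x hx
    simp only [Finset.mem_filter, Finset.mem_univ, true_and, Finset.mem_inter, not_and] at hx
    by_cases h : x ∈ S
    · simp [h, hx h]
    · simp [h]
  rw [h1, h2, add_zero]

lemma ind_mulVec_dot (S S' : Finset V) :
    ind S ⬝ᵥ (G.adjMatrix ℝ *ᵥ ind S') = e G S S' := by
  unfold ind dotProduct mulVec e dotProduct
  simp only [SimpleGraph.adjMatrix_apply, ite_mul, one_mul, zero_mul, mul_ite, mul_one, mul_zero]
  rw [← Finset.sum_filter]
  rw [show univ.filter (fun x => x ∈ S) = S by ext; simp]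
  apply Finset.sum_congr rfl
  intro x _
  rw [← Finset.sum_filter]
  rw [Finset.sum_ite, Finset.sum_const_zero, add_zero]
  rw [Finset.sum_ite, Finset.sum_const_zero, add_zero]
  simp only [Finset.filter_filter]
  apply Finset.sum_congr _ (fun _ _ => rfl)
  ext y
  simp

lemma e_comm (S S' : Finset V) : e G S S' = e G S' S := by
  unfold e
  rw [Finset.sum_comm]
  apply Finset.sum_congr rfl; intro x _
  apply Finset.sum_congr rfl; intro y _
  simp [G.adj_comm]

/-- if all cross pairs are adjacent -/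
lemma e_full (S S' : Finset V) (h : ∀ x ∈ S, ∀ y ∈ S', G.Adj x y) :
    e G S S' = S.card * S'.card := by
  unfold e
  rw [Finset.sum_congr rfl (fun x hx => Finset.sum_congr rfl (fun y hy => if_pos (h x hx y hy)))]
  simp

lemma e_empty (S S' : Finset V) (h : ∀ x ∈ S, ∀ y ∈ S', ¬ G.Adj x y) :
    e G S S' = 0 := by
  unfold e
  rw [Finset.sum_congr rfl (fun x hx => Finset.sum_congr rfl (fun y hy => if_neg (h x hx y hy)))]
  simp

lemma e_clique (S : Finset V) (h : ∀ x ∈ S, ∀ y ∈ S, x ≠ y → G.Adj x y) :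
    e G S S = S.card * (S.card - 1) := by
  unfold e
  have : ∀ x ∈ S, ∑ y ∈ S, (if G.Adj x y then (1:ℝ) else 0) = (S.card : ℝ) - 1 := by
    intro x hx
    have h1 : ∑ y ∈ S, (if G.Adj x y then (1:ℝ) else 0) = ∑ y ∈ S, ((1:ℝ) - if y = x then 1 else 0) := by
      apply Finset.sum_congr rfl
      intro y hy
      by_cases hxy : y = x
      · subst hxy; simp
      · simp [hxy, h x hx y hy (fun h => hxy h.symm)]
    rw [h1, Finset.sum_sub_distrib]
    simp [hx]
  rw [Finset.sum_congr rfl this]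
  simp
  ring

lemma qf_three (T : ℝ) (c b d : ℝ) (f g h : V → ℝ) :
    qf G T (c • f + b • g + d • h) =
      c ^ 2 * (f ⬝ᵥ (G.adjMatrix ℝ *ᵥ f) + T * (f ⬝ᵥ f)) + b ^ 2 * (g ⬝ᵥ (G.adjMatrix ℝ *ᵥ g) + T * (g ⬝ᵥ g))
      + d ^ 2 * (h ⬝ᵥ (G.adjMatrix ℝ *ᵥ h) + T * (h ⬝ᵥ h))
      + c * b * (f ⬝ᵥ (G.adjMatrix ℝ *ᵥ g) + g ⬝ᵥ (G.adjMatrix ℝ *ᵥ f) + T * (f ⬝ᵥ g + g ⬝ᵥ f))
      + c * d * (f ⬝ᵥ (G.adjMatrix ℝ *ᵥ h) + h ⬝ᵥ (G.adjMatrix ℝ *ᵥ f) + T * (f ⬝ᵥ h + h ⬝ᵥ f))
      + b * d * (g ⬝ᵥ (G.adjMatrix ℝ *ᵥ h) + h ⬝ᵥ (G.adjMatrix ℝ *ᵥ g) + T * (g ⬝ᵥ h + h ⬝ᵥ g)) := by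
  unfold qf
  simp only [mulVec_add, mulVec_smul, dotProduct_add, add_dotProduct, dotProduct_smul,
    smul_dotProduct, smul_eq_mul]
  ring

/-- Claw bound. -/
lemma claw {T : ℝ} (hT : 0 < T) (hpsd : PSD G T) (z : V) (I : Finset V)
    (hI : ∀ x ∈ I, G.Adj z x) (hind : ∀ x ∈ I, ∀ y ∈ I, ¬ G.Adj x y) : (I.card : ℝ) ≤ T ^ 2 := by
  have hz : z ∉ I := fun h => hind z h z h |>.elim (by simpa using hI z h)
  have h0 := hpsd ((I.card : ℝ) • ind {z} + (-T) • ind I + (0:ℝ) • ind I)
  rw [qf_three] at h0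
  simp only [ind_mulVec_dot, ind_dot] at h0
  rw [e_empty I I hind, e_full {z} I (by simpa using hI), e_comm I {z}, e_full {z} I (by simpa using hI),
    e_empty {z} {z} (by simp)] at h0
  have h1 : ({z} ∩ I : Finset V) = ∅ := by
    ext x; simp only [mem_inter, mem_singleton, notMem_empty, iff_false, not_and]
    rintro rfl; exact hz
  have h2 : (I ∩ {z} : Finset V) = ∅ := by rw [Finset.inter_comm]; exact h1
  simp only [h1, h2, Finset.inter_self, Finset.card_singleton, Finset.card_empty] at h0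
  push_cast at h0
  have hm : (0:ℝ) ≤ I.card := Nat.cast_nonneg _
  by_contra hcon
  push Not at hcon
  have hm' : 0 < (I.card : ℝ) := lt_of_le_of_lt (by positivity) hcon
  have : T * I.card * (T ^ 2 - I.card) ≥ 0 := by nlinarith
  have h3 : T * (I.card:ℝ) > 0 := by positivity
  nlinarith

/-- A vertex versus a clique. -/
lemma vertex_clique {T : ℝ} (hT : 0 < T) (hpsd : PSD G T) (z : V) (P R : Finset V)
    (hz : z ∉ R) (hPR : Disjoint P R)
    (hcl : ∀ x ∈ P ∪ R, ∀ y ∈ P ∪ R, x ≠ y → G.Adj x y)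
    (hP : ∀ x ∈ P, G.Adj z x) (hR : ∀ x ∈ R, ¬ G.Adj z x) :
    (P.card : ℝ) * R.card ≤ T ^ 2 * (P.card + R.card) := by
  have hzP : z ∉ P := fun h => by simpa using hP z h
  set p : ℝ := (P.card : ℝ) with hp
  set r : ℝ := (R.card : ℝ) with hr
  have h0 := hpsd ((-(p * r)) • ind {z} + (T * r) • ind P + (-(T * p)) • ind R)
  rw [qf_three] at h0
  simp only [ind_mulVec_dot, ind_dot] at h0
  have hPR' : ∀ x ∈ P, ∀ y ∈ R, G.Adj x y := by
    intro x hx y hy
    apply hcl x (by simp [hx]) y (by simp [hy])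
    rintro rfl
    exact (Finset.disjoint_left.mp hPR hx hy)
  rw [e_comm R P, e_full P R hPR', e_comm P {z}, e_comm R {z}, e_full {z} P (by simpa using hP),
    e_empty {z} R (by simpa using hR), e_empty {z} {z} (by simp),
    e_clique P (fun x hx y hy h => hcl x (by simp [hx]) y (by simp [hy]) h),
    e_clique R (fun x hx y hy h => hcl x (by simp [hx]) y (by simp [hy]) h)] at h0
  have h1 : ({z} ∩ P : Finset V) = ∅ := by
    ext x; simp only [mem_inter, mem_singleton, notMem_empty, iff_false, not_and]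
    rintro rfl; exact hzP
  have h2 : ({z} ∩ R : Finset V) = ∅ := by
    ext x; simp only [mem_inter, mem_singleton, notMem_empty, iff_false, not_and]
    rintro rfl; exact hz
  have h3 : P ∩ R = ∅ := Finset.disjoint_iff_inter_eq_empty.mp hPR
  rw [Finset.inter_comm P {z}, Finset.inter_comm R {z}, Finset.inter_comm R P] at h0
  simp only [h1, h2, h3, Finset.inter_self, Finset.card_singleton, Finset.card_empty] at h0
  push_cast at h0
  rw [← hp, ← hr] at h0
  have hp0 : 0 ≤ p := Nat.cast_nonneg _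
  have hr0 : 0 ≤ r := Nat.cast_nonneg _
  by_contra hcon
  push Not at hcon
  have hpr : 0 < p * r := lt_of_le_of_lt (by positivity) hcon
  have key : T * (p * r) * (T ^ 2 * (p + r) - p * r) ≥ T ^ 2 * (p * r) * (p + r) := by
    nlinarith [h0]
  have h4 : T * (p * r) > 0 := by positivity
  have h5 : T ^ 2 * (p * r) * (p + r) ≥ 0 := by positivity
  have h6 : T * (p * r) * (T ^ 2 * (p + r) - p * r) < 0 := by
    apply mul_neg_of_pos_of_neg h4; linarith
  linarith

end

/-- Ramsey numbers: every set of at least `ram a b` vertices contains an independent set of size `a`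
or a clique of size `b`. -/
def ram : ℕ → ℕ → ℕ
  | 0, _ => 0
  | _ + 1, 0 => 0
  | a + 1, b + 1 => ram a (b + 1) + ram (a + 1) b + 1

lemma ramsey {V : Type} [DecidableEq V] (G : SimpleGraph V) [DecidableRel G.Adj] :
    ∀ (a b : ℕ) (S : Finset V), ram a b ≤ S.card →
      (∃ I ⊆ S, I.card = a ∧ ∀ x ∈ I, ∀ y ∈ I, ¬ G.Adj x y) ∨
      (∃ Q ⊆ S, Q.card = b ∧ ∀ x ∈ Q, ∀ y ∈ Q, x ≠ y → G.Adj x y)
  | 0, _, S, _ => Or.inl ⟨∅, by simp, by simp, by simp⟩
  | _ + 1, 0, S, _ => Or.inr ⟨∅, by simp, by simp, by simp⟩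
  | a + 1, b + 1, S, h => by
    rw [ram] at h
    have hne : S.Nonempty := by
      rw [← Finset.card_pos]; omega
    obtain ⟨v, hv⟩ := hne
    set N := (S.erase v).filter (fun w => G.Adj v w) with hN
    set N' := (S.erase v).filter (fun w => ¬ G.Adj v w) with hN'
    have hcard : N.card + N'.card = S.card - 1 := by
      rw [hN, hN', Finset.card_filter_add_card_filter_not, Finset.card_erase_of_mem hv]
    have hcase : ram a (b+1) ≤ N'.card ∨ ram (a+1) b ≤ N.card := by omega
    rcases hcase with h1 | h1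
    · rcases ramsey G a (b+1) N' h1 with ⟨I, hI, hIc, hIi⟩ | ⟨Q, hQ, hQc, hQi⟩
      · left
        have hvI : v ∉ I := fun h => by
          have := hI h; simp [hN'] at this
        refine ⟨insert v I, ?_, ?_, ?_⟩
        · intro x hx
          rcases Finset.mem_insert.mp hx with rfl | hx
          · exact hv
          · have := hI hx; simp only [hN', Finset.mem_filter, Finset.mem_erase] at this; exact this.1.2
        · rw [Finset.card_insert_of_notMem hvI, hIc]
        · have hvw : ∀ w ∈ I, ¬ G.Adj v w := by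
            intro w hw
            have := hI hw; simp only [hN', Finset.mem_filter, Finset.mem_erase] at this; exact this.2
          intro x hx y hy
          rcases Finset.mem_insert.mp hx with hx' | hx' <;> rcases Finset.mem_insert.mp hy with hy' | hy'
          · rw [hx', hy']; simp
          · rw [hx']; exact hvw y hy'
          · rw [hy']; intro h; exact hvw x hx' h.symm
          · exact hIi x hx' y hy'
      · right
        refine ⟨Q, fun x hx => ?_, hQc, hQi⟩
        have := hQ hx; simp only [hN', Finset.mem_filter, Finset.mem_erase] at this; exact this.1.2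
    · rcases ramsey G (a+1) b N h1 with ⟨I, hI, hIc, hIi⟩ | ⟨Q, hQ, hQc, hQi⟩
      · left
        refine ⟨I, fun x hx => ?_, hIc, hIi⟩
        have := hI hx; simp only [hN, Finset.mem_filter, Finset.mem_erase] at this; exact this.1.2
      · right
        have hvQ : v ∉ Q := fun h => by
          have := hQ h; simp [hN] at this
        refine ⟨insert v Q, ?_, ?_, ?_⟩
        · intro x hx
          rcases Finset.mem_insert.mp hx with rfl | hx
          · exact hv
          · have := hQ hx; simp only [hN, Finset.mem_filter, Finset.mem_erase] at this; exact this.1.2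
        · rw [Finset.card_insert_of_notMem hvQ, hQc]
        · have hvw : ∀ w ∈ Q, G.Adj v w := by
            intro w hw
            have := hQ hw; simp only [hN, Finset.mem_filter, Finset.mem_erase] at this; exact this.2
          intro x hx y hy hxy
          rcases Finset.mem_insert.mp hx with hx' | hx' <;> rcases Finset.mem_insert.mp hy with hy' | hy'
          · exact absurd (hx'.trans hy'.symm) hxy
          · rw [hx']; exact hvw y hy'
          · rw [hy']; exact (hvw x hx').symm
          · exact hQi x hx' y hy' hxy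

end Pool.Agent.H72.Bireg
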