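import Pool.Agent.H72.BiregA

set_option autoImplicit false
set_option linter.unusedSectionVars false

open Finset Matrix

namespace Pool.Agent.H72.Bireg

variable {V : Type} [Fintype V] [DecidableEq V] (G : SimpleGraph V) [DecidableRel G.Adj]

/-- cliques -/
def IsClq (Q : Finset V) : Prop := ∀ x ∈ Q, ∀ y ∈ Q, x ≠ y → G.Adj x y

/-- independent sets -/
def IsInd (I : Finset V) : Prop := ∀ x ∈ I, ∀ y ∈ I, ¬ G.Adj x y

/-- non-neighbours of `z` in `Q`, other than `z` -/
def miss (z : V) (Q : Finset V) : Finset V := Q.filter (fun w => w ≠ z ∧ ¬ G.Adj z w)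

/-- neighbours of `z` in `Q` -/
def nb (z : V) (Q : Finset V) : Finset V := Q.filter (fun w => G.Adj z w)

/-- the quasi-clique spanned by the clique `Q` -/
def hat (H : ℕ) (Q : Finset V) : Finset V := univ.filter (fun z => (miss G z Q).card ≤ H)

variable {G}

lemma mem_miss {z w : V} {Q : Finset V} : w ∈ miss G z Q ↔ w ∈ Q ∧ w ≠ z ∧ ¬ G.Adj z w := by
  simp [miss]

lemma mem_nb {z w : V} {Q : Finset V} : w ∈ nb G z Q ↔ w ∈ Q ∧ G.Adj z w := by
  simp [nb]

lemma mem_hat {H : ℕ} {z : V} {Q : Finset V} : z ∈ hat G H Q ↔ (miss G z Q).card ≤ H := by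
  simp [hat]

lemma miss_mono {z : V} {Q Q' : Finset V} (h : Q ⊆ Q') : miss G z Q ⊆ miss G z Q' :=
  Finset.filter_subset_filter _ h

lemma miss_empty_of_mem_clq {z : V} {Q : Finset V} (hQ : IsClq G Q) (hz : z ∈ Q) : miss G z Q = ∅ := by
  ext w
  simp only [mem_miss, notMem_empty, iff_false, not_and, not_not]
  intro hw hne
  exact hQ z hz w hw hne.symm

lemma clq_subset_hat {H : ℕ} {Q : Finset V} (hQ : IsClq G Q) : Q ⊆ hat G H Q := by
  intro z hz
  rw [mem_hat, miss_empty_of_mem_clq hQ hz]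
  simp

lemma nb_add_miss {z : V} {Q : Finset V} (hz : z ∉ Q) : (nb G z Q).card + (miss G z Q).card = Q.card := by
  have : miss G z Q = Q.filter (fun w => ¬ G.Adj z w) := by
    ext w
    simp only [mem_miss, Finset.mem_filter]
    constructor
    · rintro ⟨h1, h2, h3⟩; exact ⟨h1, h3⟩
    · rintro ⟨h1, h3⟩; exact ⟨h1, fun h => hz (h ▸ h1), h3⟩
  rw [this, nb, Finset.card_filter_add_card_filter_not]

lemma isClq_subset {Q Q' : Finset V} (h : Q' ⊆ Q) (hQ : IsClq G Q) : IsClq G Q' :=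
  fun x hx y hy hxy => hQ x (h hx) y (h hy) hxy

/-- Lemma B': dichotomy for a vertex and a clique. -/
lemma dicho {T : ℕ} (hT : 0 < T) (hpsd : PSD G (T:ℝ)) {Q : Finset V} (hQ : IsClq G Q) (z : V) :
    (nb G z Q).card ≤ 2 * T ^ 2 ∨ (miss G z Q).card ≤ 2 * T ^ 2 := by
  by_cases hz : z ∈ Q
  · right; rw [miss_empty_of_mem_clq hQ hz]; simp
  by_contra hcon
  push Not at hcon
  obtain ⟨h1, h2⟩ := hcon
  have h0 := vertex_clique (G := G) (T := (T:ℝ)) (by exact_mod_cast hT) hpsd z (nb G z Q) (miss G z Q)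
    (fun h => (mem_miss.mp h).2.1 rfl)
    (by
      rw [Finset.disjoint_left]
      intro a ha hb
      exact (mem_miss.mp hb).2.2 (mem_nb.mp ha).2)
    (by
      intro x hx y hy hxy
      apply hQ x _ y _ hxy
      · rcases Finset.mem_union.mp hx with h | h
        · exact (mem_nb.mp h).1
        · exact (mem_miss.mp h).1
      · rcases Finset.mem_union.mp hy with h | h
        · exact (mem_nb.mp h).1
        · exact (mem_miss.mp h).1)
    (fun x hx => (mem_nb.mp hx).2) (fun x hx => (mem_miss.mp hx).2.2)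
  have h1' : (2 * (T:ℝ) ^ 2) < ((nb G z Q).card : ℝ) := by exact_mod_cast h1
  have h2' : (2 * (T:ℝ) ^ 2) < ((miss G z Q).card : ℝ) := by exact_mod_cast h2
  have hT' : (0:ℝ) < (T:ℝ)^2 := by positivity
  nlinarith

lemma mem_hat_of_nb {T : ℕ} (hT : 0 < T) (hpsd : PSD G (T:ℝ)) {Q : Finset V} (hQ : IsClq G Q) {z : V}
    (h : 2 * T ^ 2 < (nb G z Q).card) : z ∈ hat G (2 * T ^ 2) Q := by
  rw [mem_hat]
  rcases dicho hT hpsd hQ z with h1 | h1
  · omega
  · exact h1

lemma mem_hat_of_miss {T C : ℕ} (hT : 0 < T) (hpsd : PSD G (T:ℝ)) {Q : Finset V} (hQ : IsClq G Q) {z : V}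
    (hc : C + 2 * T ^ 2 + 1 ≤ Q.card)
    (h : (miss G z Q).card ≤ C) : z ∈ hat G (2 * T ^ 2) Q := by
  by_cases hz : z ∈ Q
  · exact clq_subset_hat hQ hz
  · apply mem_hat_of_nb hT hpsd hQ
    have := nb_add_miss (G := G) hz
    omega

/-- common neighbours in the clique of a few members of the hat -/
lemma common_in_clique {H : ℕ} {Q : Finset V} (S : Finset V) (hS : S ⊆ hat G H Q) (m : ℕ)
    (hc : S.card * (H + 1) + m ≤ Q.card) :
    ∃ Q' ⊆ Q, m ≤ Q'.card ∧ ∀ v ∈ Q', ∀ w ∈ S, v ≠ w ∧ G.Adj w v := by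
  refine ⟨Q.filter (fun v => ∀ w ∈ S, v ≠ w ∧ G.Adj w v), Finset.filter_subset _ _, ?_, ?_⟩
  · have hsub : Q.filter (fun v => ¬ ∀ w ∈ S, v ≠ w ∧ G.Adj w v) ⊆ S.biUnion (fun w => insert w (miss G w Q)) := by
      intro v hv
      simp only [Finset.mem_filter, not_forall] at hv
      obtain ⟨hvQ, w, hw, hn⟩ := hv
      simp only [Finset.mem_biUnion, Finset.mem_insert]
      refine ⟨w, hw, ?_⟩
      by_cases hvw : v = w
      · left; exact hvw
      · right; rw [mem_miss]; exact ⟨hvQ, hvw, fun h => hn ⟨hvw, h⟩⟩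
    have h1 : (Q.filter (fun v => ¬ ∀ w ∈ S, v ≠ w ∧ G.Adj w v)).card ≤ S.card * (H + 1) := by
      refine (Finset.card_le_card hsub).trans ?_
      apply Finset.card_biUnion_le_card_mul
      intro w hw
      have := mem_hat.mp (hS hw)
      exact (Finset.card_insert_le _ _).trans (by omega)
    have h2 := Finset.card_filter_add_card_filter_not (s := Q) (fun v => ∀ w ∈ S, v ≠ w ∧ G.Adj w v)
    omega
  · intro v hv w hw
    simp only [Finset.mem_filter] at hv
    exact hv.2 w hw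

lemma indep_hat {T : ℕ} (hT : 0 < T) (hpsd : PSD G (T:ℝ)) {Q : Finset V}
    (hc : (T ^ 2 + 1) * (2 * T ^ 2 + 1) + 1 ≤ Q.card) (I : Finset V) (hI : I ⊆ hat G (2 * T ^ 2) Q)
    (hind : IsInd G I) : I.card ≤ T ^ 2 := by
  by_contra hcon
  push Not at hcon
  obtain ⟨I', hI', hI'c⟩ := Finset.exists_subset_card_eq (show T ^ 2 + 1 ≤ I.card by omega)
  obtain ⟨Q', hQ', hQ'c, hQ'a⟩ := common_in_clique I' (hI'.trans hI) 1 (by rw [hI'c]; exact hc)
  obtain ⟨v, hv⟩ := Finset.card_pos.mp (show 0 < Q'.card by omega)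
  have := claw (G := G) (T := (T:ℝ)) (by exact_mod_cast hT) hpsd v I' (fun x hx => (hQ'a v hv x hx).2.symm)
    (fun x hx y hy => hind x (hI' hx) y (hI' hy))
  rw [hI'c] at this
  push_cast at this
  linarith

/-- bound for the number of non-neighbours inside a hat -/
def cD (T : ℕ) : ℕ := ram (T ^ 2 + 1) (2 * T ^ 2 + 1)

lemma miss_hat {T : ℕ} (hT : 0 < T) (hpsd : PSD G (T:ℝ)) {Q : Finset V} (hQ : IsClq G Q)
    (hc : (2 * T ^ 2 + 3) * (2 * T ^ 2 + 1) ≤ Q.card) {z : V} (hz : z ∈ hat G (2 * T ^ 2) Q) :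
    (miss G z (hat G (2 * T ^ 2) Q)).card < cD T := by
  by_contra hcon
  push Not at hcon
  have hTT : 1 ≤ T ^ 2 := Nat.one_le_pow _ _ hT
  rcases ramsey G _ _ _ hcon with ⟨I, hI, hIc, hIi⟩ | ⟨W, hW, hWc, hWi⟩
  · have := indep_hat hT hpsd (Q := Q) (by nlinarith) I (fun x hx => (mem_miss.mp (hI hx)).1) hIi
    omega
  · obtain ⟨Q', hQ', hQ'c, hQ'a⟩ := common_in_clique (G := G) (H := 2 * T ^ 2) (Q := Q) (insert z W)
      (by
        intro x hx
        rcases Finset.mem_insert.mp hx with rfl | hx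
        · exact hz
        · exact (mem_miss.mp (hW hx)).1) (2 * T ^ 2 + 1)
      (by
        have : (insert z W).card ≤ 2 * T ^ 2 + 2 := (Finset.card_insert_le _ _).trans (by omega)
        nlinarith)
    have h0 := vertex_clique (G := G) (T := (T:ℝ)) (by exact_mod_cast hT) hpsd z Q' W
      (fun h => (mem_miss.mp (hW h)).2.1 rfl)
      (by
        rw [Finset.disjoint_left]
        intro a ha hb
        exact (hQ'a a ha a (Finset.mem_insert_of_mem hb)).1 rfl)
      (by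
        intro x hx y hy hxy
        rcases Finset.mem_union.mp hx with h | h <;> rcases Finset.mem_union.mp hy with h' | h'
        · exact hQ x (hQ' h) y (hQ' h') hxy
        · exact (hQ'a x h y (Finset.mem_insert_of_mem h')).2.symm
        · exact (hQ'a y h' x (Finset.mem_insert_of_mem h)).2
        · exact hWi x h y h' hxy)
      (fun x hx => (hQ'a x hx z (Finset.mem_insert_self _ _)).2)
      (fun x hx => (mem_miss.mp (hW hx)).2.2)
    have h1' : (2 * (T:ℝ) ^ 2) + 1 ≤ (Q'.card : ℝ) := by exact_mod_cast hQ'c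
    have h2' : (W.card : ℝ) = 2 * (T:ℝ) ^ 2 + 1 := by rw [hWc]; push_cast; ring
    have hT' : (0:ℝ) < (T:ℝ)^2 := by positivity
    rw [h2'] at h0
    nlinarith

/-- threshold for clique sizes -/
def q1 (T : ℕ) : ℕ := (2 * T ^ 2 + 3) * (2 * T ^ 2 + 1) + cD T + 2 * T ^ 2 + 1

/-- bound for intersections of distinct lines -/
def cE (T : ℕ) : ℕ := ram (T ^ 2 + 1) (q1 T)

lemma q1_ge (T : ℕ) : (2 * T ^ 2 + 3) * (2 * T ^ 2 + 1) ≤ q1 T := by unfold q1; omega

lemma q1_ge' (T : ℕ) : cD T + 2 * T ^ 2 + 1 ≤ q1 T := by unfold q1; omega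

lemma q1_ge'' (T : ℕ) : (T ^ 2 + 1) * (2 * T ^ 2 + 1) + 1 ≤ q1 T := by
  unfold q1; nlinarith [sq_nonneg T]

lemma hat_eq {T : ℕ} (hT : 0 < T) (hpsd : PSD G (T:ℝ)) {Q Q3 : Finset V} (hQ : IsClq G Q) (hQ3 : IsClq G Q3)
    (hc : q1 T ≤ Q.card) (hc3 : q1 T ≤ Q3.card) (hsub : Q3 ⊆ hat G (2 * T ^ 2) Q) :
    hat G (2 * T ^ 2) Q3 = hat G (2 * T ^ 2) Q := by
  have h1 : hat G (2 * T ^ 2) Q ⊆ hat G (2 * T ^ 2) Q3 := by
    intro z hz
    apply mem_hat_of_miss hT hpsd hQ3 (C := cD T) ((q1_ge' T).trans hc3)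
    refine (Finset.card_le_card (miss_mono hsub)).trans ?_
    exact (miss_hat hT hpsd hQ ((q1_ge T).trans hc) hz).le
  refine Finset.Subset.antisymm ?_ h1
  intro z hz
  apply mem_hat_of_miss hT hpsd hQ (C := cD T) ((q1_ge' T).trans hc)
  refine (Finset.card_le_card (miss_mono ((clq_subset_hat hQ).trans h1))).trans ?_
  exact (miss_hat hT hpsd hQ3 ((q1_ge T).trans hc3) hz).le

lemma inter_bound {T : ℕ} (hT : 0 < T) (hpsd : PSD G (T:ℝ)) {Q Q' : Finset V} (hQ : IsClq G Q) (hQ' : IsClq G Q')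
    (hc : q1 T ≤ Q.card) (hc' : q1 T ≤ Q'.card) (hne : hat G (2 * T ^ 2) Q ≠ hat G (2 * T ^ 2) Q') :
    (hat G (2 * T ^ 2) Q ∩ hat G (2 * T ^ 2) Q').card < cE T := by
  by_contra hcon
  push Not at hcon
  rcases ramsey G _ _ _ hcon with ⟨I, hI, hIc, hIi⟩ | ⟨W, hW, hWc, hWi⟩
  · have := indep_hat hT hpsd (Q := Q) ((q1_ge'' T).trans hc) I
      (hI.trans Finset.inter_subset_left) hIi
    omega
  · apply hne
    rw [← hat_eq hT hpsd hQ hWi hc hWc.ge (hW.trans Finset.inter_subset_left),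
      ← hat_eq hT hpsd hQ' hWi hc' hWc.ge (hW.trans Finset.inter_subset_right)]

lemma nb_hat_bound {T : ℕ} (hT : 0 < T) (hpsd : PSD G (T:ℝ)) {Q : Finset V} (hQ : IsClq G Q)
    (hc : q1 T ≤ Q.card) {z : V} (hz : z ∉ hat G (2 * T ^ 2) Q) :
    (nb G z (hat G (2 * T ^ 2) Q)).card < cE T := by
  by_contra hcon
  push Not at hcon
  rcases ramsey G _ _ _ hcon with ⟨I, hI, hIc, hIi⟩ | ⟨W, hW, hWc, hWi⟩
  · have := indep_hat hT hpsd (Q := Q) ((q1_ge'' T).trans hc) I
      (fun x hx => (mem_nb.mp (hI hx)).1) hIi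
    omega
  · apply hz
    rw [← hat_eq hT hpsd hQ hWi hc hWc.ge (fun x hx => (mem_nb.mp (hW hx)).1), mem_hat]
    have : miss G z W = ∅ := by
      ext w
      simp only [mem_miss, notMem_empty, iff_false, not_and, not_not]
      intro hw _
      exact (mem_nb.mp (hW hw)).2
    rw [this]; simp

/-- the set of lines at level `q` -/
noncomputable def lines (G : SimpleGraph V) [DecidableRel G.Adj] (T q : ℕ) : Finset (Finset V) :=
  by classical exact (univ.filter (fun Q : Finset V => IsClq G Q ∧ q ≤ Q.card)).image (hat G (2 * T ^ 2))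

lemma mem_lines {T q : ℕ} {L : Finset V} :
    L ∈ lines G T q ↔ ∃ Q, (IsClq G Q ∧ q ≤ Q.card) ∧ hat G (2 * T ^ 2) Q = L := by
  classical
  simp [lines]

/-- level needed for the bound on the number of lines through a vertex -/
def q2 (T : ℕ) : ℕ := q1 T + (2 * T ^ 2 + 1) + T ^ 2 * cE T + T ^ 2 * (2 * T ^ 2) + 1

lemma lines_through_aux {T q : ℕ} (hT : 0 < T) (hpsd : PSD G (T:ℝ)) (hq : q2 T ≤ q) (z : V)
    (M0 : Finset (Finset V)) (hM0 : M0 ⊆ lines G T q) (hz : ∀ L ∈ M0, z ∈ L) (hM0c : M0.card = T ^ 2 + 1) :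
    ∀ M ⊆ M0, ∃ I : Finset V, I.card = M.card ∧ IsInd G I ∧ (∀ x ∈ I, G.Adj z x) ∧
      ∀ y ∈ I, ∃ L ∈ M, ∀ L' ∈ M0, L' ≠ L → y ∉ L' := by
  intro M
  induction M using Finset.induction_on with
  | empty => intro _; exact ⟨∅, by simp, by intro x hx; simp at hx, by simp, by simp⟩
  | insert L M hLM ih =>
    intro hsub
    have hLM0 : L ∈ M0 := hsub (Finset.mem_insert_self _ _)
    obtain ⟨I, hIc, hIi, hIz, hIL⟩ := ih (fun x hx => hsub (Finset.mem_insert_of_mem hx))
    obtain ⟨Q, ⟨hQ, hQc⟩, hQL⟩ := mem_lines.mp (hM0 hLM0)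
    have hMc : M.card ≤ T ^ 2 := by
      have := Finset.card_le_card hsub
      rw [Finset.card_insert_of_notMem hLM, hM0c] at this
      omega
    -- elements of I are not in L
    have hIL' : ∀ y ∈ I, y ∉ L := by
      intro y hy
      obtain ⟨L1, hL1, h1⟩ := hIL y hy
      apply h1 L hLM0
      rintro rfl; exact hLM hL1
    set B1 := insert z (miss G z Q) with hB1
    set B2 := (M0.erase L).biUnion (fun L' => L ∩ L') with hB2
    set B3 := I.biUnion (fun y => nb G y Q) with hB3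
    have c1 : B1.card ≤ 2 * T ^ 2 + 1 := by
      have hzL : z ∈ hat G (2 * T ^ 2) Q := by rw [hQL]; exact hz L hLM0
      have := mem_hat.mp hzL
      exact (Finset.card_insert_le _ _).trans (by omega)
    have c2 : B2.card ≤ T ^ 2 * cE T := by
      have : (M0.erase L).card = T ^ 2 := by rw [Finset.card_erase_of_mem hLM0, hM0c]; rfl
      rw [← this]
      apply Finset.card_biUnion_le_card_mul
      intro L' hL'
      obtain ⟨Q', ⟨hQ', hQ'c⟩, hQ'L⟩ := mem_lines.mp (hM0 (Finset.mem_of_mem_erase hL'))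
      rw [← hQL, ← hQ'L]
      apply (inter_bound hT hpsd hQ hQ' _ _ _).le
      · unfold q2 at hq; omega
      · unfold q2 at hq; omega
      · rw [hQL, hQ'L]; exact (Finset.ne_of_mem_erase hL').symm
    have c3 : B3.card ≤ T ^ 2 * (2 * T ^ 2) := by
      refine le_trans ?_ (Nat.mul_le_mul_right _ (hIc ▸ hMc : I.card ≤ T ^ 2))
      apply Finset.card_biUnion_le_card_mul
      intro y hy
      have hyL : y ∉ hat G (2 * T ^ 2) Q := by rw [hQL]; exact hIL' y hy
      rw [mem_hat] at hyL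
      rcases dicho hT hpsd hQ y with h | h
      · exact h
      · exact absurd h hyL
    have hex : ∃ y ∈ Q, y ∉ B1 ∪ B2 ∪ B3 := by
      by_contra hcon
      push Not at hcon
      have h1 : Q ⊆ B1 ∪ B2 ∪ B3 := hcon
      have h2 := Finset.card_le_card h1
      have h3 := Finset.card_union_le (B1 ∪ B2) B3
      have h4 := Finset.card_union_le B1 B2
      unfold q2 at hq
      omega
    obtain ⟨y, hyQ, hyB⟩ := hex
    simp only [Finset.mem_union, not_or] at hyB
    obtain ⟨⟨hy1, hy2⟩, hy3⟩ := hyB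
    have hyL : y ∈ L := by rw [← hQL]; exact clq_subset_hat hQ hyQ
    have hzy : G.Adj z y := by
      rw [hB1, Finset.mem_insert, not_or] at hy1
      by_contra hn
      exact hy1.2 (mem_miss.mpr ⟨hyQ, hy1.1, hn⟩)
    have hyI : ∀ x ∈ I, ¬ G.Adj x y := by
      intro x hx hxy
      apply hy3
      rw [hB3, Finset.mem_biUnion]
      exact ⟨x, hx, mem_nb.mpr ⟨hyQ, hxy⟩⟩
    have hynI : y ∉ I := fun h => hIL' y h hyL
    refine ⟨insert y I, ?_, ?_, ?_, ?_⟩
    · rw [Finset.card_insert_of_notMem hynI, Finset.card_insert_of_notMem hLM, hIc]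
    · intro a ha b hb
      rcases Finset.mem_insert.mp ha with ha' | ha' <;> rcases Finset.mem_insert.mp hb with hb' | hb'
      · rw [ha', hb']; simp
      · rw [ha']; intro h; exact hyI b hb' h.symm
      · rw [hb']; exact hyI a ha'
      · exact hIi a ha' b hb'
    · intro a ha
      rcases Finset.mem_insert.mp ha with ha' | ha'
      · rw [ha']; exact hzy
      · exact hIz a ha'
    · intro a ha
      rcases Finset.mem_insert.mp ha with ha' | ha'
      · refine ⟨L, Finset.mem_insert_self _ _, ?_⟩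
        intro L' hL' hne haL'
        apply hy2
        rw [hB2, Finset.mem_biUnion]
        exact ⟨L', Finset.mem_erase.mpr ⟨hne, hL'⟩, Finset.mem_inter.mpr ⟨hyL, ha' ▸ haL'⟩⟩
      · obtain ⟨L1, hL1, h1⟩ := hIL a ha'
        exact ⟨L1, Finset.mem_insert_of_mem hL1, h1⟩

lemma lines_through {T q : ℕ} (hT : 0 < T) (hpsd : PSD G (T:ℝ)) (hq : q2 T ≤ q) (z : V) :
    ((lines G T q).filter (fun L => z ∈ L)).card ≤ T ^ 2 := by
  by_contra hcon
  push Not at hcon
  obtain ⟨M0, hM0, hM0c⟩ := Finset.exists_subset_card_eq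
    (show T ^ 2 + 1 ≤ ((lines G T q).filter (fun L => z ∈ L)).card by omega)
  obtain ⟨I, hIc, hIi, hIz, -⟩ := lines_through_aux hT hpsd hq z M0
    (fun L hL => (Finset.mem_filter.mp (hM0 hL)).1) (fun L hL => (Finset.mem_filter.mp (hM0 hL)).2) hM0c
    M0 (Finset.Subset.refl _)
  have := claw (G := G) (T := (T:ℝ)) (by exact_mod_cast hT) hpsd z I hIz hIi
  rw [hIc, hM0c] at this
  push_cast at this
  linarith

/-- The line structure. -/
theorem exists_lines (T : ℕ) (hT : 0 < T) : ∃ C : ℕ, ∀ q ≥ q2 T, ∃ R : ℕ,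
    ∀ (V : Type) [Fintype V] [DecidableEq V] (G : SimpleGraph V) [DecidableRel G.Adj], PSD G (T:ℝ) →
    ∃ LL : Finset (Finset V),
      (∀ L ∈ LL, q ≤ L.card) ∧
      (∀ L ∈ LL, ∀ L' ∈ LL, L ≠ L' → (L ∩ L').card ≤ C) ∧
      (∀ L ∈ LL, ∀ z ∈ L, (miss G z L).card ≤ C) ∧
      (∀ z, (LL.filter (fun L => z ∈ L)).card ≤ T ^ 2) ∧
      (∀ x y, R ≤ (G.neighborFinset x ∩ G.neighborFinset y).card → ∃ L ∈ LL, x ∈ L ∧ y ∈ L) ∧
      (∀ L ∈ LL, ∀ z, z ∉ L → (nb G z L).card ≤ C) := by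
  refine ⟨cD T + cE T, fun q hq => ⟨ram (T ^ 2 + 1) q, ?_⟩⟩
  intro V _ _ G _ hpsd
  have hq1 : q1 T ≤ q := by unfold q2 at hq; omega
  refine ⟨lines G T q, ?_, ?_, ?_, ?_, ?_, ?_⟩
  · intro L hL
    obtain ⟨Q, ⟨hQ, hQc⟩, hQL⟩ := mem_lines.mp hL
    rw [← hQL]
    exact hQc.trans (Finset.card_le_card (clq_subset_hat hQ))
  · intro L hL L' hL' hne
    obtain ⟨Q, ⟨hQ, hQc⟩, hQL⟩ := mem_lines.mp hL
    obtain ⟨Q', ⟨hQ', hQ'c⟩, hQ'L⟩ := mem_lines.mp hL'
    rw [← hQL, ← hQ'L]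
    have := inter_bound hT hpsd hQ hQ' (hq1.trans hQc) (hq1.trans hQ'c) (by rw [hQL, hQ'L]; exact hne)
    omega
  · intro L hL z hz
    obtain ⟨Q, ⟨hQ, hQc⟩, hQL⟩ := mem_lines.mp hL
    rw [← hQL] at hz ⊢
    have := miss_hat hT hpsd hQ ((q1_ge T).trans (hq1.trans hQc)) hz
    omega
  · intro z
    exact lines_through hT hpsd hq z
  · intro x y hxy
    rcases ramsey G _ _ _ hxy with ⟨I, hI, hIc, hIi⟩ | ⟨W, hW, hWc, hWi⟩
    · have := claw (G := G) (T := (T:ℝ)) (by exact_mod_cast hT) hpsd x I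
        (fun w hw => by
          have := hI hw
          rw [Finset.mem_inter, SimpleGraph.mem_neighborFinset] at this
          exact this.1) hIi
      rw [hIc] at this
      push_cast at this
      linarith
    · refine ⟨hat G (2 * T ^ 2) W, mem_lines.mpr ⟨W, ⟨hWi, hWc.ge⟩, rfl⟩, ?_, ?_⟩
      · rw [mem_hat]
        have : miss G x W = ∅ := by
          ext w
          simp only [mem_miss, notMem_empty, iff_false, not_and, not_not]
          intro hw _
          have := hW hw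
          rw [Finset.mem_inter, SimpleGraph.mem_neighborFinset] at this
          exact this.1
        rw [this]; simp
      · rw [mem_hat]
        have : miss G y W = ∅ := by
          ext w
          simp only [mem_miss, notMem_empty, iff_false, not_and, not_not]
          intro hw _
          have := hW hw
          rw [Finset.mem_inter, SimpleGraph.mem_neighborFinset, SimpleGraph.mem_neighborFinset] at this
          exact this.2
        rw [this]; simp
  · intro L hL z hz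
    obtain ⟨Q, ⟨hQ, hQc⟩, hQL⟩ := mem_lines.mp hL
    rw [← hQL] at hz ⊢
    have := nb_hat_bound hT hpsd hQ (hq1.trans hQc) hz
    omega

end Pool.Agent.H72.Bireg
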