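import Pool.Agent.H72.BiregB

set_option autoImplicit false
set_option linter.unusedSectionVars false

open Finset Matrix

namespace Pool.Agent.H72.Bireg

variable {V : Type} [Fintype V] [DecidableEq V] {G : SimpleGraph V} [DecidableRel G.Adj]

/-- number of common neighbours -/
def cn (G : SimpleGraph V) [DecidableRel G.Adj] (x y : V) : ℕ :=
  (G.neighborFinset x ∩ G.neighborFinset y).card

lemma mul_self_apply (x y : V) : (G.adjMatrix ℝ * G.adjMatrix ℝ) x y = cn G x y := by
  rw [SimpleGraph.adjMatrix_mul_apply]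
  simp only [SimpleGraph.adjMatrix_apply]
  rw [Finset.sum_boole]
  unfold cn
  congr 2
  ext z
  simp [G.adj_comm]

/-- The data attached to a connected biregular graph with three eigenvalues `θ > s > -t`. -/
structure Dat (G : SimpleGraph V) [DecidableRel G.Adj] (s t θ : ℝ) (a : V → ℝ) (k1 k2 : ℕ) : Prop where
  mat : ∀ x y, (cn G x y : ℝ) = a x * a y + (s - t) * (if G.Adj x y then 1 else 0) + s * t * (if x = y then 1 else 0)
  eig : ∀ x, ∑ y ∈ G.neighborFinset x, a y = θ * a x
  psd : PSD G t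
  pos : ∀ x, 0 < a x
  norm : ∑ x, a x ^ 2 = (θ - s) * (θ + t)
  hs : s < θ
  hst : -t < s
  ht : 0 < t
  hk : k2 < k1
  hdeg : ∀ x, G.degree x = k1 ∨ G.degree x = k2
  h1 : ∃ x, G.degree x = k1
  h2 : ∃ x, G.degree x = k2
  conn : ∃ x y, G.Adj x y ∧ G.degree x = k1 ∧ G.degree y = k2

namespace Dat

variable {s t θ : ℝ} {a : V → ℝ} {k1 k2 : ℕ}

lemma cn_self (x : V) : cn G x x = G.degree x := by
  unfold cn; rw [Finset.inter_self, SimpleGraph.card_neighborFinset_eq_degree]

lemma deg_eq (h : Dat G s t θ a k1 k2) (x : V) : (G.degree x : ℝ) = a x ^ 2 + s * t := by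
  have := h.mat x x
  rw [cn_self] at this
  simp at this
  rw [this]; ring

lemma cn_adj (h : Dat G s t θ a k1 k2) {x y : V} (hxy : G.Adj x y) : (cn G x y : ℝ) = a x * a y + (s - t) := by
  have := h.mat x y
  simpa [hxy, hxy.ne] using this

lemma cn_nadj (h : Dat G s t θ a k1 k2) {x y : V} (hne : x ≠ y) (hxy : ¬ G.Adj x y) : (cn G x y : ℝ) = a x * a y := by
  have := h.mat x y
  simpa [hxy, hne] using this

lemma a_eq (h : Dat G s t θ a k1 k2) {x y : V} (hxy : G.degree x = G.degree y) : a x = a y := by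
  have h1 := h.deg_eq x
  have h2 := h.deg_eq y
  rw [hxy] at h1
  have h3 : a x ^ 2 = a y ^ 2 := by linarith
  exact (pow_left_inj₀ (h.pos x).le (h.pos y).le (by norm_num)).mp h3

lemma theta_pos (h : Dat G s t θ a k1 k2) : 0 < θ := by
  obtain ⟨x, y, hxy, -, -⟩ := h.conn
  have h1 := h.eig x
  have h2 : 0 < ∑ y ∈ G.neighborFinset x, a y :=
    Finset.sum_pos (fun z _ => h.pos z) ⟨y, by simpa using hxy⟩
  rw [h1] at h2
  have := h.pos x
  by_contra hn
  push Not at hn
  nlinarith

/-- existence of constants `α > β` -/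
lemma alpha_beta (h : Dat G s t θ a k1 k2) : ∃ α β : ℝ, 0 < β ∧ β < α ∧
    (∀ x, G.degree x = k1 → a x = α) ∧ (∀ x, G.degree x = k2 → a x = β) ∧
    (k1 : ℝ) = α ^ 2 + s * t ∧ (k2 : ℝ) = β ^ 2 + s * t := by
  obtain ⟨x1, hx1⟩ := h.h1
  obtain ⟨x2, hx2⟩ := h.h2
  have e1 := h.deg_eq x1
  have e2 := h.deg_eq x2
  rw [hx1] at e1
  rw [hx2] at e2
  refine ⟨a x1, a x2, h.pos x2, ?_, fun x hx => h.a_eq (by rw [hx, hx1]), fun x hx => h.a_eq (by rw [hx, hx2]), e1, e2⟩
  have hk : (k2 : ℝ) < k1 := by exact_mod_cast h.hk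
  have := h.pos x1
  have := h.pos x2
  nlinarith

lemma deg_le (h : Dat G s t θ a k1 k2) (x : V) : G.degree x ≤ k1 := by
  have := h.hk
  rcases h.hdeg x with h1 | h1 <;> omega

lemma k1_lt (h : Dat G s t θ a k1 k2) : k1 < Fintype.card V := by
  obtain ⟨x, hx⟩ := h.h1
  rw [← hx]
  exact G.degree_lt_card_verts x

/-- two distinct vertices are at distance at most two -/
lemma diam (h : Dat G s t θ a k1 k2) {x y : V} (hne : x ≠ y) (hxy : ¬ G.Adj x y) : ∃ z, G.Adj x z ∧ G.Adj z y := by
  have h1 := h.cn_nadj hne hxy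
  have h2 : (0:ℝ) < cn G x y := by rw [h1]; exact mul_pos (h.pos x) (h.pos y)
  have h3 : 0 < cn G x y := by exact_mod_cast h2
  obtain ⟨z, hz⟩ := Finset.card_pos.mp h3
  rw [Finset.mem_inter, SimpleGraph.mem_neighborFinset, SimpleGraph.mem_neighborFinset] at hz
  exact ⟨z, hz.1, hz.2.symm⟩

lemma card_le_of_deg (h : Dat G s t θ a k1 k2) : Fintype.card V ≤ 1 + k1 + k1 * k1 := by
  obtain ⟨x, hx⟩ := h.h1
  have hsub : (univ : Finset V) ⊆ ({x} ∪ G.neighborFinset x) ∪ (G.neighborFinset x).biUnion (fun z => G.neighborFinset z) := by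
    intro y _
    by_cases hxy : y = x
    · simp [hxy]
    by_cases hadj : G.Adj x y
    · simp [hadj]
    · obtain ⟨z, hz1, hz2⟩ := h.diam (fun h => hxy h.symm) hadj
      simp only [Finset.mem_union, Finset.mem_biUnion, SimpleGraph.mem_neighborFinset]
      right; exact ⟨z, hz1, hz2⟩
  have h1 := Finset.card_le_card hsub
  rw [Finset.card_univ] at h1
  refine h1.trans ((Finset.card_union_le _ _).trans ?_)
  have h2 : (({x} : Finset V) ∪ G.neighborFinset x).card ≤ 1 + k1 := by
    refine (Finset.card_union_le _ _).trans ?_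
    rw [Finset.card_singleton, SimpleGraph.card_neighborFinset_eq_degree, hx]
  have h3 : ((G.neighborFinset x).biUnion (fun z => G.neighborFinset z)).card ≤ k1 * k1 := by
    have : (G.neighborFinset x).card = k1 := by rw [SimpleGraph.card_neighborFinset_eq_degree, hx]
    calc _ ≤ (G.neighborFinset x).card * k1 := by
            apply Finset.card_biUnion_le_card_mul
            intro z _
            rw [SimpleGraph.card_neighborFinset_eq_degree]
            exact h.deg_le z
      _ = k1 * k1 := by rw [this]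
  omega

/-- classes -/
def V1 (G : SimpleGraph V) [DecidableRel G.Adj] (k : ℕ) : Finset V := univ.filter (fun x => G.degree x = k)

lemma mem_V1 {k : ℕ} {x : V} : x ∈ V1 G k ↔ G.degree x = k := by simp [V1]

lemma disj (h : Dat G s t θ a k1 k2) : Disjoint (V1 G k1) (V1 G k2) := by
  rw [Finset.disjoint_left]
  intro x hx hx'
  rw [mem_V1] at hx hx'
  have := h.hk
  omega

lemma union (h : Dat G s t θ a k1 k2) : V1 G k1 ∪ V1 G k2 = univ := by
  ext x
  simp only [Finset.mem_union, mem_V1, Finset.mem_univ, iff_true]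
  exact h.hdeg x

lemma card_add (h : Dat G s t θ a k1 k2) : (V1 G k1).card + (V1 G k2).card = Fintype.card V := by
  rw [← Finset.card_union_of_disjoint h.disj, h.union, Finset.card_univ]

lemma nb_add (h : Dat G s t θ a k1 k2) (x : V) : (nb G x (V1 G k1)).card + (nb G x (V1 G k2)).card = G.degree x := by
  rw [← SimpleGraph.card_neighborFinset_eq_degree, ← Finset.card_union_of_disjoint]
  · congr 1
    ext y
    simp only [Finset.mem_union, mem_nb, mem_V1, SimpleGraph.mem_neighborFinset]
    constructor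
    · rintro (h | h) <;> exact h.2
    · intro hxy
      rcases h.hdeg y with h1 | h1
      · left; exact ⟨h1, hxy⟩
      · right; exact ⟨h1, hxy⟩
  · exact Finset.disjoint_filter_filter h.disj

lemma nb_eig (h : Dat G s t θ a k1 k2) {α β : ℝ} (hα : ∀ x, G.degree x = k1 → a x = α)
    (hβ : ∀ x, G.degree x = k2 → a x = β) (x : V) :
    ((nb G x (V1 G k1)).card : ℝ) * α + ((nb G x (V1 G k2)).card : ℝ) * β = θ * a x := by
  rw [← h.eig x]
  have : G.neighborFinset x = nb G x (V1 G k1) ∪ nb G x (V1 G k2) := by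
    ext y
    simp only [Finset.mem_union, mem_nb, mem_V1, SimpleGraph.mem_neighborFinset]
    constructor
    · intro hxy
      rcases h.hdeg y with h1 | h1
      · left; exact ⟨h1, hxy⟩
      · right; exact ⟨h1, hxy⟩
    · rintro (h | h) <;> exact h.2
  rw [this, Finset.sum_union (show Disjoint (nb G x (V1 G k1)) (nb G x (V1 G k2)) from
    Finset.disjoint_filter_filter h.disj)]
  rw [Finset.sum_congr rfl (fun y hy => hα y (mem_V1.mp (mem_nb.mp hy).1)),
    Finset.sum_congr rfl (fun y hy => hβ y (mem_V1.mp (mem_nb.mp hy).1))]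
  simp

/-- equitability -/
lemma equit (h : Dat G s t θ a k1 k2) {x y : V} (hxy : G.degree x = G.degree y) :
    (nb G x (V1 G k1)).card = (nb G y (V1 G k1)).card ∧ (nb G x (V1 G k2)).card = (nb G y (V1 G k2)).card := by
  obtain ⟨α, β, hβ0, hαβ, hα, hβ, -, -⟩ := h.alpha_beta
  have e1 := h.nb_eig hα hβ x
  have e2 := h.nb_eig hα hβ y
  rw [h.a_eq hxy] at e1
  have f1 := h.nb_add x
  have f2 := h.nb_add y
  rw [hxy] at f1
  have g : ((nb G x (V1 G k1)).card : ℝ) + (nb G x (V1 G k2)).card = (nb G y (V1 G k1)).card + (nb G y (V1 G k2)).card := by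
    exact_mod_cast (f1.trans f2.symm)
  have g1 : (((nb G x (V1 G k1)).card : ℝ) - (nb G y (V1 G k1)).card) * (α - β) = 0 := by
    linear_combination e1 - e2 - β * g
  have g2 : ((nb G x (V1 G k1)).card : ℝ) = (nb G y (V1 G k1)).card := by
    rcases mul_eq_zero.mp g1 with h' | h'
    · linarith
    · linarith
  have g3 : (nb G x (V1 G k1)).card = (nb G y (V1 G k1)).card := by exact_mod_cast g2
  exact ⟨g3, by omega⟩

/-- double counting of cross edges -/
lemma double (S S' : Finset V) : ∑ x ∈ S, (nb G x S').card = ∑ y ∈ S', (nb G y S).card := by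
  simp only [nb, Finset.card_filter]
  rw [Finset.sum_comm]
  apply Finset.sum_congr rfl; intro y _
  apply Finset.sum_congr rfl; intro x _
  simp [G.adj_comm]

lemma cn_le (x y : V) : cn G x y ≤ G.degree y := by
  unfold cn
  rw [← SimpleGraph.card_neighborFinset_eq_degree]
  exact Finset.card_le_card Finset.inter_subset_right

/-- common neighbours and missed vertices -/
lemma card_le_cn_add (S : Finset V) (x y : V) : S.card ≤ cn G x y + (S.card - (nb G x S).card) + (S.card - (nb G y S).card) := by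
  have h1 : S ⊆ (G.neighborFinset x ∩ G.neighborFinset y) ∪ (S \ nb G x S) ∪ (S \ nb G y S) := by
    intro z hz
    simp only [Finset.mem_union, Finset.mem_inter, SimpleGraph.mem_neighborFinset, Finset.mem_sdiff, mem_nb, not_and]
    by_cases hx : G.Adj x z
    · by_cases hy : G.Adj y z
      · left; left; exact ⟨hx, hy⟩
      · right; exact ⟨hz, fun _ => hy⟩
    · left; right; exact ⟨hz, fun _ => hx⟩
  have h2 := Finset.card_le_card h1
  have h3 := Finset.card_union_le ((G.neighborFinset x ∩ G.neighborFinset y) ∪ (S \ nb G x S)) (S \ nb G y S)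
  have h4 := Finset.card_union_le (G.neighborFinset x ∩ G.neighborFinset y) (S \ nb G x S)
  have h5 : (S \ nb G x S).card = S.card - (nb G x S).card :=
    Finset.card_sdiff_of_subset (Finset.filter_subset _ _)
  have h6 : (S \ nb G y S).card = S.card - (nb G y S).card :=
    Finset.card_sdiff_of_subset (Finset.filter_subset _ _)
  rw [h6] at h3
  rw [h5] at h4
  unfold cn
  omega

lemma nb_card_le (x : V) (S : Finset V) : (nb G x S).card ≤ S.card := Finset.card_filter_le _ _

lemma card_le_miss (x : V) (S : Finset V) : S.card ≤ (nb G x S).card + (miss G x S).card + 1 := by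
  have h1 : S ⊆ nb G x S ∪ miss G x S ∪ {x} := by
    intro z hz
    simp only [Finset.mem_union, mem_nb, mem_miss, Finset.mem_singleton]
    by_cases hzx : z = x
    · right; exact hzx
    · by_cases hx : G.Adj x z
      · left; left; exact ⟨hz, hx⟩
      · left; right; exact ⟨hz, hzx, hx⟩
  have h2 := Finset.card_le_card h1
  have h3 := Finset.card_union_le (nb G x S ∪ miss G x S) {x}
  have h4 := Finset.card_union_le (nb G x S) (miss G x S)
  rw [Finset.card_singleton] at h3
  omega

/-- Complement of bounded degree. -/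
lemma compl_bounded (h : Dat G s t θ a k1 k2) (D : ℕ) (hD : ∀ x, (miss G x univ).card ≤ D) :
    Fintype.card V ≤ D ^ 2 + 2 * D + 2 := by
  by_contra hcon
  push Not at hcon
  obtain ⟨α, β, hβ0, hαβ, hα, hβ, hk1, hk2⟩ := h.alpha_beta
  obtain ⟨x1, hx1⟩ := h.h1
  obtain ⟨x2, hx2⟩ := h.h2
  have hcard := h.card_add
  -- integrality
  have hmem : ∀ x, ∀ S : Finset V, D + 2 ≤ S.card → ∃ y ∈ S, G.Adj x y := by
    intro x S hS
    have h1 := card_le_miss (G := G) x S
    have h2 := (Finset.card_le_card (miss_mono (G := G) (z := x) (Finset.subset_univ S))).trans (hD x)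
    have h3 : 0 < (nb G x S).card := by omega
    obtain ⟨y, hy⟩ := Finset.card_pos.mp h3
    exact ⟨y, (mem_nb.mp hy).1, (mem_nb.mp hy).2⟩
  have hkk : (k1 : ℝ) - k2 = α ^ 2 - β ^ 2 := by rw [hk1, hk2]; ring
  have hint : ∃ m : ℤ, (α - β) ^ 2 = m := by
    have hor : D + 2 ≤ (V1 G k1).card ∨ D + 2 ≤ (V1 G k2).card := by
      have : D ^ 2 + 2 * D + 2 ≥ 2 * D + 2 := by nlinarith [sq_nonneg D]
      omega
    rcases hor with hc | hc
    · obtain ⟨y1, hy1, ha1⟩ := hmem x1 _ hc
      obtain ⟨y2, hy2, ha2⟩ := hmem x2 _ hc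
      have c1 := h.cn_adj ha1
      have c2 := h.cn_adj ha2
      rw [hα x1 hx1, hα y1 (mem_V1.mp hy1)] at c1
      rw [hβ x2 hx2, hα y2 (mem_V1.mp hy2)] at c2
      refine ⟨2 * ((cn G x1 y1 : ℤ) - cn G x2 y2) - ((k1 : ℤ) - k2), ?_⟩
      push_cast
      rw [c1, c2, hkk]; ring
    · obtain ⟨y1, hy1, ha1⟩ := hmem x1 _ hc
      obtain ⟨y2, hy2, ha2⟩ := hmem x2 _ hc
      have c1 := h.cn_adj ha1
      have c2 := h.cn_adj ha2
      rw [hα x1 hx1, hβ y1 (mem_V1.mp hy1)] at c1
      rw [hβ x2 hx2, hβ y2 (mem_V1.mp hy2)] at c2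
      refine ⟨((k1 : ℤ) - k2) - 2 * ((cn G x1 y1 : ℤ) - cn G x2 y2), ?_⟩
      push_cast
      rw [c1, c2, hkk]; ring
  obtain ⟨m, hm⟩ := hint
  have hm0 : (0:ℝ) < m := by rw [← hm]; have : 0 < α - β := by linarith
                             positivity
  have hm1 : (1:ℝ) ≤ m := by
    have : (0:ℤ) < m := by exact_mod_cast hm0
    exact_mod_cast (show (1:ℤ) ≤ m by omega)
  have hd1 : 1 ≤ α - β := by nlinarith
  have hkD : k1 ≤ k2 + D := by
    have h1 := h.k1_lt
    have h2 := card_le_miss (G := G) x2 univ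
    have h3 := hD x2
    have h4 : (nb G x2 univ).card = k2 := by
      rw [← hx2, ← SimpleGraph.card_neighborFinset_eq_degree]
      congr 1
      ext y; simp [mem_nb]
    rw [Finset.card_univ] at h2
    omega
  have hkD' : (k1 : ℝ) ≤ k2 + D := by exact_mod_cast hkD
  have hαD : α ≤ D := by nlinarith
  -- a nonadjacent pair
  have hne : (miss G x2 univ).Nonempty := by
    rw [← Finset.card_pos]
    have h1 := h.k1_lt
    have h2 := card_le_miss (G := G) x2 univ
    have h4 : (nb G x2 univ).card = k2 := by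
      rw [← hx2, ← SimpleGraph.card_neighborFinset_eq_degree]
      congr 1
      ext y; simp [mem_nb]
    rw [Finset.card_univ] at h2
    have := h.hk
    omega
  obtain ⟨y, hy⟩ := hne
  rw [mem_miss] at hy
  have c := h.cn_nadj (fun h => hy.2.1 h.symm) hy.2.2
  have hay : a y ≤ α := by
    rcases h.hdeg y with h1 | h1
    · rw [hα y h1]
    · rw [hβ y h1]; linarith
  have hD0 : (0:ℝ) ≤ D := Nat.cast_nonneg _
  have hcD : (cn G x2 y : ℝ) ≤ (D:ℝ) ^ 2 := by
    rw [c, hβ x2 hx2]
    have := h.pos y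
    nlinarith
  have hcD' : cn G x2 y ≤ D ^ 2 := by exact_mod_cast hcD
  have h5 := card_le_cn_add (G := G) univ x2 y
  have h6 := card_le_miss (G := G) x2 univ
  have h7 := card_le_miss (G := G) y univ
  have h8 := hD x2
  have h9 := hD y
  rw [Finset.card_univ] at h5 h6 h7
  omega

end Dat

end Pool.Agent.H72.Bireg
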