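import Pool.Agent.H72.BiregC

set_option autoImplicit false
set_option linter.unusedSectionVars false

open Finset Matrix

namespace Pool.Agent.H72.Bireg

variable {V : Type} [Fintype V] [DecidableEq V] {G : SimpleGraph V} [DecidableRel G.Adj]

lemma dot_symm (u v : V → ℝ) : u ⬝ᵥ (G.adjMatrix ℝ *ᵥ v) = v ⬝ᵥ (G.adjMatrix ℝ *ᵥ u) := by
  rw [Matrix.dotProduct_mulVec, ← Matrix.mulVec_transpose, SimpleGraph.transpose_adjMatrix, dotProduct_comm]

namespace Dat

variable {s t θ : ℝ} {a : V → ℝ} {k1 k2 : ℕ}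

lemma mulVec_a (h : Dat G s t θ a k1 k2) : G.adjMatrix ℝ *ᵥ a = θ • a := by
  ext x
  rw [SimpleGraph.adjMatrix_mulVec_apply, h.eig x]
  simp

lemma dot_a (h : Dat G s t θ a k1 k2) : a ⬝ᵥ a = (θ - s) * (θ + t) := by
  rw [← h.norm]
  unfold dotProduct
  apply Finset.sum_congr rfl; intro x _; ring

lemma N_pos (h : Dat G s t θ a k1 k2) : 0 < (θ - s) * (θ + t) := by
  have := h.hs
  have := h.ht
  have := h.theta_pos
  apply mul_pos <;> linarith

lemma a_sq_le (h : Dat G s t θ a k1 k2) (x : V) : a x ^ 2 ≤ t * (θ - s) := by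
  have hN := h.N_pos
  set N := (θ - s) * (θ + t) with hNdef
  have h0 := h.psd (N • ind {x} + (-(a x)) • a + (0:ℝ) • a)
  rw [qf_three, h.mulVec_a, dot_symm a (ind {x}), h.mulVec_a, ind_mulVec_dot, ind_dot] at h0
  rw [e_empty {x} {x} (by simp)] at h0
  have h1 : ind {x} ⬝ᵥ a = a x := by
    unfold ind dotProduct
    simp
  have h2 : a ⬝ᵥ ind {x} = a x := by rw [dotProduct_comm]; exact h1
  simp only [dotProduct_smul, h1, h2, h.dot_a, smul_eq_mul, Finset.inter_self, Finset.card_singleton, Nat.cast_one,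
    ← hNdef] at h0
  have hθ := h.theta_pos
  have ht := h.ht
  have h3 : 0 ≤ N * (t * N - (θ + t) * a x ^ 2) := by nlinarith
  have h4 : 0 ≤ t * N - (θ + t) * a x ^ 2 := by
    by_contra hn
    push Not at hn
    have := mul_neg_of_pos_of_neg hN hn
    linarith
  rw [hNdef] at h4
  have h5 : 0 ≤ (θ + t) * (t * (θ - s) - a x ^ 2) := by nlinarith
  have h6 : 0 < θ + t := by linarith
  by_contra hn
  push Not at hn
  have : (θ + t) * (t * (θ - s) - a x ^ 2) < 0 := mul_neg_of_pos_of_neg h6 (by linarith)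
  linarith

lemma row_total (h : Dat G s t θ a k1 k2) (x : V) {T S : ℝ} (hT : t ≤ T) (hS : |s| ≤ S) :
    ∑ y, ((if G.Adj x y then (1:ℝ) else 0) - θ / ((θ - s) * (θ + t)) * a x * a y) ^ 2 ≤ T ^ 2 + 2 * S * T := by
  have hN := h.N_pos
  set N := (θ - s) * (θ + t) with hNdef
  have hθ := h.theta_pos
  have ht := h.ht
  have hs := h.hs
  have e1 : ∑ y, ((if G.Adj x y then (1:ℝ) else 0) - θ / N * a x * a y) ^ 2
      = (∑ y, (if G.Adj x y then (1:ℝ) else 0)) - 2 * (θ / N * a x) * (∑ y, (if G.Adj x y then a y else 0))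
        + (θ / N * a x) ^ 2 * ∑ y, a y ^ 2 := by
    rw [Finset.mul_sum, Finset.mul_sum, ← Finset.sum_sub_distrib, ← Finset.sum_add_distrib]
    apply Finset.sum_congr rfl
    intro y _
    split_ifs <;> ring
  have e2 : (∑ y, (if G.Adj x y then (1:ℝ) else 0)) = G.degree x := by
    rw [Finset.sum_boole, ← SimpleGraph.card_neighborFinset_eq_degree]
    congr 2
    ext y; simp
  have e3 : (∑ y, (if G.Adj x y then a y else 0)) = θ * a x := by
    rw [← h.eig x, ← Finset.sum_filter]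
    apply Finset.sum_congr _ (fun _ _ => rfl)
    ext y; simp
  rw [e1, e2, e3, h.norm, ← hNdef, h.deg_eq x]
  have e4 : a x ^ 2 + s * t - 2 * (θ / N * a x) * (θ * a x) + (θ / N * a x) ^ 2 * N
      = s * t + a x ^ 2 * (1 - θ ^ 2 / N) := by
    field_simp
    ring
  rw [e4]
  have e5 : 1 - θ ^ 2 / N = ((t - s) * θ - s * t) / N := by
    field_simp
    rw [hNdef]; ring
  rw [e5]
  have hax := h.a_sq_le x
  have hax0 : 0 ≤ a x ^ 2 := sq_nonneg _
  have hs1 := abs_le.mp (le_refl |s|)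
  have hsS : |s| ≤ S := hS
  have hsS0 : 0 ≤ |s| := abs_nonneg s
  have e6 : (t - s) * θ - s * t ≤ (t + |s|) * (θ + t) := by nlinarith
  have e7 : a x ^ 2 * (((t - s) * θ - s * t) / N) ≤ t * (t + |s|) := by
    rw [← mul_div_assoc, div_le_iff₀ hN]
    rcases le_or_gt 0 ((t - s) * θ - s * t) with hc | hc
    · calc a x ^ 2 * ((t - s) * θ - s * t) ≤ (t * (θ - s)) * ((t + |s|) * (θ + t)) := by
            apply mul_le_mul hax e6 hc
            have : 0 < θ - s := by linarith
            positivity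
        _ = t * (t + |s|) * N := by rw [hNdef]; ring
    · have h1 : a x ^ 2 * ((t - s) * θ - s * t) ≤ 0 := by nlinarith
      have h2 : 0 ≤ t * (t + |s|) * N := by positivity
      linarith
  have e8 : s * t ≤ |s| * t := by nlinarith
  nlinarith

lemma row_part (h : Dat G s t θ a k1 k2) (x : V) {T S : ℝ} (hT : t ≤ T) (hS : |s| ≤ S) (W : Finset V) (p : ℝ)
    (hp : ∀ y ∈ W, θ / ((θ - s) * (θ + t)) * a x * a y = p) :
    ((nb G x W).card : ℝ) * (1 - p) ^ 2 + ((W.card : ℝ) - (nb G x W).card) * p ^ 2 ≤ T ^ 2 + 2 * S * T := by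
  refine le_trans ?_ (h.row_total x hT hS)
  have h1 : ∑ y ∈ W, ((if G.Adj x y then (1:ℝ) else 0) - θ / ((θ - s) * (θ + t)) * a x * a y) ^ 2
      ≤ ∑ y, ((if G.Adj x y then (1:ℝ) else 0) - θ / ((θ - s) * (θ + t)) * a x * a y) ^ 2 := by
    apply Finset.sum_le_sum_of_subset_of_nonneg (Finset.subset_univ _)
    intro _ _ _; positivity
  refine le_trans (le_of_eq ?_) h1
  rw [Finset.sum_congr rfl (fun y hy => by rw [hp y hy])]
  rw [← Finset.sum_filter_add_sum_filter_not W (fun y => G.Adj x y)]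
  rw [Finset.sum_congr rfl (fun y hy => by rw [if_pos (Finset.mem_filter.mp hy).2])]
  rw [Finset.sum_congr (s₁ := W.filter (fun y => ¬ G.Adj x y)) rfl (fun y hy => by rw [if_neg (Finset.mem_filter.mp hy).2])]
  rw [Finset.sum_const, Finset.sum_const, nsmul_eq_mul, nsmul_eq_mul]
  have h2 : ((W.filter (fun y => ¬ G.Adj x y)).card : ℝ) = (W.card : ℝ) - (nb G x W).card := by
    have := Finset.card_filter_add_card_filter_not (s := W) (fun y => G.Adj x y)
    unfold nb
    rw [eq_sub_iff_add_eq]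
    exact_mod_cast (by omega : (W.filter (fun y => ¬ G.Adj x y)).card + (W.filter (fun y => G.Adj x y)).card = W.card)
  rw [h2]
  unfold nb
  ring

lemma sparse (h : Dat G s t θ a k1 k2) (x : V) {T S : ℕ} (hT : t ≤ T) (hS : |s| ≤ S) (W : Finset V) (p : ℝ)
    (hp : ∀ y ∈ W, θ / ((θ - s) * (θ + t)) * a x * a y = p) (hp2 : p ≤ 1/2) :
    (nb G x W).card ≤ 4 * (T ^ 2 + 2 * S * T) := by
  have h0 := h.row_part x (T := T) (S := S) hT hS W p hp
  have h1 : (0:ℝ) ≤ (W.card : ℝ) - (nb G x W).card := by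
    have := nb_card_le (G := G) x W
    have : ((nb G x W).card : ℝ) ≤ W.card := by exact_mod_cast this
    linarith
  have h2 : (1:ℝ)/4 ≤ (1 - p) ^ 2 := by nlinarith
  have h3 : (0:ℝ) ≤ (nb G x W).card := Nat.cast_nonneg _
  have h4 : ((nb G x W).card : ℝ) * (1/4) ≤ T ^ 2 + 2 * S * T := by
    have := mul_le_mul_of_nonneg_left h2 h3
    have := mul_nonneg h1 (sq_nonneg p)
    linarith
  have h5 : ((nb G x W).card : ℝ) ≤ 4 * (T ^ 2 + 2 * S * T) := by linarith
  exact_mod_cast h5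

lemma dense (h : Dat G s t θ a k1 k2) (x : V) {T S : ℕ} (hT : t ≤ T) (hS : |s| ≤ S) (W : Finset V) (p : ℝ)
    (hp : ∀ y ∈ W, θ / ((θ - s) * (θ + t)) * a x * a y = p) (hp2 : 1/2 ≤ p) :
    W.card ≤ (nb G x W).card + 4 * (T ^ 2 + 2 * S * T) := by
  have h0 := h.row_part x (T := T) (S := S) hT hS W p hp
  have h1 : (0:ℝ) ≤ (W.card : ℝ) - (nb G x W).card := by
    have := nb_card_le (G := G) x W
    have : ((nb G x W).card : ℝ) ≤ W.card := by exact_mod_cast this
    linarith
  have h2 : (1:ℝ)/4 ≤ p ^ 2 := by nlinarith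
  have h3 : (0:ℝ) ≤ (nb G x W).card := Nat.cast_nonneg _
  have h4 : ((W.card : ℝ) - (nb G x W).card) * (1/4) ≤ T ^ 2 + 2 * S * T := by
    have := mul_le_mul_of_nonneg_left h2 h1
    have := mul_nonneg h3 (sq_nonneg (1 - p))
    linarith
  have h5 : (W.card : ℝ) ≤ (nb G x W).card + 4 * (T ^ 2 + 2 * S * T) := by linarith
  exact_mod_cast h5

lemma deg_le_theta_sq (h : Dat G s t θ a k1 k2) (x : V) : (G.degree x : ℝ) ≤ θ ^ 2 := by
  have hθ := h.theta_pos
  have h1 : ∀ y ∈ G.neighborFinset x, a x ≤ θ * a y := by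
    intro y hy
    rw [← h.eig y]
    apply Finset.single_le_sum (f := a) (fun z _ => (h.pos z).le)
    rw [SimpleGraph.mem_neighborFinset] at hy ⊢
    exact hy.symm
  have h2 : (G.degree x : ℝ) * a x ≤ θ ^ 2 * a x := by
    calc (G.degree x : ℝ) * a x = ∑ _y ∈ G.neighborFinset x, a x := by
          rw [Finset.sum_const, SimpleGraph.card_neighborFinset_eq_degree, nsmul_eq_mul]
      _ ≤ ∑ y ∈ G.neighborFinset x, θ * a y := Finset.sum_le_sum h1
      _ = θ ^ 2 * a x := by rw [← Finset.mul_sum, h.eig x]; ring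
  exact le_of_mul_le_mul_right h2 (h.pos x)

lemma miss_univ (x : V) : (miss G x univ).card + G.degree x + 1 = Fintype.card V := by
  have h1 := nb_add_miss (G := G) (z := x) (Q := univ.erase x) (by simp)
  have h2 : (nb G x (univ.erase x)).card = G.degree x := by
    rw [← SimpleGraph.card_neighborFinset_eq_degree]
    congr 1
    ext y
    simp only [mem_nb, Finset.mem_erase, Finset.mem_univ, SimpleGraph.mem_neighborFinset, and_true]
    constructor
    · exact fun h => h.2
    · exact fun h => ⟨h.ne.symm, h⟩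
  have h3 : miss G x (univ.erase x) = miss G x univ := by
    ext y
    simp only [mem_miss, Finset.mem_erase, Finset.mem_univ, and_true, true_and]
    constructor
    · exact fun h => h.2
    · exact fun h => ⟨h.1, h⟩
  rw [Finset.card_erase_of_mem (Finset.mem_univ x), Finset.card_univ, h2, h3] at h1
  have : 0 < Fintype.card V := Fintype.card_pos_iff.mpr ⟨x⟩
  omega

/-- cross edges exist at every vertex of the first class -/
lemma cross_pos (h : Dat G s t θ a k1 k2) {x : V} (hx : G.degree x = k1) : 1 ≤ (nb G x (V1 G k2)).card := by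
  obtain ⟨x0, y0, hadj, hx0, hy0⟩ := h.conn
  rw [(h.equit (hx.trans hx0.symm)).2]
  apply Finset.card_pos.mpr
  exact ⟨y0, mem_nb.mpr ⟨mem_V1.mpr hy0, hadj⟩⟩

end Dat

lemma aux_ineq {n m C : ℝ} (hC : 0 ≤ C) (hn : C + 1 ≤ n) (h : (n + m - C) * (n - C) ≤ (n + C) ^ 2) :
    m ≤ 4 * C + 4 * C ^ 2 := by
  by_contra hcon
  push Not at hcon
  have b6 : (n - C) * (m - 4 * C) ≤ 4 * C ^ 2 := by nlinarith
  have b7 : (1:ℝ) * (m - 4 * C) ≤ (n - C) * (m - 4 * C) := by
    apply mul_le_mul_of_nonneg_right (by linarith)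
    nlinarith [sq_nonneg C]
  linarith

open Dat in
theorem small_s (T S : ℕ) : ∃ N : ℕ, ∀ (V : Type) [Fintype V] [DecidableEq V] (G : SimpleGraph V)
    [DecidableRel G.Adj] (s t θ : ℝ) (a : V → ℝ) (k1 k2 : ℕ), Dat G s t θ a k1 k2 → t ≤ T → |s| ≤ S →
    Fintype.card V ≤ N := by
  set H : ℕ := 4 * (T ^ 2 + 2 * S * T) with hH
  set C1 : ℕ := 2 * H + S * T + S + T with hC1
  set D1 : ℕ := 2 * H with hD1
  set D2 : ℕ := 2 * H + 4 * C1 + 4 * C1 ^ 2 with hD2
  set n2b : ℕ := 1 + H + 2 * H * H with hn2b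
  set K : ℕ := (2 * (2 * C1 + 1 + H + S + T) + S) ^ 2 with hK
  refine ⟨(D1 ^ 2 + 2 * D1 + 2) + (D2 ^ 2 + 2 * D2 + 2) + n2b * (1 + H) + (1 + K + K * K), ?_⟩
  intro V _ _ G _ s t θ a k1 k2 h hT hS
  obtain ⟨α, β, hβ0, hαβ, hα, hβ, hk1, hk2⟩ := h.alpha_beta
  have hN := h.N_pos
  have hθ := h.theta_pos
  have ht := h.ht
  set c := θ / ((θ - s) * (θ + t)) with hc
  have hc0 : 0 < c := div_pos hθ hN
  have e11 : ∀ x ∈ V1 G k1, ∀ y ∈ V1 G k1, c * a x * a y = c * α * α := by
    intro x hx y hy; rw [hα x (mem_V1.mp hx), hα y (mem_V1.mp hy)]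
  have e12 : ∀ x ∈ V1 G k1, ∀ y ∈ V1 G k2, c * a x * a y = c * α * β := by
    intro x hx y hy; rw [hα x (mem_V1.mp hx), hβ y (mem_V1.mp hy)]
  have e21 : ∀ x ∈ V1 G k2, ∀ y ∈ V1 G k1, c * a x * a y = c * α * β := by
    intro x hx y hy; rw [hβ x (mem_V1.mp hx), hα y (mem_V1.mp hy)]; ring
  have e22 : ∀ x ∈ V1 G k2, ∀ y ∈ V1 G k2, c * a x * a y = c * β * β := by
    intro x hx y hy; rw [hβ x (mem_V1.mp hx), hβ y (mem_V1.mp hy)]
  have o1 : c * β * β ≤ c * α * β := by
    apply mul_le_mul_of_nonneg_right _ hβ0.le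
    exact mul_le_mul_of_nonneg_left hαβ.le hc0.le
  have o2 : c * α * β ≤ c * α * α := by
    apply mul_le_mul_of_nonneg_left hαβ.le
    have : 0 < α := by linarith
    positivity
  have hcard := h.card_add
  obtain ⟨x1, hx1⟩ := h.h1
  obtain ⟨x2, hx2⟩ := h.h2
  by_cases hp22 : 1/2 ≤ c * β * β
  · -- complement bounded
    have hD : ∀ x, (miss G x univ).card ≤ D1 := by
      intro x
      have hm := miss_univ (G := G) x
      have hnb := h.nb_add x
      rcases h.hdeg x with hx | hx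
      · have i1 := h.dense x hT hS (V1 G k1) _ (fun y hy => e11 x (mem_V1.mpr hx) y hy) (by linarith)
        have i2 := h.dense x hT hS (V1 G k2) _ (fun y hy => e12 x (mem_V1.mpr hx) y hy) (by linarith)
        omega
      · have i1 := h.dense x hT hS (V1 G k1) _ (fun y hy => e21 x (mem_V1.mpr hx) y hy) (by linarith)
        have i2 := h.dense x hT hS (V1 G k2) _ (fun y hy => e22 x (mem_V1.mpr hx) y hy) (by linarith)
        omega
    have := h.compl_bounded D1 hD
    omega
  push Not at hp22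
  have s22 : ∀ y ∈ V1 G k2, (nb G y (V1 G k2)).card ≤ H := fun y hy =>
    h.sparse y hT hS (V1 G k2) _ (fun z hz => e22 y hy z hz) hp22.le
  by_cases hp12 : c * α * β ≤ 1/2
  · -- sparse cross
    have s21 : ∀ y ∈ V1 G k2, (nb G y (V1 G k1)).card ≤ H := fun y hy =>
      h.sparse y hT hS (V1 G k1) _ (fun z hz => e21 y hy z hz) hp12
    have s12 : ∀ x ∈ V1 G k1, (nb G x (V1 G k2)).card ≤ H := fun y hy =>
      h.sparse y hT hS (V1 G k2) _ (fun z hz => e12 y hy z hz) hp12
    have hall : ∀ z, (nb G z (V1 G k2)).card ≤ H := by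
      intro z
      rcases h.hdeg z with hz | hz
      · exact s12 z (mem_V1.mpr hz)
      · exact s22 z (mem_V1.mpr hz)
    have hn2 : (V1 G k2).card ≤ n2b := by
      have hsub : V1 G k2 ⊆ ({x2} ∪ nb G x2 (V1 G k2)) ∪ (G.neighborFinset x2).biUnion (fun z => nb G z (V1 G k2)) := by
        intro y hy
        by_cases hxy : y = x2
        · simp [hxy]
        by_cases hadj : G.Adj x2 y
        · simp only [Finset.mem_union, mem_nb]
          left; right; exact ⟨hy, hadj⟩
        · obtain ⟨z, hz1, hz2⟩ := h.diam (fun h => hxy h.symm) hadj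
          simp only [Finset.mem_union, Finset.mem_biUnion, SimpleGraph.mem_neighborFinset, mem_nb]
          right; exact ⟨z, hz1, hy, hz2⟩
      have i1 := Finset.card_le_card hsub
      have i2 := Finset.card_union_le ({x2} ∪ nb G x2 (V1 G k2)) ((G.neighborFinset x2).biUnion (fun z => nb G z (V1 G k2)))
      have i3 := Finset.card_union_le {x2} (nb G x2 (V1 G k2))
      rw [Finset.card_singleton] at i3
      have i4 : ((G.neighborFinset x2).biUnion (fun z => nb G z (V1 G k2))).card ≤ (G.neighborFinset x2).card * H :=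
        Finset.card_biUnion_le_card_mul _ _ _ (fun z _ => hall z)
      rw [SimpleGraph.card_neighborFinset_eq_degree] at i4
      have i5 := h.nb_add x2
      have i6 := s21 x2 (mem_V1.mpr hx2)
      have i7 := s22 x2 (mem_V1.mpr hx2)
      have i8 : G.degree x2 * H ≤ 2 * H * H := Nat.mul_le_mul_right _ (by omega)
      omega
    have hn1 : (V1 G k1).card ≤ (V1 G k2).card * H := by
      calc (V1 G k1).card = ∑ x ∈ V1 G k1, 1 := by simp
        _ ≤ ∑ x ∈ V1 G k1, (nb G x (V1 G k2)).card := Finset.sum_le_sum (fun x hx => h.cross_pos (mem_V1.mp hx))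
        _ = ∑ y ∈ V1 G k2, (nb G y (V1 G k1)).card := double _ _
        _ ≤ ∑ y ∈ V1 G k2, H := Finset.sum_le_sum (fun y hy => s21 y hy)
        _ = (V1 G k2).card * H := by simp
    have : Fintype.card V ≤ n2b * (1 + H) := by nlinarith
    omega
  · push Not at hp12
    have hα0 : 0 < α := by linarith
    have hp11 : 1/2 ≤ c * α * α := by linarith
    have d11 := h.dense x1 hT hS (V1 G k1) _ (fun y hy => e11 x1 (mem_V1.mpr hx1) y hy) hp11
    have d12 := h.dense x1 hT hS (V1 G k2) _ (fun y hy => e12 x1 (mem_V1.mpr hx1) y hy) hp12.le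
    have d21 := h.dense x2 hT hS (V1 G k1) _ (fun y hy => e21 x2 (mem_V1.mpr hx2) y hy) hp12.le
    have d22 := s22 x2 (mem_V1.mpr hx2)
    have a1 := h.nb_add x1
    have a2 := h.nb_add x2
    rw [hx1] at a1
    rw [hx2] at a2
    set n1 := (V1 G k1).card with hn1
    set n2 := (V1 G k2).card with hn2
    have k2le : k2 ≤ n1 + H := by
      have := nb_card_le (G := G) x2 (V1 G k1)
      omega
    have k2ge : n1 ≤ k2 + H := by omega
    have k1ge : n1 + n2 ≤ k1 + 2 * H := by omega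
    have hcn : (cn G x1 x2 : ℝ) ≤ n1 + H := by
      have h1 := cn_le (G := G) x1 x2
      rw [hx2] at h1
      exact_mod_cast h1.trans k2le
    have hne12 : x1 ≠ x2 := by
      rintro rfl
      rw [hx1] at hx2
      have := h.hk
      omega
    have hsS := abs_le.mp hS
    have hαβle : α * β ≤ n1 + H + S + T := by
      by_cases hadj : G.Adj x1 x2
      · have := h.cn_adj hadj
        rw [hα x1 hx1, hβ x2 hx2] at this
        linarith
      · have := h.cn_nadj hne12 hadj
        rw [hα x1 hx1, hβ x2 hx2] at this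
        have : (0:ℝ) ≤ S := Nat.cast_nonneg _
        linarith
    have hst : |s * t| ≤ S * T := by
      rw [abs_mul, abs_of_pos ht]
      exact mul_le_mul hS hT ht.le (Nat.cast_nonneg _)
    have hst' := abs_le.mp hst
    by_cases hsmall : n1 ≤ 2 * C1 + 1
    · -- θ bounded
      have hs' : (n1 : ℝ) ≤ 2 * C1 + 1 := by exact_mod_cast hsmall
      have h1 : θ - s ≤ 2 * (α * β) := by
        have h2 : 1/2 < c * α * β := hp12
        rw [hc, div_mul_eq_mul_div, div_mul_eq_mul_div, lt_div_iff₀ hN] at h2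
        have h3 : (θ - s) * θ ≤ (θ - s) * (θ + t) := by
          apply mul_le_mul_of_nonneg_left (by linarith)
          have := h.hs
          linarith
        have h4 : (θ - s) * θ ≤ 2 * (α * β) * θ := by nlinarith
        exact le_of_mul_le_mul_right h4 hθ
      have h5 : θ ≤ 2 * (2 * C1 + 1 + H + S + T) + S := by linarith
      have h6 : (k1 : ℝ) ≤ K := by
        have h7 := h.deg_le_theta_sq x1
        rw [hx1] at h7
        have h8 : θ ^ 2 ≤ (2 * (2 * C1 + 1 + H + S + T) + S : ℝ) ^ 2 := pow_le_pow_left₀ hθ.le h5 2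
        rw [hK]; push_cast; linarith
      have h7 : k1 ≤ K := by exact_mod_cast h6
      have h8 := h.card_le_of_deg
      have h9 : k1 * k1 ≤ K * K := Nat.mul_le_mul h7 h7
      omega
    · push Not at hsmall
      have hs' : (2 * C1 + 1 : ℝ) < n1 := by exact_mod_cast hsmall
      have hC1r : (C1 : ℝ) = 2 * H + S * T + S + T := by rw [hC1, hD1]; push_cast; ring
      have hH0 : (0:ℝ) ≤ H := Nat.cast_nonneg _
      have hS0 : (0:ℝ) ≤ S := Nat.cast_nonneg _
      have hT0 : (0:ℝ) ≤ T := Nat.cast_nonneg _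
      have hST0 : (0:ℝ) ≤ S * T := by positivity
      have hC10 : (0:ℝ) ≤ C1 := Nat.cast_nonneg _
      have b1 : (n1 : ℝ) + n2 - C1 ≤ α ^ 2 := by
        have : ((n1:ℝ) + n2) ≤ k1 + 2 * H := by exact_mod_cast k1ge
        linarith
      have b2 : (n1 : ℝ) - C1 ≤ β ^ 2 := by
        have : (n1:ℝ) ≤ k2 + H := by exact_mod_cast k2ge
        linarith
      have b3 : α * β ≤ n1 + C1 := by linarith
      have hn20 : (0:ℝ) ≤ n2 := Nat.cast_nonneg _
      have b4 : ((n1 : ℝ) + n2 - C1) * (n1 - C1) ≤ (n1 + C1) ^ 2 := by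
        calc ((n1 : ℝ) + n2 - C1) * (n1 - C1) ≤ α ^ 2 * β ^ 2 := by
              apply mul_le_mul b1 b2 (by linarith) (sq_nonneg _)
          _ = (α * β) ^ 2 := by ring
          _ ≤ (n1 + C1) ^ 2 := pow_le_pow_left₀ (by positivity) b3 2
      have b5 : (n2 : ℝ) ≤ 4 * C1 + 4 * C1 ^ 2 := aux_ineq hC10 (by linarith) b4
      have b8 : n2 ≤ 4 * C1 + 4 * C1 ^ 2 := by exact_mod_cast b5
      have hD : ∀ x, (miss G x univ).card ≤ D2 := by
        intro x
        have hm := miss_univ (G := G) x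
        rcases h.hdeg x with hx | hx <;> omega
      have := h.compl_bounded D2 hD
      omega

end Pool.Agent.H72.Bireg
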