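import Pool.Agent.H72.BiregD

set_option autoImplicit false
set_option linter.unusedSectionVars false

open Finset Matrix

namespace Pool.Agent.H72.Bireg

variable {V : Type} [Fintype V] [DecidableEq V] {G : SimpleGraph V} [DecidableRel G.Adj]

/-- line structure -/
structure LS (G : SimpleGraph V) [DecidableRel G.Adj] (T C q R : ℕ) (LL : Finset (Finset V)) : Prop where
  big : ∀ L ∈ LL, q ≤ L.card
  inter : ∀ L ∈ LL, ∀ L' ∈ LL, L ≠ L' → (L ∩ L').card ≤ C
  miss : ∀ L ∈ LL, ∀ z ∈ L, (miss G z L).card ≤ C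
  thr : ∀ z, (LL.filter (fun L => z ∈ L)).card ≤ T ^ 2
  join : ∀ x y, R ≤ cn G x y → ∃ L ∈ LL, x ∈ L ∧ y ∈ L
  out : ∀ L ∈ LL, ∀ z, z ∉ L → (nb G z L).card ≤ C

theorem exists_LS (T : ℕ) (hT : 0 < T) : ∃ C : ℕ, ∀ q ≥ q2 T, ∃ R : ℕ, 1 ≤ R ∧
    ∀ (V : Type) [Fintype V] [DecidableEq V] (G : SimpleGraph V) [DecidableRel G.Adj], PSD G (T:ℝ) →
    ∃ LL : Finset (Finset V), LS G T C q R LL := by
  obtain ⟨C, hC⟩ := exists_lines T hT
  refine ⟨C, fun q hq => ?_⟩
  obtain ⟨R, hR⟩ := hC q hq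
  refine ⟨R + 1, by omega, ?_⟩
  intro V _ _ G _ hpsd
  obtain ⟨LL, h1, h2, h3, h4, h5, h6⟩ := hR V G hpsd
  exact ⟨LL, ⟨h1, h2, h3, h4, fun x y hxy => h5 x y (by unfold cn at hxy; omega), h6⟩⟩

lemma PSD_mono {t T : ℝ} (h : t ≤ T) (hp : PSD G t) : PSD G T := by
  intro u
  have h1 := hp u
  unfold qf at h1 ⊢
  have h2 : 0 ≤ u ⬝ᵥ u := by
    unfold dotProduct
    exact Finset.sum_nonneg (fun x _ => mul_self_nonneg _)
  nlinarith

namespace LS

variable {T C q R : ℕ} {LL : Finset (Finset V)}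

lemma cover (h : LS G T C q R LL) {x : V} {L : Finset V} (hL : L ∈ LL) (hx : x ∉ L) (W : Finset V) (hW : W ⊆ L)
    (hj : ∀ w ∈ W, ∃ L' ∈ LL, x ∈ L' ∧ w ∈ L') : W.card ≤ T ^ 2 * C := by
  have hsub : W ⊆ (LL.filter (fun L' => x ∈ L')).biUnion (fun L' => L ∩ L') := by
    intro w hw
    obtain ⟨L', hL', hxL', hwL'⟩ := hj w hw
    simp only [Finset.mem_biUnion, Finset.mem_filter, Finset.mem_inter]
    exact ⟨L', ⟨hL', hxL'⟩, hW hw, hwL'⟩
  refine (Finset.card_le_card hsub).trans ?_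
  refine le_trans ?_ (Nat.mul_le_mul_right C (h.thr x))
  apply Finset.card_biUnion_le_card_mul
  intro L' hL'
  rw [Finset.mem_filter] at hL'
  apply h.inter L hL L' hL'.1
  rintro rfl
  exact hx hL'.2

end LS

namespace Dat

variable {s t θ : ℝ} {a : V → ℝ} {k1 k2 : ℕ}

lemma two_le_sq (h : Dat G s t θ a k1 k2) : 2 ≤ t ^ 2 := by
  obtain ⟨x2, hx2⟩ := h.h2
  have h1 := miss_univ (G := G) x2
  have h2 := h.k1_lt
  have h3 := h.hk
  have hne : (miss G x2 univ).Nonempty := by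
    rw [← Finset.card_pos]; omega
  obtain ⟨y, hy⟩ := hne
  rw [mem_miss] at hy
  obtain ⟨z, hz1, hz2⟩ := h.diam (fun h => hy.2.1 h.symm) hy.2.2
  have := claw (G := G) h.ht h.psd z {x2, y} (by
    intro w hw
    rw [Finset.mem_insert, Finset.mem_singleton] at hw
    rcases hw with rfl | rfl
    · exact hz1.symm
    · exact hz2) (by
    intro w hw w' hw'
    rw [Finset.mem_insert, Finset.mem_singleton] at hw hw'
    rcases hw with rfl | rfl <;> rcases hw' with rfl | rfl
    · simp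
    · exact hy.2.2
    · exact fun h => hy.2.2 h.symm
    · simp)
  rw [Finset.card_pair (fun h => hy.2.1 h.symm)] at this
  exact_mod_cast this

lemma t_ge (h : Dat G s t θ a k1 k2) : 7 / 5 ≤ t := by
  have h1 := h.two_le_sq
  have h2 := h.ht
  nlinarith

lemma nb_univ_card (x : V) : (nb G x univ).card = G.degree x := by
  rw [← SimpleGraph.card_neighborFinset_eq_degree]
  congr 1
  ext y; simp [mem_nb]

lemma nb_le_degree (x : V) (S : Finset V) : (nb G x S).card ≤ G.degree x := by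
  rw [← nb_univ_card]
  apply Finset.card_le_card
  intro y hy
  rw [mem_nb] at hy ⊢
  exact ⟨Finset.mem_univ _, hy.2⟩

lemma nb_mono (x : V) {S S' : Finset V} (hS : S ⊆ S') : (nb G x S).card ≤ (nb G x S').card := by
  apply Finset.card_le_card
  intro y hy
  rw [mem_nb] at hy ⊢
  exact ⟨hS hy.1, hy.2⟩

/-- a single line covering everything -/
lemma single_line (h : Dat G s t θ a k1 k2) {T C q R : ℕ} {LL : Finset (Finset V)} (hls : LS G T C q R LL)
    {L : Finset V} (hL : L ∈ LL) (huniv : ∀ x, x ∈ L) : Fintype.card V ≤ C ^ 2 + 2 * C + 2 := by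
  apply h.compl_bounded C
  intro x
  have : L = univ := by ext y; simp [huniv y]
  rw [← this]
  exact hls.miss L hL x (huniv x)

lemma line_of_adj (h : Dat G s t θ a k1 k2) {T C q R : ℕ} {LL : Finset (Finset V)} (hls : LS G T C q R LL)
    (hT : t ≤ T) (hs : (R:ℝ) + T ≤ s) {x y : V} (hxy : G.Adj x y) : ∃ L ∈ LL, x ∈ L ∧ y ∈ L := by
  apply hls.join
  have h1 := h.cn_adj hxy
  have h2 := mul_pos (h.pos x) (h.pos y)
  have h3 : (R:ℝ) ≤ cn G x y := by rw [h1]; linarith
  exact_mod_cast h3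

lemma case1_num {s T R C x : ℝ} (hs0 : 0 < s) (hT : 0 ≤ T) (hR : 0 ≤ R) (hC : 0 ≤ C) (hs1 : 1 ≤ s)
    (hlow : s / 5 ≤ x) (hup : x ^ 2 ≤ T ^ 2 * (R + s * T + C + 1) * R)
    (hs3 : 25 * (T ^ 2 * R * (R + C + 1) + T ^ 3 * R) < s) : False := by
  have h7 : (s / 5) ^ 2 ≤ x ^ 2 := pow_le_pow_left₀ (by positivity) hlow 2
  have h9 : 0 ≤ T ^ 2 * R * (R + C + 1) := by positivity
  have h8 : T ^ 2 * (R + s * T + C + 1) * R ≤ s * (T ^ 2 * R * (R + C + 1) + T ^ 3 * R) := by
    have : T ^ 2 * (R + s * T + C + 1) * R = T ^ 2 * R * (R + C + 1) + s * (T ^ 3 * R) := by ring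
    rw [this]
    have h10 : T ^ 2 * R * (R + C + 1) ≤ s * (T ^ 2 * R * (R + C + 1)) := le_mul_of_one_le_left h9 hs1
    linarith
  have h10 : s * (25 * (T ^ 2 * R * (R + C + 1) + T ^ 3 * R)) < s * s := mul_lt_mul_of_pos_left hs3 hs0
  have h11 : (s / 5) ^ 2 = s * s / 25 := by ring
  rw [h11] at h7
  linarith

theorem case1 (h : Dat G s t θ a k1 k2) {T C q R : ℕ} {LL : Finset (Finset V)} (hls : LS G T C q R LL)
    (hT : t ≤ T) (hq : T ^ 2 * C < q) (hqC : C < q)
    (hs : (R:ℝ) + T ≤ s) (hs1 : (1:ℝ) ≤ s) (hs2 : (5:ℝ) * C ≤ s)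
    (hs3 : (25:ℝ) * (T ^ 2 * R * (R + C + 1) + T ^ 3 * R) < s) (hs4 : (T:ℝ) ^ 2 * C ^ 2 + C + 1 < s)
    (hαβ : ∀ x y, G.degree x = k1 → G.degree y = k2 → (R:ℝ) ≤ a x * a y) :
    Fintype.card V ≤ C ^ 2 + 2 * C + 2 := by
  obtain ⟨α, β, hβ0, hab, hα, hβ, hk1, hk2⟩ := h.alpha_beta
  have hα0 : 0 < α := by linarith
  obtain ⟨x1, hx1⟩ := h.h1
  obtain ⟨x2, hx2⟩ := h.h2
  have hR : (R:ℝ) ≤ α * β := by rw [← hα x1 hx1, ← hβ x2 hx2]; exact hαβ x1 x2 hx1 hx2
  have ht := h.ht
  have ht2 := h.t_ge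
  have hdegpos : ∀ x, ∃ y, G.Adj x y := by
    intro x
    have : 0 < G.degree x := by
      have h1 := h.deg_eq x
      have h2 : (0:ℝ) < G.degree x := by rw [h1]; have := h.pos x; positivity
      exact_mod_cast h2
    rw [← G.card_neighborFinset_eq_degree x] at this
    obtain ⟨y, hy⟩ := Finset.card_pos.mp this
    exact ⟨y, by simpa using hy⟩
  -- a vertex of class one is on a common line with everybody
  have huniv1 : ∀ x, G.degree x = k1 → ∀ w, ∃ L ∈ LL, x ∈ L ∧ w ∈ L := by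
    intro x hx w
    by_cases hxw : x = w
    · subst hxw
      obtain ⟨y, hy⟩ := hdegpos x
      obtain ⟨L, hL, h1, -⟩ := h.line_of_adj hls hT hs hy
      exact ⟨L, hL, h1, h1⟩
    by_cases hadj : G.Adj x w
    · exact h.line_of_adj hls hT hs hadj
    · apply hls.join
      have h1 := h.cn_nadj hxw hadj
      have h2 : (R:ℝ) ≤ cn G x w := by
        rw [h1, hα x hx]
        rcases h.hdeg w with hw | hw
        · rw [hα w hw]; nlinarith
        · rw [hβ w hw]; exact hR
      exact_mod_cast h2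
  have hmem1 : ∀ x, G.degree x = k1 → ∀ L ∈ LL, x ∈ L := by
    intro x hx L hL
    by_contra hn
    have h1 := hls.cover hL hn L (Finset.Subset.refl _) (fun w _ => huniv1 x hx w)
    have h2 := hls.big L hL
    omega
  by_cases huniq : ∀ L ∈ LL, ∀ L' ∈ LL, L = L'
  · obtain ⟨L, hL, -, -⟩ := huniv1 x1 hx1 x1
    apply h.single_line hls hL
    intro w
    obtain ⟨L', hL', -, hw⟩ := huniv1 x1 hx1 w
    rw [huniq L hL L' hL']; exact hw
  push Not at huniq
  obtain ⟨La, hLa, Lb, hLb, hne⟩ := huniq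
  have hn1 : (V1 G k1).card ≤ C := by
    refine le_trans (Finset.card_le_card ?_) (hls.inter La hLa Lb hLb hne)
    intro x hx
    rw [mem_V1] at hx
    exact Finset.mem_inter.mpr ⟨hmem1 x hx La hLa, hmem1 x hx Lb hLb⟩
  by_cases hββ : (R:ℝ) ≤ β * β
  · -- everything is universal
    have huniv2 : ∀ x w, ∃ L ∈ LL, x ∈ L ∧ w ∈ L := by
      intro x w
      rcases h.hdeg x with hx | hx
      · exact huniv1 x hx w
      rcases h.hdeg w with hw | hw
      · obtain ⟨L, hL, p1, p2⟩ := huniv1 w hw x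
        exact ⟨L, hL, p2, p1⟩
      by_cases hxw : x = w
      · subst hxw
        obtain ⟨y, hy⟩ := hdegpos x
        obtain ⟨L, hL, h1, -⟩ := h.line_of_adj hls hT hs hy
        exact ⟨L, hL, h1, h1⟩
      by_cases hadj : G.Adj x w
      · exact h.line_of_adj hls hT hs hadj
      · apply hls.join
        have h1 := h.cn_nadj hxw hadj
        have h2 : (R:ℝ) ≤ cn G x w := by
          rw [h1, hβ x hx, hβ w hw]; exact hββ
        exact_mod_cast h2
    have hmem2 : ∀ x, ∀ L ∈ LL, x ∈ L := by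
      intro x L hL
      by_contra hn
      have h1 := hls.cover hL hn L (Finset.Subset.refl _) (fun w _ => huniv2 x w)
      have h2 := hls.big L hL
      omega
    exact h.single_line hls hLa (fun x => hmem2 x La hLa)
  push Not at hββ
  exfalso
  -- lines all pass through x1
  have hLLc : LL.card ≤ T ^ 2 := by
    have : LL.filter (fun L => x1 ∈ L) = LL := Finset.filter_true_of_mem (fun L hL => hmem1 x1 hx1 L hL)
    rw [← this]; exact hls.thr x1
  have hmiss : ∀ x, G.degree x = k1 → (miss G x univ).card ≤ T ^ 2 * C := by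
    intro x hx
    have hsub : miss G x univ ⊆ LL.biUnion (fun L => miss G x L) := by
      intro w hw
      rw [mem_miss] at hw
      obtain ⟨L, hL, -, hwL⟩ := huniv1 x hx w
      rw [Finset.mem_biUnion]
      exact ⟨L, hL, mem_miss.mpr ⟨hwL, hw.2⟩⟩
    refine (Finset.card_le_card hsub).trans ((Finset.card_biUnion_le_card_mul _ _ C ?_).trans
      (Nat.mul_le_mul_right C hLLc))
    intro L hL
    exact hls.miss L hL x (hmem1 x hx L hL)
  have hcard := h.card_add
  have hst : 0 ≤ s * t := by positivity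
  have hst1 : 7/5 * s ≤ s * t := by nlinarith
  have hn2s : (T:ℝ) ^ 2 * C ^ 2 + 1 < (V1 G k2).card := by
    have h1 : (k1 : ℝ) < Fintype.card V := by exact_mod_cast h.k1_lt
    have h2 : ((V1 G k1).card : ℝ) + (V1 G k2).card = Fintype.card V := by exact_mod_cast hcard
    have h3 : ((V1 G k1).card : ℝ) ≤ C := by exact_mod_cast hn1
    nlinarith [sq_nonneg α]
  have hn2 : T ^ 2 * C ^ 2 + 1 < (V1 G k2).card := by exact_mod_cast hn2s
  -- the join
  have hjoin : (nb G x2 (V1 G k1)).card = (V1 G k1).card := by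
    have hsum : ∑ x ∈ V1 G k1, (nb G x (V1 G k2)).card = (V1 G k2).card * (nb G x2 (V1 G k1)).card := by
      rw [double (G := G) (V1 G k1) (V1 G k2), Finset.sum_congr rfl (fun y hy => (h.equit ((mem_V1.mp hy).trans hx2.symm)).1)]
      simp
    have hlow : ∀ x ∈ V1 G k1, (V1 G k2).card ≤ (nb G x (V1 G k2)).card + T ^ 2 * C := by
      intro x hx
      have hx' : x ∉ V1 G k2 := Finset.disjoint_left.mp h.disj hx
      have h1 := nb_add_miss (G := G) hx'
      have h2 := Finset.card_le_card (miss_mono (G := G) (z := x) (Finset.subset_univ (V1 G k2)))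
      have h3 := hmiss x (mem_V1.mp hx)
      omega
    have hsum2 : (V1 G k1).card * (V1 G k2).card ≤ (V1 G k2).card * (nb G x2 (V1 G k1)).card + (V1 G k1).card * (T ^ 2 * C) := by
      rw [← hsum]
      calc (V1 G k1).card * (V1 G k2).card = ∑ _x ∈ V1 G k1, (V1 G k2).card := by simp
        _ ≤ ∑ x ∈ V1 G k1, ((nb G x (V1 G k2)).card + T ^ 2 * C) := Finset.sum_le_sum hlow
        _ = _ := by rw [Finset.sum_add_distrib]; simp
    have h4 := nb_card_le (G := G) x2 (V1 G k1)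
    by_contra hne'
    have h5 : (nb G x2 (V1 G k1)).card + 1 ≤ (V1 G k1).card := by omega
    have h6 : (V1 G k1).card * (T ^ 2 * C) ≤ T ^ 2 * C ^ 2 := by
      calc (V1 G k1).card * (T ^ 2 * C) ≤ C * (T ^ 2 * C) := Nat.mul_le_mul_right _ hn1
        _ = T ^ 2 * C ^ 2 := by ring
    nlinarith
  have hall : ∀ y, G.degree y = k2 → ∀ x, G.degree x = k1 → G.Adj y x := by
    intro y hy x hx
    have h1 := (h.equit (hy.trans hx2.symm)).1
    rw [hjoin] at h1
    have h2 : nb G y (V1 G k1) = V1 G k1 := Finset.eq_of_subset_of_card_le (Finset.filter_subset _ _) h1.ge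
    have h3 : x ∈ nb G y (V1 G k1) := by rw [h2]; exact mem_V1.mpr hx
    exact (mem_nb.mp h3).2
  have hadj : G.Adj x1 x2 := (hall x2 hx2 x1 hx1).symm
  have hcn1 : (nb G x2 (V1 G k2)).card ≤ cn G x1 x2 := by
    apply Finset.card_le_card
    intro z hz
    rw [mem_nb, mem_V1] at hz
    rw [Finset.mem_inter, SimpleGraph.mem_neighborFinset, SimpleGraph.mem_neighborFinset]
    exact ⟨(hall z hz.1 x1 hx1).symm, hz.2⟩
  have hcn2 := h.cn_adj hadj
  rw [hα x1 hx1, hβ x2 hx2] at hcn2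
  have hnb := h.nb_add x2
  rw [hx2, hjoin] at hnb
  have hk2C : (k2 : ℝ) ≤ (nb G x2 (V1 G k2)).card + C := by
    exact_mod_cast (by omega : k2 ≤ (nb G x2 (V1 G k2)).card + C)
  have hcn1' : ((nb G x2 (V1 G k2)).card : ℝ) ≤ cn G x1 x2 := by exact_mod_cast hcn1
  have hlow : s / 5 ≤ α * β := by nlinarith [sq_nonneg β]
  -- upper bound
  have hLcard : ∀ L ∈ LL, L.card ≤ k2 + C + 1 := by
    intro L hL
    have h1 : ∃ y ∈ L, y ∉ V1 G k1 := by
      by_contra hcon
      push Not at hcon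
      have := Finset.card_le_card (show L ⊆ V1 G k1 from hcon)
      have := hls.big L hL
      omega
    obtain ⟨y, hyL, hy⟩ := h1
    have hy2 : G.degree y = k2 := by
      rcases h.hdeg y with h2 | h2
      · exact absurd (mem_V1.mpr h2) hy
      · exact h2
    have h3 := card_le_miss (G := G) y L
    have h4 := hls.miss L hL y hyL
    have h5 := nb_le_degree (G := G) y L
    omega
  have hn : Fintype.card V ≤ T ^ 2 * (k2 + C + 1) := by
    have hsub : (univ : Finset V) ⊆ LL.biUnion (fun L => L) := by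
      intro w _
      obtain ⟨L, hL, -, hw⟩ := huniv1 x1 hx1 w
      exact Finset.mem_biUnion.mpr ⟨L, hL, hw⟩
    have := Finset.card_le_card hsub
    rw [Finset.card_univ] at this
    refine this.trans ((Finset.card_biUnion_le_card_mul _ _ _ hLcard).trans (Nat.mul_le_mul_right _ hLLc))
  have hnr : (Fintype.card V : ℝ) ≤ (T:ℝ) ^ 2 * (k2 + C + 1) := by exact_mod_cast hn
  have hk1n : (k1 : ℝ) ≤ Fintype.card V := by exact_mod_cast h.k1_lt.le
  have hT0 : (0:ℝ) < T := by linarith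
  have hk2R : (k2 : ℝ) ≤ R + s * T := by
    have q1 : s * t ≤ s * T := mul_le_mul_of_nonneg_left hT (by linarith)
    have q2 : β ^ 2 = β * β := sq β
    rw [hk2, q2]; linarith
  have hR0 : (0:ℝ) ≤ R := Nat.cast_nonneg _
  have hC0 : (0:ℝ) ≤ C := Nat.cast_nonneg _
  have hup : (α * β) ^ 2 ≤ (T:ℝ) ^ 2 * (R + s * T + C + 1) * R := by
    calc (α * β) ^ 2 = α ^ 2 * (β * β) := by ring
      _ ≤ ((T:ℝ) ^ 2 * (R + s * T + C + 1)) * R := by
          apply mul_le_mul _ hββ.le (by positivity) (by positivity)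
          calc α ^ 2 ≤ k1 := by rw [hk1]; linarith
            _ ≤ Fintype.card V := hk1n
            _ ≤ (T:ℝ) ^ 2 * (k2 + C + 1) := hnr
            _ ≤ (T:ℝ) ^ 2 * (R + s * T + C + 1) := by
                apply mul_le_mul_of_nonneg_left _ (by positivity)
                linarith
  exact case1_num (by linarith) hT0.le hR0 hC0 hs1 hlow hup hs3

end Dat

end Pool.Agent.H72.Bireg
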