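import Pool.Agent.H72.BiregE

set_option autoImplicit false
set_option linter.unusedSectionVars false

open Finset Matrix

namespace Pool.Agent.H72.Bireg

variable {V : Type} [Fintype V] [DecidableEq V] {G : SimpleGraph V} [DecidableRel G.Adj]

namespace Dat

variable {s t θ : ℝ} {a : V → ℝ} {k1 k2 : ℕ}

theorem case2 (h : Dat G s t θ a k1 k2) {T C q R : ℕ} {LL : Finset (Finset V)} (hls : LS G T C q R LL)
    (hs : (R:ℝ) + T ≤ s) (hT : t ≤ T) (hR1 : 1 ≤ R) (hs1 : (1:ℝ) ≤ s)
    (hs2 : (T:ℝ) ^ 2 * (T ^ 2 * C) + C < 2/5 * s - 3)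
    (hαβ : ∀ x y, G.degree x = k1 → G.degree y = k2 → a x * a y < R) :
    (∀ x, a x < R) ∨ Fintype.card V ≤ C ^ 2 + 2 * C + 2 := by
  obtain ⟨α, β, hβ0, hab, hα, hβ, hk1, hk2⟩ := h.alpha_beta
  have hα0 : 0 < α := by linarith
  obtain ⟨x1, hx1⟩ := h.h1
  obtain ⟨x2, hx2⟩ := h.h2
  have hR : α * β < R := by rw [← hα x1 hx1, ← hβ x2 hx2]; exact hαβ x1 x2 hx1 hx2
  have hR1' : (1:ℝ) ≤ R := by exact_mod_cast hR1
  have ht := h.ht
  have ht2 := h.t_ge
  by_cases hαR : α < R
  · left
    intro x
    rcases h.hdeg x with hx | hx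
    · rw [hα x hx]; exact hαR
    · rw [hβ x hx]; linarith
  push Not at hαR
  have hβ1 : β < 1 := by
    by_contra hn
    push Not at hn
    nlinarith
  have hclq : ∀ y, G.degree y = k2 → ∀ y', G.degree y' = k2 → y ≠ y' → G.Adj y y' := by
    intro y hy y' hy' hne
    by_contra hn
    have h1 := h.cn_nadj hne hn
    rw [hβ y hy, hβ y' hy'] at h1
    have h2 : (0:ℝ) < cn G y y' := by rw [h1]; positivity
    have h3 : 0 < cn G y y' := by exact_mod_cast h2
    have h4 : (1:ℝ) ≤ cn G y y' := by exact_mod_cast h3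
    rw [h1] at h4
    nlinarith
  have hn2 : ((V1 G k2).card : ℝ) ≤ s + 3 := by
    by_cases hone : (V1 G k2).card ≤ 1
    · have : ((V1 G k2).card : ℝ) ≤ 1 := by exact_mod_cast hone
      linarith
    · push Not at hone
      obtain ⟨y, hy, y', hy', hne⟩ := Finset.one_lt_card.mp hone
      rw [mem_V1] at hy hy'
      have hadj := hclq y hy y' hy' hne
      have h1 := h.cn_adj hadj
      rw [hβ y hy, hβ y' hy'] at h1
      have h2 : (V1 G k2).card ≤ cn G y y' + 2 := by
        have hsub : V1 G k2 ⊆ (G.neighborFinset y ∩ G.neighborFinset y') ∪ {y, y'} := by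
          intro z hz
          rw [mem_V1] at hz
          simp only [Finset.mem_union, Finset.mem_inter, SimpleGraph.mem_neighborFinset, Finset.mem_insert,
            Finset.mem_singleton]
          by_cases hzy : z = y
          · right; left; exact hzy
          by_cases hzy' : z = y'
          · right; right; exact hzy'
          left
          exact ⟨hclq y hy z hz (fun h => hzy h.symm), hclq y' hy' z hz (fun h => hzy' h.symm)⟩
        have i1 := Finset.card_le_card hsub
        have i2 := Finset.card_union_le (G.neighborFinset y ∩ G.neighborFinset y') {y, y'}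
        have i3 : ({y, y'} : Finset V).card ≤ 2 := Finset.card_le_two
        unfold cn
        omega
      have h3 : ((V1 G k2).card : ℝ) ≤ cn G y y' + 2 := by exact_mod_cast h2
      have h4 : β * β ≤ 1 := by nlinarith
      linarith
  have hst : 7/5 * s ≤ s * t := by nlinarith
  have hd1 : (2/5 : ℝ) * s - 3 ≤ (nb G x2 (V1 G k1)).card := by
    have h1 := h.nb_add x2
    rw [hx2] at h1
    have h2 := nb_card_le (G := G) x2 (V1 G k2)
    have h3 : (k2:ℝ) ≤ (nb G x2 (V1 G k1)).card + (V1 G k2).card := by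
      exact_mod_cast (by omega : k2 ≤ (nb G x2 (V1 G k1)).card + (V1 G k2).card)
    have h4 := sq_nonneg β
    linarith
  -- pairs in V1 are on common lines
  have hdegpos : ∃ y, G.Adj x1 y := by
    have : 0 < G.degree x1 := by
      have h1 := h.deg_eq x1
      have h2 : (0:ℝ) < G.degree x1 := by rw [h1]; have := h.pos x1; positivity
      exact_mod_cast h2
    rw [← G.card_neighborFinset_eq_degree x1] at this
    obtain ⟨y, hy⟩ := Finset.card_pos.mp this
    exact ⟨y, by simpa using hy⟩
  have hpair : ∀ x, G.degree x = k1 → ∀ w, G.degree w = k1 → x ≠ w → ∃ L ∈ LL, x ∈ L ∧ w ∈ L := by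
    intro x hx w hw hxw
    by_cases hadj : G.Adj x w
    · exact h.line_of_adj hls hT hs hadj
    · apply hls.join
      have h1 := h.cn_nadj hxw hadj
      have h2 : (R:ℝ) ≤ cn G x w := by
        rw [h1, hα x hx, hα w hw]
        nlinarith
      exact_mod_cast h2
  have hpair1 : ∀ w, G.degree w = k1 → ∃ L ∈ LL, x1 ∈ L ∧ w ∈ L := by
    intro w hw
    by_cases hxw : x1 = w
    · subst hxw
      obtain ⟨y, hy⟩ := hdegpos
      obtain ⟨L, hL, h1, -⟩ := h.line_of_adj hls hT hs hy
      exact ⟨L, hL, h1, h1⟩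
    · exact hpair x1 hx1 w hw hxw
  -- a line with many points of V1
  have hbig : ∃ L ∈ LL, T ^ 2 * C < (L ∩ V1 G k1).card := by
    by_contra hcon
    push Not at hcon
    have hsub : V1 G k1 ⊆ (LL.filter (fun L => x1 ∈ L)).biUnion (fun L => L ∩ V1 G k1) := by
      intro w hw
      obtain ⟨L, hL, h1, h2⟩ := hpair1 w (mem_V1.mp hw)
      rw [Finset.mem_biUnion]
      exact ⟨L, Finset.mem_filter.mpr ⟨hL, h1⟩, Finset.mem_inter.mpr ⟨h2, hw⟩⟩
    have h1 := (Finset.card_le_card hsub).trans (Finset.card_biUnion_le_card_mul _ _ (T ^ 2 * C)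
      (fun L hL => hcon L (Finset.mem_filter.mp hL).1))
    have h2 := Nat.mul_le_mul_right (T ^ 2 * C) (hls.thr x1)
    have h3 := nb_card_le (G := G) x2 (V1 G k1)
    have h4 : ((nb G x2 (V1 G k1)).card : ℝ) ≤ (T:ℝ) ^ 2 * (T ^ 2 * C) := by
      exact_mod_cast h3.trans (h1.trans h2)
    have h5 : (0:ℝ) ≤ C := Nat.cast_nonneg _
    linarith
  obtain ⟨L, hL, hLbig⟩ := hbig
  have hV1L : ∀ x, G.degree x = k1 → x ∈ L := by
    intro x hx
    by_contra hn
    have := hls.cover hL hn (L ∩ V1 G k1) Finset.inter_subset_left (by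
      intro w hw
      rw [Finset.mem_inter, mem_V1] at hw
      apply hpair x hx w hw.2
      rintro rfl
      exact hn hw.1)
    omega
  right
  apply h.single_line hls hL
  intro y
  rcases h.hdeg y with hy | hy
  · exact hV1L y hy
  · by_contra hn
    have h1 := hls.out L hL y hn
    have h2 := nb_mono (G := G) y (show V1 G k1 ⊆ L from fun x hx => hV1L x (mem_V1.mp hx))
    have h3 := (h.equit (hy.trans hx2.symm)).1
    have h4 : ((nb G x2 (V1 G k1)).card : ℝ) ≤ C := by
      exact_mod_cast (by omega : (nb G x2 (V1 G k1)).card ≤ C)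
    have h5 : 0 ≤ (T:ℝ) ^ 2 * (T ^ 2 * C) := by positivity
    linarith

end Dat

end Pool.Agent.H72.Bireg
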