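import Pool.Agent.H72.BiregF

set_option autoImplicit false
set_option linter.unusedSectionVars false

open Finset Matrix

namespace Pool.Agent.H72.Bireg

variable {V : Type} [Fintype V] [DecidableEq V] {G : SimpleGraph V} [DecidableRel G.Adj]

namespace Dat

variable {s t θ : ℝ} {a : V → ℝ} {k1 k2 : ℕ}

lemma geo_clique (h : Dat G s t θ a k1 k2) {T C q R M : ℕ} {LL : Finset (Finset V)} (hls : LS G T C q R LL)
    (hM : ∀ x y, a x * a y < M) (hq : M + 2 * C + 2 < q) : ∀ L ∈ LL, IsClq G L := by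
  intro L hL x hx y hy hne
  by_contra hn
  have h1 := h.cn_nadj hne hn
  have h2 := hM x y
  rw [← h1] at h2
  have h3 : cn G x y < M := by exact_mod_cast h2
  have h4 := card_le_cn_add (G := G) L x y
  have h5 := card_le_miss (G := G) x L
  have h6 := card_le_miss (G := G) y L
  have h7 := hls.miss L hL x hx
  have h8 := hls.miss L hL y hy
  have h9 := hls.big L hL
  omega

lemma clq_sub_cn {L : Finset V} (hL : IsClq G L) {x y : V} (hx : x ∈ L) (hy : y ∈ L) :
    (L.erase x).erase y ⊆ G.neighborFinset x ∩ G.neighborFinset y := by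
  intro z hz
  rw [Finset.mem_erase, Finset.mem_erase] at hz
  rw [Finset.mem_inter, SimpleGraph.mem_neighborFinset, SimpleGraph.mem_neighborFinset]
  exact ⟨hL x hx z hz.2.2 hz.2.1.symm, hL y hy z hz.2.2 hz.1.symm⟩

lemma geo_size (h : Dat G s t θ a k1 k2) {T C q R M : ℕ} {LL : Finset (Finset V)} (hls : LS G T C q R LL)
    (hT : t ≤ T) (hs : (R:ℝ) + T ≤ s)
    (hM : ∀ x y, a x * a y < M) (hcl : ∀ L ∈ LL, IsClq G L) (hq2 : T ^ 2 * C + 1 < q) :
    ∀ L ∈ LL, (L.card : ℝ) ≤ s + M + 2 ∧ s ≤ L.card + (T + T ^ 4 * C) := by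
  intro L hL
  have hbig := hls.big L hL
  obtain ⟨x, hx⟩ := Finset.card_pos.mp (show 0 < L.card by omega)
  set B := ((LL.filter (fun L' => x ∈ L')).erase L).biUnion (fun L' => L ∩ L') with hB
  have hBc : B.card ≤ T ^ 2 * C := by
    refine le_trans ?_ (Nat.mul_le_mul_right C (hls.thr x))
    refine (Finset.card_biUnion_le_card_mul _ _ C ?_).trans
      (Nat.mul_le_mul_right C (Finset.card_le_card (Finset.erase_subset _ _)))
    intro L' hL'
    rw [Finset.mem_erase, Finset.mem_filter] at hL'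
    exact hls.inter L hL L' hL'.2.1 (fun h => hL'.1 h.symm)
  have hex : ∃ y ∈ L.erase x, y ∉ B := by
    by_contra hcon
    push Not at hcon
    have h1 := Finset.card_le_card (show L.erase x ⊆ B from hcon)
    rw [Finset.card_erase_of_mem hx] at h1
    omega
  obtain ⟨y, hy, hyB⟩ := hex
  rw [Finset.mem_erase] at hy
  have honly : ∀ L' ∈ LL, x ∈ L' → y ∈ L' → L' = L := by
    intro L' hL' hx' hy'
    by_contra hne
    apply hyB
    rw [hB, Finset.mem_biUnion]
    exact ⟨L', Finset.mem_erase.mpr ⟨hne, Finset.mem_filter.mpr ⟨hL', hx'⟩⟩, Finset.mem_inter.mpr ⟨hy.2, hy'⟩⟩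
  have hadj : G.Adj x y := hcl L hL x hx y hy.2 (fun h => hy.1 h.symm)
  have hcn := h.cn_adj hadj
  have hMxy := hM x y
  have hpos := mul_pos (h.pos x) (h.pos y)
  have ht := h.ht
  have hee : ((L.erase x).erase y).card = L.card - 2 := by
    rw [Finset.card_erase_of_mem (Finset.mem_erase.mpr hy), Finset.card_erase_of_mem hx]
    omega
  have hlow : L.card ≤ cn G x y + 2 := by
    have := Finset.card_le_card (clq_sub_cn (hcl L hL) hx hy.2)
    rw [hee] at this
    unfold cn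
    omega
  set B2 := (LL.filter (fun L' => x ∈ L')).biUnion (fun L' => (LL.filter (fun L'' => y ∈ L'')).biUnion
    (fun L'' => if L' = L'' then ∅ else L' ∩ L'')) with hB2
  have hB2c : B2.card ≤ T ^ 2 * (T ^ 2 * C) := by
    refine le_trans ?_ (Nat.mul_le_mul_right _ (hls.thr x))
    apply Finset.card_biUnion_le_card_mul
    intro L' hL'
    refine le_trans ?_ (Nat.mul_le_mul_right _ (hls.thr y))
    apply Finset.card_biUnion_le_card_mul
    intro L'' hL''
    rw [Finset.mem_filter] at hL' hL''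
    split_ifs with heq
    · simp
    · exact hls.inter L' hL'.1 L'' hL''.1 heq
  have hup : cn G x y ≤ (L.card - 2) + T ^ 2 * (T ^ 2 * C) := by
    rw [← hee]
    refine le_trans ?_ (Nat.add_le_add_left hB2c _)
    refine le_trans (Finset.card_le_card ?_) (Finset.card_union_le _ _)
    intro z hz
    rw [Finset.mem_inter, SimpleGraph.mem_neighborFinset, SimpleGraph.mem_neighborFinset] at hz
    by_cases hzL : z ∈ L
    · rw [Finset.mem_union]; left
      rw [Finset.mem_erase, Finset.mem_erase]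
      exact ⟨hz.2.ne.symm, hz.1.ne.symm, hzL⟩
    · rw [Finset.mem_union]; right
      obtain ⟨L', hL', hxL', hzL'⟩ := h.line_of_adj hls hT hs hz.1
      obtain ⟨L'', hL'', hyL'', hzL''⟩ := h.line_of_adj hls hT hs hz.2
      have hne : L' ≠ L'' := by
        rintro rfl
        have := honly L' hL' hxL' hyL''
        rw [this] at hzL'
        exact hzL hzL'
      rw [hB2, Finset.mem_biUnion]
      refine ⟨L', Finset.mem_filter.mpr ⟨hL', hxL'⟩, ?_⟩
      rw [Finset.mem_biUnion]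
      refine ⟨L'', Finset.mem_filter.mpr ⟨hL'', hyL''⟩, ?_⟩
      rw [if_neg hne]
      exact Finset.mem_inter.mpr ⟨hzL', hzL''⟩
  have hlow' : (L.card : ℝ) ≤ cn G x y + 2 := by exact_mod_cast hlow
  have hup' : (cn G x y : ℝ) ≤ L.card + T ^ 4 * C := by
    have : cn G x y ≤ L.card + T ^ 4 * C := by
      have h1 : T ^ 2 * (T ^ 2 * C) = T ^ 4 * C := by ring
      omega
    exact_mod_cast this
  constructor <;> linarith

lemma geo_inter (h : Dat G s t θ a k1 k2) {T C q R M : ℕ} {LL : Finset (Finset V)} (hls : LS G T C q R LL)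
    (hM : ∀ x y, a x * a y < M) (hcl : ∀ L ∈ LL, IsClq G L)
    (hsize : ∀ L ∈ LL, (L.card : ℝ) ≤ s + M + 2 ∧ s ≤ L.card + (T + T ^ 4 * C))
    (hs2 : (M:ℝ) + 2 + C + 2 * (T + T ^ 4 * C) < s) :
    ∀ L ∈ LL, ∀ L' ∈ LL, L ≠ L' → (L ∩ L').card ≤ 1 := by
  intro L hL L' hL' hne
  by_contra hcon
  push Not at hcon
  obtain ⟨x, hx, y, hy, hxy⟩ := Finset.one_lt_card.mp hcon
  rw [Finset.mem_inter] at hx hy
  have hadj : G.Adj x y := hcl L hL x hx.1 y hy.1 hxy
  have hcn := h.cn_adj hadj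
  have hMxy := hM x y
  have ht := h.ht
  have hsub : ((L ∪ L').erase x).erase y ⊆ G.neighborFinset x ∩ G.neighborFinset y := by
    intro z hz
    rw [Finset.mem_erase, Finset.mem_erase, Finset.mem_union] at hz
    rcases hz.2.2 with hz' | hz'
    · exact clq_sub_cn (hcl L hL) hx.1 hy.1 (by
        rw [Finset.mem_erase, Finset.mem_erase]; exact ⟨hz.1, hz.2.1, hz'⟩)
    · exact clq_sub_cn (hcl L' hL') hx.2 hy.2 (by
        rw [Finset.mem_erase, Finset.mem_erase]; exact ⟨hz.1, hz.2.1, hz'⟩)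
  have h1 := Finset.card_le_card hsub
  rw [Finset.card_erase_of_mem (Finset.mem_erase.mpr ⟨hxy.symm, Finset.mem_union_left _ hy.1⟩),
    Finset.card_erase_of_mem (Finset.mem_union_left _ hx.1)] at h1
  have h2 := Finset.card_union_add_card_inter L L'
  have h3 := hls.inter L hL L' hL' hne
  have h4 : L.card + L'.card ≤ cn G x y + 2 + C := by
    unfold cn; omega
  have h5 : (L.card : ℝ) + L'.card ≤ cn G x y + 2 + C := by exact_mod_cast h4
  have h6 := (hsize L hL).2
  have h7 := (hsize L' hL').2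
  linarith

/-- summing over the lines through a point -/
lemma geo_sum (h : Dat G s t θ a k1 k2) {T C q R : ℕ} {LL : Finset (Finset V)} (hls : LS G T C q R LL)
    (hT : t ≤ T) (hs : (R:ℝ) + T ≤ s) (hcl : ∀ L ∈ LL, IsClq G L)
    (hint : ∀ L ∈ LL, ∀ L' ∈ LL, L ≠ L' → (L ∩ L').card ≤ 1) (u : V → ℝ) (x : V) :
    ∑ L ∈ LL.filter (fun L => x ∈ L), ∑ y ∈ L, u y =
      ((LL.filter (fun L => x ∈ L)).card : ℝ) * u x + ∑ y ∈ G.neighborFinset x, u y := by
  have h1 : G.neighborFinset x = (LL.filter (fun L => x ∈ L)).biUnion (fun L => L.erase x) := by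
    ext y
    rw [SimpleGraph.mem_neighborFinset, Finset.mem_biUnion]
    constructor
    · intro hxy
      obtain ⟨L, hL, hx, hy⟩ := h.line_of_adj hls hT hs hxy
      exact ⟨L, Finset.mem_filter.mpr ⟨hL, hx⟩, Finset.mem_erase.mpr ⟨hxy.ne.symm, hy⟩⟩
    · rintro ⟨L, hL, hy⟩
      rw [Finset.mem_filter] at hL
      rw [Finset.mem_erase] at hy
      exact hcl L hL.1 x hL.2 y hy.2 (fun h => hy.1 h.symm)
  rw [h1, Finset.sum_biUnion]
  · rw [← nsmul_eq_mul, ← Finset.sum_const, ← Finset.sum_add_distrib]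
    apply Finset.sum_congr rfl
    intro L hL
    rw [Finset.mem_filter] at hL
    rw [Finset.add_sum_erase L u hL.2]
  · intro L hL L' hL' hne
    rw [Function.onFun, Finset.disjoint_left]
    intro y hy hy'
    rw [Finset.mem_coe, Finset.mem_filter] at hL hL'
    rw [Finset.mem_erase] at hy hy'
    have := hint L hL.1 L' hL'.1 hne
    have h2 : 1 < (L ∩ L').card := Finset.one_lt_card.mpr
      ⟨x, Finset.mem_inter.mpr ⟨hL.2, hL'.2⟩, y, Finset.mem_inter.mpr ⟨hy.2, hy'.2⟩, fun h => hy.1 h.symm⟩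
    omega

/-- the number of lines through a point is constant -/
lemma geo_tau (h : Dat G s t θ a k1 k2) {T C q R M : ℕ} {LL : Finset (Finset V)} (hls : LS G T C q R LL)
    (hT : t ≤ T) (hs : (R:ℝ) + T ≤ s) (hM : ∀ x y, a x * a y < M) (hcl : ∀ L ∈ LL, IsClq G L)
    (hsize : ∀ L ∈ LL, (L.card : ℝ) ≤ s + M + 2 ∧ s ≤ L.card + (T + T ^ 4 * C))
    (hint : ∀ L ∈ LL, ∀ L' ∈ LL, L ≠ L' → (L ∩ L').card ≤ 1)
    (hs3 : 2 * ((T:ℝ) ^ 2 * (1 + (T + T ^ 4 * C)) + M + T ^ 2 * (M + 2)) < s) (x y : V) :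
    (LL.filter (fun L => x ∈ L)).card = (LL.filter (fun L => y ∈ L)).card := by
  have key : ∀ x : V, |((LL.filter (fun L => x ∈ L)).card : ℝ) - t| < 1/2 := by
    intro x
    set τ : ℝ := ((LL.filter (fun L => x ∈ L)).card : ℝ) with hτ
    have h0 := h.geo_sum hls hT hs hcl hint (fun _ => 1) x
    simp only [Finset.sum_const, nsmul_eq_mul, mul_one] at h0
    rw [SimpleGraph.card_neighborFinset_eq_degree, h.deg_eq x, ← hτ] at h0
    have h1 : τ * (s - (T + T ^ 4 * C)) ≤ ∑ L ∈ LL.filter (fun L => x ∈ L), (L.card : ℝ) := by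
      rw [hτ, ← nsmul_eq_mul]
      apply Finset.card_nsmul_le_sum
      intro L hL
      have := (hsize L (Finset.mem_filter.mp hL).1).2
      linarith
    have h2 : ∑ L ∈ LL.filter (fun L => x ∈ L), (L.card : ℝ) ≤ τ * (s + M + 2) := by
      rw [hτ, ← nsmul_eq_mul]
      apply Finset.sum_le_card_nsmul
      intro L hL
      exact (hsize L (Finset.mem_filter.mp hL).1).1
    rw [h0] at h1 h2
    have h3 : τ ≤ (T:ℝ) ^ 2 := by rw [hτ]; exact_mod_cast hls.thr x
    have h4 : 0 ≤ τ := Nat.cast_nonneg _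
    have h5 : a x ^ 2 < M := by rw [sq]; exact hM x x
    have h6 : 0 ≤ a x ^ 2 := sq_nonneg _
    have hC0 : (0:ℝ) ≤ C := Nat.cast_nonneg _
    have hM0 : (0:ℝ) ≤ M := Nat.cast_nonneg _
    have hT0 : (0:ℝ) ≤ T := Nat.cast_nonneg _
    have hK : (0:ℝ) ≤ 1 + (T + T ^ 4 * C) := by positivity
    have h7 : (τ - t) * s ≤ T ^ 2 * (1 + (T + T ^ 4 * C)) + M := by
      have : τ * (1 + (T + T ^ 4 * C)) ≤ T ^ 2 * (1 + (T + T ^ 4 * C)) := mul_le_mul_of_nonneg_right h3 hK
      nlinarith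
    have h8 : (t - τ) * s ≤ T ^ 2 * (M + 2) := by
      have : τ * (M + 2) ≤ T ^ 2 * (M + 2) := mul_le_mul_of_nonneg_right h3 (by positivity)
      nlinarith
    have hX1 : (0:ℝ) ≤ T ^ 2 * (1 + (T + T ^ 4 * C)) := by positivity
    have hX2 : (0:ℝ) ≤ (T:ℝ) ^ 2 * (M + 2) := by positivity
    have hs0 : 0 < s := by linarith
    rw [abs_lt]
    constructor
    · by_contra hcon
      push Not at hcon
      have : 1/2 * s ≤ (t - τ) * s := mul_le_mul_of_nonneg_right (by linarith) hs0.le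
      linarith
    · by_contra hcon
      push Not at hcon
      have : 1/2 * s ≤ (τ - t) * s := mul_le_mul_of_nonneg_right (by linarith) hs0.le
      linarith
  have hx := abs_lt.mp (key x)
  have hy := abs_lt.mp (key y)
  have h1 : ((LL.filter (fun L => x ∈ L)).card : ℝ) < (LL.filter (fun L => y ∈ L)).card + 1 := by linarith
  have h2 : ((LL.filter (fun L => y ∈ L)).card : ℝ) < (LL.filter (fun L => x ∈ L)).card + 1 := by linarith
  have h3 : (LL.filter (fun L => x ∈ L)).card < (LL.filter (fun L => y ∈ L)).card + 1 := by exact_mod_cast h1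
  have h4 : (LL.filter (fun L => y ∈ L)).card < (LL.filter (fun L => x ∈ L)).card + 1 := by exact_mod_cast h2
  omega

/-- the matrix identity `(A-s)(A+t) = a aᵀ` in functional form -/
lemma sq_apply (h : Dat G s t θ a k1 k2) (u : V → ℝ) :
    G.adjMatrix ℝ *ᵥ (G.adjMatrix ℝ *ᵥ u) = (a ⬝ᵥ u) • a + (s - t) • (G.adjMatrix ℝ *ᵥ u) + (s * t) • u := by
  rw [Matrix.mulVec_mulVec]
  have h1 : G.adjMatrix ℝ * G.adjMatrix ℝ = Matrix.vecMulVec a a + (s - t) • G.adjMatrix ℝ + (s * t) • (1 : Matrix V V ℝ) := by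
    ext x y
    rw [mul_self_apply, h.mat x y]
    simp [Matrix.vecMulVec_apply, Matrix.one_apply, SimpleGraph.adjMatrix_apply]
  rw [h1, Matrix.add_mulVec, Matrix.add_mulVec, Matrix.smul_mulVec, Matrix.smul_mulVec, Matrix.one_mulVec,
    Matrix.vecMulVec_mulVec]
  congr 2
  ext x
  simp [mul_comm]

end Dat

end Pool.Agent.H72.Bireg
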