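import Pool.Agent.H72.BiregG

set_option autoImplicit false
set_option linter.unusedSectionVars false

open Finset Matrix

namespace Pool.Agent.H72.Bireg

variable {V : Type} [Fintype V] [DecidableEq V] {G : SimpleGraph V} [DecidableRel G.Adj]

lemma sum_lines (LL : Finset (Finset V)) (f : Finset V → V → ℝ) :
    ∑ L ∈ LL, ∑ x ∈ L, f L x = ∑ x, ∑ L ∈ LL.filter (fun L => x ∈ L), f L x := by
  apply Finset.sum_comm'
  intro L x
  simp [and_comm]

lemma exists_kernel (LL : Finset (Finset V)) (hc : LL.card < Fintype.card V) :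
    ∃ u : V → ℝ, u ≠ 0 ∧ ∀ L ∈ LL, ∑ x ∈ L, u x = 0 := by
  let φ : (V → ℝ) →ₗ[ℝ] (LL → ℝ) :=
    { toFun := fun u L => ∑ x ∈ L.1, u x
      map_add' := by intro u v; ext L; simp [Finset.sum_add_distrib]
      map_smul' := by intro c u; ext L; simp [Finset.mul_sum] }
  have h1 : LinearMap.ker φ ≠ ⊥ := by
    apply LinearMap.ker_ne_bot_of_finrank_lt
    rw [Module.finrank_fintype_fun_eq_card, Module.finrank_fintype_fun_eq_card, Fintype.card_coe]
    exact hc
  obtain ⟨u, hu, hne⟩ := (Submodule.ne_bot_iff _).mp h1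
  refine ⟨u, hne, ?_⟩
  intro L hL
  have := congrFun (LinearMap.mem_ker.mp hu) ⟨L, hL⟩
  simpa [φ] using this

namespace Dat

variable {s t θ : ℝ} {a : V → ℝ} {k1 k2 : ℕ}

theorem geometric (h : Dat G s t θ a k1 k2) {T C q R M : ℕ} {LL : Finset (Finset V)} (hls : LS G T C q R LL)
    (hT : t ≤ T) (hs : (R:ℝ) + T ≤ s) (hM : ∀ x y, a x * a y < M)
    (hq : M + 2 * C + 2 < q) (hq2 : T ^ 2 * C + 1 < q)
    (hs2 : (M:ℝ) + 2 + C + 2 * (T + T ^ 4 * C) < s)
    (hs3 : 2 * ((T:ℝ) ^ 2 * (1 + (T + T ^ 4 * C)) + M + T ^ 2 * (M + 2)) < s)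
    (hs4 : (T:ℝ) ^ 2 + (T + T ^ 4 * C) < s) : False := by
  have hcl := h.geo_clique hls hM hq
  have hsize := h.geo_size hls hT hs hM hcl hq2
  have hint := h.geo_inter hls hM hcl hsize hs2
  have htau := h.geo_tau hls hT hs hM hcl hsize hint hs3
  obtain ⟨x1, y1, hadj, hx1, hy1⟩ := h.conn
  set τ := (LL.filter (fun L => x1 ∈ L)).card with hτdef
  have hτ : ∀ x, (LL.filter (fun L => x ∈ L)).card = τ := fun x => htau x x1
  set A := G.adjMatrix ℝ with hA
  have hs0 : 0 < s := by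
    have : (0:ℝ) ≤ (T:ℝ) ^ 2 + (T + T ^ 4 * C) := by positivity
    linarith
  have hθ := h.theta_pos
  have ht := h.ht
  have hsum : ∀ (u : V → ℝ) (x : V), ∑ L ∈ LL.filter (fun L => x ∈ L), ∑ y ∈ L, u y = τ * u x + (A *ᵥ u) x := by
    intro u x
    rw [h.geo_sum hls hT hs hcl hint u x, hτ x, hA, SimpleGraph.adjMatrix_mulVec_apply]
  -- few lines
  have hLLc : LL.card < Fintype.card V := by
    have e1 : ∑ L ∈ LL, (L.card : ℝ) = (Fintype.card V : ℝ) * τ := by
      have := sum_lines LL (fun _ _ => (1:ℝ))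
      simp only [Finset.sum_const, nsmul_eq_mul, mul_one] at this
      rw [this, Finset.sum_congr rfl (fun x _ => by rw [hτ x])]
      simp
    have e2 : (LL.card : ℝ) * (s - (T + T ^ 4 * C)) ≤ ∑ L ∈ LL, (L.card : ℝ) := by
      rw [← nsmul_eq_mul]
      apply Finset.card_nsmul_le_sum
      intro L hL
      have := (hsize L hL).2
      linarith
    have e3 : (τ : ℝ) ≤ (T:ℝ) ^ 2 := by exact_mod_cast hls.thr x1
    have hn : (0:ℝ) < Fintype.card V := by
      have : 0 < Fintype.card V := Fintype.card_pos_iff.mpr ⟨x1⟩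
      exact_mod_cast this
    by_contra hcon
    push Not at hcon
    have e4 : (Fintype.card V : ℝ) ≤ LL.card := by exact_mod_cast hcon
    have e5 : (Fintype.card V : ℝ) * (s - (T + T ^ 4 * C)) ≤ LL.card * (s - (T + T ^ 4 * C)) := by
      apply mul_le_mul_of_nonneg_right e4
      have : (0:ℝ) ≤ (T:ℝ) ^ 2 := by positivity
      linarith
    have e6 : (Fintype.card V : ℝ) * τ ≤ Fintype.card V * (T:ℝ) ^ 2 := mul_le_mul_of_nonneg_left e3 hn.le
    have e7 : (Fintype.card V : ℝ) * (T:ℝ) ^ 2 < Fintype.card V * (s - (T + T ^ 4 * C)) :=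
      mul_lt_mul_of_pos_left (by linarith) hn
    linarith
  have haa : 0 < a ⬝ᵥ a := by rw [h.dot_a]; exact h.N_pos
  -- t = τ
  have htτ : t = τ := by
    obtain ⟨u, hu0, hu⟩ := exists_kernel LL hLLc
    have hAu : A *ᵥ u = (-(τ:ℝ)) • u := by
      ext x
      have h1 := hsum u x
      rw [Finset.sum_eq_zero (fun L hL => hu L (Finset.mem_filter.mp hL).1)] at h1
      simp only [Pi.smul_apply, smul_eq_mul]
      linarith
    have hτ0 : (0:ℝ) ≤ τ := Nat.cast_nonneg _
    have hau : a ⬝ᵥ u = 0 := by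
      have h1 : a ⬝ᵥ (A *ᵥ u) = u ⬝ᵥ (A *ᵥ a) := dot_symm a u
      rw [hAu, hA, h.mulVec_a, dotProduct_smul, dotProduct_smul, smul_eq_mul, smul_eq_mul, dotProduct_comm u a] at h1
      have h2 : (θ + τ) * (a ⬝ᵥ u) = 0 := by linarith
      rcases mul_eq_zero.mp h2 with h3 | h3
      · linarith
      · exact h3
    have h2 := h.sq_apply u
    rw [← hA, hAu, Matrix.mulVec_smul, hAu, hau, zero_smul, zero_add] at h2
    obtain ⟨x, hx⟩ := Function.ne_iff.mp hu0
    have h3 := congrFun h2 x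
    simp only [Pi.smul_apply, Pi.add_apply, smul_eq_mul] at h3
    have h4 : ((τ + s) * (τ - t)) * u x = 0 := by linear_combination h3
    rcases mul_eq_zero.mp h4 with h5 | h5
    · rcases mul_eq_zero.mp h5 with h6 | h6
      · linarith
      · linarith
    · exact absurd h5 hx
  -- the key vector
  have hkey : ∀ L ∈ LL, ∀ x ∈ L, (L.card : ℝ) - 1 - s = ((∑ y ∈ L, a y) / (θ + t)) * a x := by
    intro L hL x hx
    set γ := ∑ y ∈ L, a y with hγ
    have hΘ : 0 < θ + t := by linarith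
    set w : V → ℝ := ind L with hw
    have haw : a ⬝ᵥ w = γ := by
      rw [hw, hγ]
      unfold ind dotProduct
      simp
    set v : V → ℝ := A *ᵥ w - s • w - (γ / (θ + t)) • a with hv
    have hAv : A *ᵥ v = (-t) • v := by
      rw [hv, Matrix.mulVec_sub, Matrix.mulVec_sub, Matrix.mulVec_smul, Matrix.mulVec_smul, hA, h.sq_apply w,
        h.mulVec_a, haw]
      ext z
      simp only [Pi.smul_apply, Pi.add_apply, Pi.sub_apply, smul_eq_mul]
      field_simp
      ring
    -- sums over lines vanish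
    have hzero : ∀ z, ∑ L' ∈ LL.filter (fun L' => z ∈ L'), ∑ y ∈ L', v y = 0 := by
      intro z
      rw [hsum v z, hAv, htτ]
      simp
    have hsq : ∑ L' ∈ LL, (∑ y ∈ L', v y) ^ 2 = 0 := by
      have h1 : ∑ L' ∈ LL, (∑ y ∈ L', v y) ^ 2 = ∑ L' ∈ LL, ∑ z ∈ L', v z * (∑ y ∈ L', v y) := by
        apply Finset.sum_congr rfl
        intro L' _
        rw [← Finset.sum_mul, sq]
      rw [h1, sum_lines LL (fun L' z => v z * (∑ y ∈ L', v y))]
      apply Finset.sum_eq_zero
      intro z _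
      rw [← Finset.mul_sum, hzero z, mul_zero]
    have hLv : ∀ L' ∈ LL, ∑ y ∈ L', v y = 0 := by
      intro L' hL'
      have h1 := (Finset.sum_eq_zero_iff_of_nonneg (fun L' _ => sq_nonneg (∑ y ∈ L', v y))).mp hsq L' hL'
      exact pow_eq_zero_iff (two_ne_zero) |>.mp h1
    have hvw : v ⬝ᵥ w = 0 := by
      rw [hw, ← hLv L hL]
      unfold ind dotProduct
      simp
    have hva : v ⬝ᵥ a = 0 := by
      have h1 : v ⬝ᵥ (A *ᵥ a) = a ⬝ᵥ (A *ᵥ v) := dot_symm v a
      rw [hAv, hA, h.mulVec_a, dotProduct_smul, dotProduct_smul, smul_eq_mul, smul_eq_mul, dotProduct_comm a v] at h1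
      have h2 : (θ + t) * (v ⬝ᵥ a) = 0 := by linarith
      rcases mul_eq_zero.mp h2 with h3 | h3
      · linarith
      · exact h3
    have hvAw : v ⬝ᵥ (A *ᵥ w) = 0 := by
      rw [dot_symm v w, ← hA, hAv, dotProduct_smul, dotProduct_comm, hvw, smul_zero]
    have hvv : v ⬝ᵥ v = 0 := by
      have : v ⬝ᵥ v = v ⬝ᵥ (A *ᵥ w - s • w - (γ / (θ + t)) • a) := by rw [← hv]
      rw [this, dotProduct_sub, dotProduct_sub, dotProduct_smul, dotProduct_smul, hvAw, hvw, hva]
      simp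
    have hv0 : v = 0 := dotProduct_self_eq_zero.mp hvv
    have h1 := congrFun hv0 x
    rw [hv] at h1
    simp only [Pi.smul_apply, Pi.sub_apply, smul_eq_mul, Pi.zero_apply] at h1
    have h2 : (A *ᵥ w) x = (L.card : ℝ) - 1 := by
      rw [hA, SimpleGraph.adjMatrix_mulVec_apply, hw]
      unfold ind
      rw [← Finset.sum_filter, Finset.sum_const, nsmul_eq_mul, mul_one]
      have h3 : (G.neighborFinset x).filter (fun y => y ∈ L) = L.erase x := by
        ext y
        rw [Finset.mem_filter, SimpleGraph.mem_neighborFinset, Finset.mem_erase]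
        constructor
        · rintro ⟨h4, h5⟩; exact ⟨h4.ne.symm, h5⟩
        · rintro ⟨h4, h5⟩; exact ⟨hcl L hL x hx y h5 (fun h => h4 h.symm), h5⟩
      rw [h3, Finset.card_erase_of_mem hx]
      have : 1 ≤ L.card := Finset.card_pos.mpr ⟨x, hx⟩
      push_cast [this]
      ring
    have h3 : w x = 1 := by rw [hw]; simp [ind, hx]
    rw [h2, h3] at h1
    linarith
  obtain ⟨L, hL, hxL, hyL⟩ := h.line_of_adj hls hT hs hadj
  have e1 := hkey L hL x1 hxL
  have e2 := hkey L hL y1 hyL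
  have hγ : 0 < ∑ y ∈ L, a y := Finset.sum_pos (fun z _ => h.pos z) ⟨x1, hxL⟩
  have hg : 0 < (∑ y ∈ L, a y) / (θ + t) := div_pos hγ (by linarith)
  obtain ⟨α, β, hβ0, hab, hα, hβ, -, -⟩ := h.alpha_beta
  rw [hα x1 hx1] at e1
  rw [hβ y1 hy1, e1] at e2
  have := mul_left_cancel₀ hg.ne' e2
  linarith

end Dat

end Pool.Agent.H72.Bireg
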