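import Pool.Agent.H72.BiregH

set_option autoImplicit false
set_option linter.unusedSectionVars false

open Finset Matrix

namespace Pool.Agent.H72.Bireg

theorem large_s (T : ℕ) (hT0 : 0 < T) : ∃ S0 N : ℕ, ∀ (V : Type) [Fintype V] [DecidableEq V] (G : SimpleGraph V)
    [DecidableRel G.Adj] (s t θ : ℝ) (a : V → ℝ) (k1 k2 : ℕ), Dat G s t θ a k1 k2 → t ≤ T → (S0 : ℝ) ≤ s →
    Fintype.card V ≤ N := by
  obtain ⟨C, hC⟩ := exists_LS T hT0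
  obtain ⟨Ra, hRa1, hRa⟩ := hC (q2 T + T ^ 2 * C + C + 1) (by omega)
  set M : ℕ := Ra ^ 2 with hM
  obtain ⟨Rb, hRb1, hRb⟩ := hC (q2 T + M + 2 * C + 3 + (T ^ 2 * C + 2)) (by omega)
  set S0 : ℕ := (Ra + T) + (Rb + T) + 1 + 5 * C + (25 * (T ^ 2 * Ra * (Ra + C + 1) + T ^ 3 * Ra) + 1) +
    (T ^ 2 * C ^ 2 + C + 2) + (3 * (T ^ 2 * (T ^ 2 * C) + C + 3) + 1) + (M + 2 + C + 2 * (T + T ^ 4 * C) + 1) +
    (2 * (T ^ 2 * (1 + (T + T ^ 4 * C)) + M + T ^ 2 * (M + 2)) + 1) + (T ^ 2 + (T + T ^ 4 * C) + 1) with hS0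
  refine ⟨S0, C ^ 2 + 2 * C + 2, ?_⟩
  intro V _ _ G _ s t θ a k1 k2 h hT hs
  have hpsd : PSD G (T:ℝ) := PSD_mono hT h.psd
  have hcast : (S0 : ℝ) = ((Ra + T) + (Rb + T) + 1 + 5 * C + (25 * (T ^ 2 * Ra * (Ra + C + 1) + T ^ 3 * Ra) + 1) +
    (T ^ 2 * C ^ 2 + C + 2) + (3 * (T ^ 2 * (T ^ 2 * C) + C + 3) + 1) + (M + 2 + C + 2 * (T + T ^ 4 * C) + 1) +
    (2 * (T ^ 2 * (1 + (T + T ^ 4 * C)) + M + T ^ 2 * (M + 2)) + 1) + (T ^ 2 + (T + T ^ 4 * C) + 1) : ℝ) := by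
    rw [hS0]; push_cast; ring
  rw [hcast] at hs
  have n1 : (0:ℝ) ≤ (Ra:ℝ) + T := by positivity
  have n2 : (0:ℝ) ≤ (Rb:ℝ) + T := by positivity
  have n3 : (0:ℝ) ≤ 5 * (C:ℝ) := by positivity
  have n4 : (0:ℝ) ≤ 25 * ((T:ℝ) ^ 2 * Ra * (Ra + C + 1) + T ^ 3 * Ra) := by positivity
  have n5 : (0:ℝ) ≤ (T:ℝ) ^ 2 * C ^ 2 + C + 2 := by positivity
  have n6 : (0:ℝ) ≤ 3 * ((T:ℝ) ^ 2 * (T ^ 2 * C) + C + 3) := by positivity
  have n7 : (0:ℝ) ≤ (M:ℝ) + 2 + C + 2 * (T + T ^ 4 * C) := by positivity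
  have n8 : (0:ℝ) ≤ 2 * ((T:ℝ) ^ 2 * (1 + (T + T ^ 4 * C)) + M + T ^ 2 * (M + 2)) := by positivity
  have n9 : (0:ℝ) ≤ (T:ℝ) ^ 2 + (T + T ^ 4 * C) := by positivity
  obtain ⟨LLa, hLLa⟩ := hRa V G hpsd
  obtain ⟨LLb, hLLb⟩ := hRb V G hpsd
  by_cases hαβ : ∀ x y, G.degree x = k1 → G.degree y = k2 → (Ra:ℝ) ≤ a x * a y
  · exact h.case1 hLLa hT (by omega) (by omega) (by linarith) (by linarith) (by linarith) (by linarith)
      (by linarith) hαβ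
  · have hαβ' : ∀ x y, G.degree x = k1 → G.degree y = k2 → a x * a y < Ra := by
      push Not at hαβ
      obtain ⟨x0, y0, hx0, hy0, hlt⟩ := hαβ
      intro x y hx hy
      rw [h.a_eq (hx.trans hx0.symm), h.a_eq (hy.trans hy0.symm)]
      exact hlt
    rcases h.case2 hLLa (by linarith) hT hRa1 (by linarith) (by linarith) hαβ' with h2 | h2
    · exfalso
      have hMM : ∀ x y, a x * a y < (M:ℝ) := by
        intro x y
        rw [hM]; push_cast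
        have p1 := h.pos x
        have p2 := h.pos y
        have p3 := h2 x
        have p4 := h2 y
        nlinarith
      exact h.geometric hLLb hT (by linarith) hMM (by omega) (by omega) (by linarith) (by linarith) (by linarith)
    · exact h2

theorem bounded_order (T : ℕ) (hT0 : 0 < T) : ∃ N : ℕ, ∀ (V : Type) [Fintype V] [DecidableEq V] (G : SimpleGraph V)
    [DecidableRel G.Adj] (s t θ : ℝ) (a : V → ℝ) (k1 k2 : ℕ), Dat G s t θ a k1 k2 → t ≤ T →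
    Fintype.card V ≤ N := by
  obtain ⟨S0, N1, h1⟩ := large_s T hT0
  obtain ⟨N2, h2⟩ := small_s T (S0 + T)
  refine ⟨N1 + N2, ?_⟩
  intro V _ _ G _ s t θ a k1 k2 h hT
  by_cases hs : (S0 : ℝ) ≤ s
  · have := h1 V G s t θ a k1 k2 h hT hs
    omega
  · push Not at hs
    have hst := h.hst
    have h3 : |s| ≤ ((S0 + T : ℕ) : ℝ) := by
      have hT' : (0:ℝ) ≤ T := Nat.cast_nonneg _
      have hS' : (0:ℝ) ≤ S0 := Nat.cast_nonneg _
      rw [abs_le]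
      push_cast
      constructor <;> linarith
    have := h2 V G s t θ a k1 k2 h hT h3
    omega

end Pool.Agent.H72.Bireg
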