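import Pool.Agent.H72.BiregI

set_option autoImplicit false
set_option linter.unusedSectionVars false

open Finset Matrix

namespace Pool.Agent.H72.Bireg

variable {V : Type} [Fintype V] [DecidableEq V] {G : SimpleGraph V} [DecidableRel G.Adj]

lemma adj_herm : (G.adjMatrix ℝ).IsHermitian := by
  rw [Matrix.IsHermitian, Matrix.conjTranspose_eq_transpose_of_trivial]
  exact SimpleGraph.transpose_adjMatrix _

lemma matrix_eq_zero_of_basis {A : Matrix V V ℝ} (hA : A.IsHermitian) (M : Matrix V V ℝ)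
    (h : ∀ i, M *ᵥ ⇑(hA.eigenvectorBasis i) = 0) : M = 0 := by
  have h1 : ∀ u : V → ℝ, M *ᵥ u = 0 := by
    intro u
    have h2 := hA.eigenvectorBasis.sum_repr (WithLp.toLp 2 u)
    have h3 : u = ∑ i, (hA.eigenvectorBasis.repr (WithLp.toLp 2 u)) i • ⇑(hA.eigenvectorBasis i) := by
      have := congrArg (fun z : EuclideanSpace ℝ V => (z : V → ℝ)) h2
      simp only [WithLp.ofLp_sum, WithLp.ofLp_smul] at this
      exact this.symm
    rw [h3, Matrix.mulVec_sum]
    apply Finset.sum_eq_zero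
    intro i _
    rw [Matrix.mulVec_smul, h i, smul_zero]
  ext x y
  have := congrFun (h1 (Pi.single y 1)) x
  simpa using this

lemma cubic_zero {A : Matrix V V ℝ} (hA : A.IsHermitian) {θ s r : ℝ} (hspec : spectrum ℝ A = {θ, s, r}) :
    (A - θ • (1 : Matrix V V ℝ)) * ((A - s • (1 : Matrix V V ℝ)) * (A - r • (1 : Matrix V V ℝ))) = 0 := by
  apply matrix_eq_zero_of_basis hA
  intro i
  have hi : hA.eigenvalues i ∈ spectrum ℝ A := hA.eigenvalues_mem_spectrum_real i
  rw [hspec] at hi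
  have hb := hA.mulVec_eigenvectorBasis i
  set b := (⇑(hA.eigenvectorBasis i) : V → ℝ) with hbdef
  set l := hA.eigenvalues i with hl
  have h1 : ∀ c : ℝ, (A - c • (1 : Matrix V V ℝ)) *ᵥ b = (l - c) • b := by
    intro c
    rw [Matrix.sub_mulVec, hb, Matrix.smul_mulVec, Matrix.one_mulVec, sub_smul]
  rw [← Matrix.mulVec_mulVec, ← Matrix.mulVec_mulVec, h1 r, Matrix.mulVec_smul, h1 s, Matrix.mulVec_smul,
    Matrix.mulVec_smul, h1 θ, smul_smul, smul_smul]
  have h2 : (l - r) * ((l - s) * (l - θ)) = 0 := by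
    simp only [Set.mem_insert_iff, Set.mem_singleton_iff] at hi
    rcases hi with h | h | h <;> rw [h] <;> ring
  have h3 : (l - r) * (l - s) * (l - θ) = 0 := by rw [← h2]; ring
  rw [mul_assoc] at h3 ⊢
  rw [h3, zero_smul]

lemma spectrum_shift (A : Matrix V V ℝ) (c : ℝ) : ∀ μ ∈ spectrum ℝ (A + c • (1 : Matrix V V ℝ)), μ - c ∈ spectrum ℝ A := by
  intro μ hμ
  rw [spectrum.mem_iff] at hμ ⊢
  intro hu
  apply hμ
  have : algebraMap ℝ (Matrix V V ℝ) μ - (A + c • 1) = algebraMap ℝ (Matrix V V ℝ) (μ - c) - A := by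
    rw [Algebra.algebraMap_eq_smul_one, Algebra.algebraMap_eq_smul_one, sub_smul]
    abel
  rw [this]; exact hu

lemma spectrum_neg_shift (A : Matrix V V ℝ) (c : ℝ) : ∀ μ ∈ spectrum ℝ (c • (1 : Matrix V V ℝ) - A), c - μ ∈ spectrum ℝ A := by
  intro μ hμ
  rw [spectrum.mem_iff] at hμ ⊢
  intro hu
  apply hμ
  have : algebraMap ℝ (Matrix V V ℝ) μ - (c • 1 - A) = -(algebraMap ℝ (Matrix V V ℝ) (c - μ) - A) := by
    rw [Algebra.algebraMap_eq_smul_one, Algebra.algebraMap_eq_smul_one, sub_smul]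
    abel
  rw [this]; exact hu.neg

lemma psd_of_spectrum {t : ℝ} (h : ∀ μ ∈ spectrum ℝ (G.adjMatrix ℝ), -t ≤ μ) : PSD G t := by
  have h1 : (G.adjMatrix ℝ + t • (1 : Matrix V V ℝ)).PosSemidef := by
    rw [posSemidef_iff_isHermitian_and_spectrum_nonneg]
    refine ⟨?_, ?_⟩
    · apply adj_herm.add
      rw [Matrix.IsHermitian, Matrix.conjTranspose_smul, Matrix.conjTranspose_one]
      simp
    · intro μ hμ
      have := h _ (spectrum_shift _ t μ hμ)
      simp only [Set.mem_ofPred_eq]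
      linarith
  intro u
  have h2 := (posSemidef_iff_dotProduct_mulVec.mp h1).2 u
  rw [Matrix.add_mulVec, dotProduct_add, Matrix.smul_mulVec, Matrix.one_mulVec, dotProduct_smul] at h2
  simpa [qf] using h2

lemma top_psd {θ : ℝ} (h : ∀ μ ∈ spectrum ℝ (G.adjMatrix ℝ), μ ≤ θ) :
    (θ • (1 : Matrix V V ℝ) - G.adjMatrix ℝ).PosSemidef := by
  rw [posSemidef_iff_isHermitian_and_spectrum_nonneg]
  refine ⟨?_, ?_⟩
  · apply Matrix.IsHermitian.sub _ adj_herm
    rw [Matrix.IsHermitian, Matrix.conjTranspose_smul, Matrix.conjTranspose_one]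
    simp
  · intro μ hμ
    have := h _ (spectrum_neg_shift _ θ μ hμ)
    simp only [Set.mem_ofPred_eq]
    linarith

/-- a property closed under adjacency in a connected graph -/
lemma conn_all (hc : G.Connected) (P : V → Prop) (hP : ∀ x y, G.Adj x y → P x → P y) {x0 : V} (h0 : P x0) :
    ∀ x, P x := by
  intro x
  have h1 : G.Reachable x0 x := hc.preconnected x0 x
  obtain ⟨w⟩ := h1
  induction w with
  | nil => exact h0
  | cons hadj _ ih => exact ih (hP _ _ hadj h0)

/-- Perron–Frobenius: absolute value of an eigenvector. -/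
lemma perron_abs (hc : G.Connected) {θ : ℝ} (h : ∀ μ ∈ spectrum ℝ (G.adjMatrix ℝ), μ ≤ θ) {u : V → ℝ}
    (hu : G.adjMatrix ℝ *ᵥ u = θ • u) (hu0 : u ≠ 0) :
    G.adjMatrix ℝ *ᵥ (fun x => |u x|) = θ • (fun x => |u x|) ∧ ∀ x, u x ≠ 0 := by
  set w : V → ℝ := fun x => |u x| with hw
  have hpsd := top_psd h
  have hww : w ⬝ᵥ w = u ⬝ᵥ u := by
    unfold dotProduct
    apply Finset.sum_congr rfl
    intro x _
    rw [hw]; simp
  have h1 : u ⬝ᵥ (G.adjMatrix ℝ *ᵥ u) ≤ w ⬝ᵥ (G.adjMatrix ℝ *ᵥ w) := by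
    unfold dotProduct mulVec dotProduct
    apply Finset.sum_le_sum
    intro x _
    rw [Finset.mul_sum, Finset.mul_sum]
    apply Finset.sum_le_sum
    intro y _
    show u x * (G.adjMatrix ℝ x y * u y) ≤ w x * (G.adjMatrix ℝ x y * w y)
    rw [SimpleGraph.adjMatrix_apply]
    split_ifs
    · simp only [one_mul, hw]
      rw [← abs_mul]; exact le_abs_self _
    · simp
  have h2 := (posSemidef_iff_dotProduct_mulVec.mp hpsd).2 w
  have h3 : star w ⬝ᵥ ((θ • (1 : Matrix V V ℝ) - G.adjMatrix ℝ) *ᵥ w) = θ * (w ⬝ᵥ w) - w ⬝ᵥ (G.adjMatrix ℝ *ᵥ w) := by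
    rw [Matrix.sub_mulVec, dotProduct_sub, Matrix.smul_mulVec, Matrix.one_mulVec, dotProduct_smul]
    simp
  rw [hu, dotProduct_smul, smul_eq_mul, ← hww] at h1
  have h4 : star w ⬝ᵥ ((θ • (1 : Matrix V V ℝ) - G.adjMatrix ℝ) *ᵥ w) = 0 := by
    apply le_antisymm _ h2
    rw [h3]; linarith
  have h5 := (hpsd.dotProduct_mulVec_zero_iff w).mp h4
  rw [Matrix.sub_mulVec, Matrix.smul_mulVec, Matrix.one_mulVec, sub_eq_zero] at h5
  refine ⟨h5.symm, ?_⟩
  by_contra hcon
  push Not at hcon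
  obtain ⟨x0, hx0⟩ := hcon
  have hall := conn_all hc (fun x => u x = 0) (by
    intro x y hxy hx
    have h6 := congrFun h5 x
    rw [SimpleGraph.adjMatrix_mulVec_apply] at h6
    simp only [Pi.smul_apply, smul_eq_mul] at h6
    have hwx : w x = 0 := by rw [hw]; simp [hx]
    rw [hwx, mul_zero] at h6
    have h7 := (Finset.sum_eq_zero_iff_of_nonneg (fun z _ => by rw [hw]; exact abs_nonneg _)).mp h6.symm y
      (by simpa using hxy)
    rw [hw] at h7
    exact abs_eq_zero.mp h7) hx0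
  apply hu0
  ext x
  exact hall x

theorem dat_of_graph (hc : G.Connected) {k1 k2 : ℕ} (hk : k2 < k1) (hdeg : ∀ x, G.degree x = k1 ∨ G.degree x = k2)
    (h1 : ∃ x, G.degree x = k1) (h2 : ∃ x, G.degree x = k2) {θ s r : ℝ} (hspec : spectrum ℝ (G.adjMatrix ℝ) = {θ, s, r})
    (hs : s < θ) (hr : r < s) : ∃ a : V → ℝ, Dat G s (-r) θ a k1 k2 := by
  set A := G.adjMatrix ℝ with hA
  have hle : ∀ μ ∈ spectrum ℝ A, μ ≤ θ := by
    intro μ hμ
    rw [hspec] at hμ
    simp only [Set.mem_insert_iff, Set.mem_singleton_iff] at hμ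
    rcases hμ with h | h | h <;> linarith
  have hge : ∀ μ ∈ spectrum ℝ A, -(-r) ≤ μ := by
    intro μ hμ
    rw [hspec] at hμ
    simp only [Set.mem_insert_iff, Set.mem_singleton_iff] at hμ
    rcases hμ with h | h | h <;> linarith
  -- cross edge
  have hconn : ∃ x y, G.Adj x y ∧ G.degree x = k1 ∧ G.degree y = k2 := by
    by_contra hcon
    push Not at hcon
    obtain ⟨x1, hx1⟩ := h1
    obtain ⟨x2, hx2⟩ := h2
    have := conn_all hc (fun x => G.degree x = k1) (by
      intro x y hxy hx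
      rcases hdeg y with h | h
      · exact h
      · exact absurd h (hcon x y hxy hx)) hx1 x2
    omega
  obtain ⟨x0, y0, hadj0, -, -⟩ := hconn
  have hpsd : PSD G (-r) := psd_of_spectrum hge
  have hr1 : 1 ≤ -r := by
    have h3 := hpsd ((1:ℝ) • ind {x0} + (-1:ℝ) • ind {y0} + (0:ℝ) • ind {y0})
    rw [qf_three] at h3
    simp only [ind_mulVec_dot, ind_dot] at h3
    rw [e_empty {x0} {x0} (by simp), e_empty {y0} {y0} (by simp), e_full {x0} {y0} (by simpa using hadj0),
      e_full {y0} {x0} (by simpa using hadj0.symm)] at h3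
    have h4 : ({x0} ∩ {y0} : Finset V) = ∅ := by
      ext z; simp only [mem_inter, mem_singleton, notMem_empty, iff_false, not_and]
      rintro rfl; exact hadj0.ne
    have h5 : ({y0} ∩ {x0} : Finset V) = ∅ := by rw [Finset.inter_comm]; exact h4
    simp only [h4, h5, Finset.inter_self, Finset.card_singleton, Finset.card_empty] at h3
    push_cast at h3
    linarith
  -- an eigenvector for θ
  have hθmem : θ ∈ spectrum ℝ A := by rw [hspec]; simp
  obtain ⟨u, hu, hu0⟩ : ∃ u : V → ℝ, A *ᵥ u = θ • u ∧ u ≠ 0 := by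
    have hH : A.IsHermitian := adj_herm
    rw [hH.spectrum_real_eq_range_eigenvalues] at hθmem
    obtain ⟨i, hi⟩ := hθmem
    refine ⟨⇑(hH.eigenvectorBasis i), ?_, ?_⟩
    · rw [hH.mulVec_eigenvectorBasis i, hi]
    · intro h0
      have := hH.eigenvectorBasis.orthonormal.ne_zero i
      apply this
      ext x
      exact congrFun h0 x
  obtain ⟨hv, hvne⟩ := perron_abs hc hle hu hu0
  set v : V → ℝ := fun x => |u x| with hvdef
  have hvpos : ∀ x, 0 < v x := fun x => abs_pos.mpr (hvne x)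
  have huniq : ∀ w : V → ℝ, A *ᵥ w = θ • w → ∃ c : ℝ, w = c • v := by
    intro w hw
    refine ⟨w x0 / v x0, ?_⟩
    by_contra hne
    have h3 : A *ᵥ (w - (w x0 / v x0) • v) = θ • (w - (w x0 / v x0) • v) := by
      rw [Matrix.mulVec_sub, Matrix.mulVec_smul, hw, hA, hv, smul_sub, smul_comm]
    have h4 := (perron_abs hc hle h3 (sub_ne_zero.mpr hne)).2 x0
    apply h4
    have := (hvpos x0).ne'
    simp only [Pi.sub_apply, Pi.smul_apply, smul_eq_mul]
    field_simp
    ring
  set P := (A - s • (1 : Matrix V V ℝ)) * (A - r • (1 : Matrix V V ℝ)) with hP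
  have hcub := cubic_zero (A := A) adj_herm hspec
  rw [← hP] at hcub
  have hAP : A * P = θ • P := by
    rw [Matrix.sub_mul, Matrix.smul_mul, Matrix.one_mul, sub_eq_zero] at hcub
    exact hcub
  have hPsymm : Pᵀ = P := by
    have hAt : Aᵀ = A := SimpleGraph.transpose_adjMatrix _
    rw [hP, Matrix.transpose_mul, Matrix.transpose_sub, Matrix.transpose_sub, Matrix.transpose_smul,
      Matrix.transpose_smul, Matrix.transpose_one, hAt]
    simp only [Matrix.sub_mul, Matrix.mul_sub, Matrix.smul_mul, Matrix.mul_smul, Matrix.one_mul, Matrix.mul_one]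
    rw [smul_sub, smul_sub, smul_comm s r]
    abel
  -- columns
  have hcol : ∀ y, ∃ c : ℝ, ∀ x, P x y = c * v x := by
    intro y
    obtain ⟨c, hc'⟩ := huniq (fun x => P x y) (by
      ext x
      have := congrFun (congrFun hAP x) y
      rw [Matrix.mul_apply] at this
      simpa [mulVec, dotProduct] using this)
    exact ⟨c, fun x => congrFun hc' x⟩
  choose c hcc using hcol
  set κ := c x0 / v x0 with hκ
  have hcv : ∀ y, c y = κ * v y := by
    intro y
    have h3 : P x0 y = P y x0 := by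
      have := congrFun (congrFun hPsymm x0) y
      rw [Matrix.transpose_apply] at this
      exact this.symm
    rw [hcc y x0, hcc x0 y] at h3
    rw [hκ]
    have := (hvpos x0).ne'
    field_simp
    linarith
  have hPv : ∀ x y, P x y = κ * (v x * v y) := by
    intro x y
    rw [hcc y x, hcv y]; ring
  -- P v
  have hsub : ∀ z : ℝ, (A - z • (1 : Matrix V V ℝ)) *ᵥ v = (θ - z) • v := by
    intro z
    rw [Matrix.sub_mulVec, hA, hv, Matrix.smul_mulVec, Matrix.one_mulVec, sub_smul]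
  have hPv2 : P *ᵥ v = ((θ - s) * (θ - r)) • v := by
    rw [hP, ← Matrix.mulVec_mulVec, hsub r, Matrix.mulVec_smul, hsub s, smul_smul]
    congr 1; ring
  have hvv : 0 < v ⬝ᵥ v := by
    unfold dotProduct
    exact Finset.sum_pos (fun x _ => mul_pos (hvpos x) (hvpos x)) ⟨x0, Finset.mem_univ _⟩
  have hκ2 : κ * (v ⬝ᵥ v) = (θ - s) * (θ - r) := by
    have h3 := congrFun hPv2 x0
    simp only [mulVec, dotProduct, Pi.smul_apply, smul_eq_mul] at h3
    rw [Finset.sum_congr rfl (fun y _ => by rw [hPv x0 y])] at h3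
    have h4 : ∑ y, κ * (v x0 * v y) * v y = (κ * (v ⬝ᵥ v)) * v x0 := by
      unfold dotProduct
      rw [Finset.mul_sum, Finset.sum_mul]
      apply Finset.sum_congr rfl; intro y _; ring
    rw [h4] at h3
    exact mul_right_cancel₀ (hvpos x0).ne' h3
  have hκpos : 0 < κ := by
    have h3 : 0 < κ * (v ⬝ᵥ v) := by
      rw [hκ2]; apply mul_pos <;> linarith
    exact (pos_iff_pos_of_mul_pos h3).mpr hvv
  refine ⟨fun x => Real.sqrt κ * v x, ?_⟩
  have hsq : Real.sqrt κ * Real.sqrt κ = κ := Real.mul_self_sqrt hκpos.le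
  refine ⟨?_, ?_, hpsd, ?_, ?_, hs, by linarith, by linarith, hk, hdeg, h1, h2, ?_⟩
  · intro x y
    have h3 := hPv x y
    rw [hP] at h3
    simp only [Matrix.sub_mul, Matrix.mul_sub, Matrix.smul_mul, Matrix.mul_smul, Matrix.one_mul, Matrix.mul_one,
      Matrix.sub_apply, Matrix.smul_apply, smul_eq_mul] at h3
    rw [hA, mul_self_apply, SimpleGraph.adjMatrix_apply, Matrix.one_apply] at h3
    have h4 : Real.sqrt κ * v x * (Real.sqrt κ * v y) = κ * (v x * v y) := by
      calc Real.sqrt κ * v x * (Real.sqrt κ * v y) = (Real.sqrt κ * Real.sqrt κ) * (v x * v y) := by ring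
        _ = κ * (v x * v y) := by rw [hsq]
    rw [h4]
    linear_combination h3
  · intro x
    have h3 := congrFun hv x
    rw [SimpleGraph.adjMatrix_mulVec_apply] at h3
    simp only [Pi.smul_apply, smul_eq_mul] at h3
    rw [← Finset.mul_sum, h3]; ring
  · intro x
    exact mul_pos (Real.sqrt_pos.mpr hκpos) (hvpos x)
  · have h3 : ∑ x, (Real.sqrt κ * v x) ^ 2 = κ * (v ⬝ᵥ v) := by
      unfold dotProduct
      rw [Finset.mul_sum]
      apply Finset.sum_congr rfl; intro x _
      rw [mul_pow, Real.sq_sqrt hκpos.le]; ring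
    rw [h3, hκ2]; ring
  · by_contra hcon
    push Not at hcon
    obtain ⟨x1, hx1⟩ := h1
    obtain ⟨x2, hx2⟩ := h2
    have := conn_all hc (fun x => G.degree x = k1) (by
      intro x y hxy hx
      rcases hdeg y with h | h
      · exact h
      · exact absurd h (hcon x y hxy hx)) hx1 x2
    omega

end Pool.Agent.H72.Bireg
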