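import Mathlib

set_option autoImplicit false

/-! Base lemmas for the multipacking / broadcast domination theorem `γ_b ≤ 2 mp`. -/

namespace Pool.Agent.H72.MPk

open Finset

variable {V : Type}

/-- A graph metric on `V`: symmetric, triangle inequality, and any two points are joined by a
discrete geodesic. -/
structure GM (d : V → V → ℕ) : Prop where
  self : ∀ v, d v v = 0
  comm : ∀ u v, d u v = d v u
  tri : ∀ u v w, d u w ≤ d u v + d v w
  geo : ∀ x y, ∃ p : ℕ → V, p 0 = x ∧ p (d x y) = y ∧ ∀ i, d (p i) (p (i + 1)) ≤ 1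

/-- There is a multipacking of size exactly `s`. -/
def HasMP [DecidableEq V] (d : V → V → ℕ) (s : ℕ) : Prop :=
  ∃ S : Finset V, S.card = s ∧ ∀ v r, 1 ≤ r → (S.filter (fun u => d v u ≤ r)).card ≤ r

/-- `p` is geodesic on `[lo, hi]`. -/
def IsGeo (d : V → V → ℕ) (lo hi : ℕ) (p : ℕ → V) : Prop :=
  ∀ i j, lo ≤ i → i ≤ j → j ≤ hi → d (p i) (p j) = j - i

theorem lip_le {d : V → V → ℕ} (hd : GM d) {p : ℕ → V} {lo hi : ℕ}
    (h : ∀ i, lo ≤ i → i < hi → d (p i) (p (i + 1)) ≤ 1) :
    ∀ i j, lo ≤ i → i ≤ j → j ≤ hi → d (p i) (p j) ≤ j - i := by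
  intro i j hlo hij
  induction j, hij using Nat.le_induction with
  | base => intro _; rw [hd.self]; omega
  | succ j hij ih =>
    intro hj
    have h1 := ih (by omega)
    have h2 := h j (by omega) (by omega)
    have h3 := hd.tri (p i) (p j) (p (j + 1))
    omega

theorem isGeo_of_lip {d : V → V → ℕ} (hd : GM d) {p : ℕ → V} {lo hi : ℕ}
    (h : ∀ i, lo ≤ i → i < hi → d (p i) (p (i + 1)) ≤ 1)
    (hend : hi - lo ≤ d (p lo) (p hi)) : IsGeo d lo hi p := by
  intro i j hlo hij hj
  have h1 := lip_le hd h i j hlo hij hj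
  have h2 := lip_le hd h lo i le_rfl hlo (by omega)
  have h3 := lip_le hd h j hi (by omega) hj le_rfl
  have h4 := hd.tri (p lo) (p i) (p hi)
  have h5 := hd.tri (p i) (p j) (p hi)
  omega

theorem exists_geo {d : V → V → ℕ} (hd : GM d) (x y : V) :
    ∃ p : ℕ → V, p 0 = x ∧ p (d x y) = y ∧ (∀ i, d (p i) (p (i + 1)) ≤ 1) ∧
      IsGeo d 0 (d x y) p := by
  obtain ⟨p, h0, h1, h2⟩ := hd.geo x y
  refine ⟨p, h0, h1, h2, isGeo_of_lip hd (fun i _ _ => h2 i) ?_⟩
  rw [h0, h1]; omega

/-- Indexed multipackings give multipackings. -/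
theorem hasMP_of_index [DecidableEq V] {d : V → V → ℕ} (hd : GM d) (s : ℕ) (pt : ℕ → V)
    (h : ∀ c r, 1 ≤ r → ((range s).filter (fun i => d c (pt i) ≤ r)).card ≤ r) :
    HasMP d s := by
  have hinj : Set.InjOn pt (range s : Finset ℕ) := by
    intro i hi j hj hij
    by_contra hne
    have h1 := h (pt i) 1 le_rfl
    have h2 : ({i, j} : Finset ℕ) ⊆ (range s).filter (fun k => d (pt i) (pt k) ≤ 1) := by
      intro k hk
      simp only [mem_insert, mem_singleton] at hk
      rw [mem_filter]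
      rcases hk with rfl | rfl
      · exact ⟨hi, by rw [hd.self]; omega⟩
      · exact ⟨hj, by rw [hij, hd.self]; omega⟩
    have h3 := card_le_card h2
    rw [card_pair hne] at h3
    omega
  refine ⟨(range s).image pt, ?_, ?_⟩
  · rw [card_image_of_injOn hinj, card_range]
  · intro v r hr
    rw [filter_image]
    exact card_image_le.trans (h v r hr)

/-- Extremal elements of a finite set of naturals. -/
theorem extremes (T : Finset ℕ) :
    T = ∅ ∨ ∃ a ∈ T, ∃ b ∈ T, a ≤ b ∧ T.card ≤ b - a + 1 := by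
  rcases T.eq_empty_or_nonempty with h | h
  · exact Or.inl h
  · refine Or.inr ⟨T.min' h, T.min'_mem h, T.max' h, T.max'_mem h, T.min'_le _ (T.max'_mem h), ?_⟩
    have hsub : T ⊆ Icc (T.min' h) (T.max' h) := by
      intro t ht
      rw [mem_Icc]
      exact ⟨T.min'_le _ ht, T.le_max' _ ht⟩
    have := card_le_card hsub
    rw [Nat.card_Icc] at this
    have := T.min'_le _ (T.max'_mem h)
    omega

theorem card_split4 (F F1 F2 F3 F4 : Finset ℕ)
    (h : ∀ i ∈ F, i ∈ F1 ∨ i ∈ F2 ∨ i ∈ F3 ∨ i ∈ F4) :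
    F.card ≤ F1.card + F2.card + F3.card + F4.card := by
  classical
  have hsub : F ⊆ ((F1 ∪ F2) ∪ F3) ∪ F4 := by
    intro i hi
    simp only [mem_union]
    rcases h i hi with h | h | h | h <;> tauto
  have h1 := card_le_card hsub
  have h2 := card_union_le ((F1 ∪ F2) ∪ F3) F4
  have h3 := card_union_le (F1 ∪ F2) F3
  have h4 := card_union_le F1 F2
  omega

end Pool.Agent.H72.MPk
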