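import Pool.Agent.H72.MultipackT

set_option autoImplicit false

/-! W-shaped multipackings. -/

namespace Pool.Agent.H72.MPk

open Finset

variable {V : Type}

/-- W-shaped multipacking of size `3k+3` along a path `x - u - y - v` with `d x u = h`,
`d u y = h+1`, `d y v = h`, `d x y = d u v = 2h+1`, `h = 3k+2`, under the condition that no ball of
radius `h` contains all the chosen points. -/
theorem wshape [DecidableEq V] {d : V → V → ℕ} (hd : GM d) (k h s : ℕ) (W : ℕ → V)
    (hk : 1 ≤ k) (hh : h = 3 * k + 2) (hs : s = 3 * k + 3)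
    (hW1 : IsGeo d 0 (2 * h + 1) W) (hW2 : IsGeo d h (3 * h + 1) W)
    (hno : ∀ c, ¬ ((∀ t, t ≤ k + 1 → d c (W (3 * t)) ≤ h) ∧
      (∀ t, t ≤ 2 * k → d c (W (3 * k + 7 + 3 * t)) ≤ h))) : HasMP d s := by
  set pt : ℕ → V := fun i => if i ≤ k + 1 then W (3 * i) else W (3 * k + 7 + 3 * (i - k - 2))
    with hpt
  apply hasMP_of_index hd s pt
  intro c r hr
  set F := (range s).filter (fun i => d c (pt i) ≤ r) with hF
  have hFs : F.card ≤ s := by
    have := card_filter_le (range s) (fun i => d c (pt i) ≤ r)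
    rw [card_range] at this
    exact this
  have hA : ∀ i j, i ≤ j → j ≤ 2 * h + 1 → d c (W i) ≤ r → d c (W j) ≤ r → j - i ≤ 2 * r := by
    intro i j hij hj h1 h2
    have := ball_tri hd h1 h2
    rw [hW1 i j (Nat.zero_le _) hij hj] at this
    exact this
  have hB : ∀ i j, h ≤ i → i ≤ j → j ≤ 3 * h + 1 → d c (W i) ≤ r → d c (W j) ≤ r →
      j - i ≤ 2 * r := by
    intro i j hi hij hj h1 h2
    have := ball_tri hd h1 h2
    rw [hW2 i j hi hij hj] at this
    exact this
  have hC : ∀ i j, i ≤ h → 2 * h + 1 ≤ j → j ≤ 3 * h + 1 → d c (W i) ≤ r → d c (W j) ≤ r →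
      (4 * h + 2 ≤ 2 * r + i + j ∧ j + i ≤ 2 * r + 2 * h) := by
    intro i j hi hj hj2 h1 h2
    have h0 := ball_tri hd h1 h2
    have h3 := hW1 i (2 * h + 1) (Nat.zero_le _) (by omega) le_rfl
    have h4 := hW2 (2 * h + 1) j (by omega) hj hj2
    have h5 := hW2 h j le_rfl (by omega) hj2
    have h6 := hW1 i h (Nat.zero_le _) hi (by omega)
    have h7 := hd.tri (W i) (W j) (W (2 * h + 1))
    have h8 := hd.tri (W h) (W i) (W j)
    rw [hd.comm (W j)] at h7
    rw [hd.comm (W h) (W i)] at h8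
    constructor
    · omega
    · omega
  have hmem : ∀ i, i ∈ F ↔ i < s ∧ d c (pt i) ≤ r := by
    intro i; rw [hF, mem_filter, mem_range]
  have pt1 : ∀ i, i ≤ k + 1 → pt i = W (3 * i) := by
    intro i hi; simp only [hpt]; rw [if_pos hi]
  have pt2 : ∀ i, k + 1 < i → pt i = W (3 * k + 7 + 3 * (i - k - 2)) := by
    intro i hi; simp only [hpt]; rw [if_neg (by omega)]
  rcases Nat.lt_or_ge r s with hrs | hrs
  swap
  · omega
  rcases Nat.eq_or_lt_of_le (Nat.le_sub_one_of_lt hrs) with hr1 | hr1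
  · -- r = s - 1 = h
    have hrh : r = h := by omega
    have hmiss : ∃ i, i < s ∧ i ∉ F := by
      by_contra hcon
      push Not at hcon
      apply hno c
      constructor
      · intro t ht
        have h0 := (hmem t).1 (hcon t (by omega))
        rw [pt1 t ht, hrh] at h0
        exact h0.2
      · intro t ht
        have h0 := (hmem (t + k + 2)).1 (hcon (t + k + 2) (by omega))
        rw [pt2 (t + k + 2) (by omega), hrh, show t + k + 2 - k - 2 = t by omega] at h0
        exact h0.2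
    obtain ⟨i, hi, hiF⟩ := hmiss
    have hsub : F ⊆ (range s).erase i := by
      intro j hj
      rw [mem_erase, mem_range]
      refine ⟨?_, ((hmem j).1 hj).1⟩
      rintro rfl
      exact hiF hj
    have := card_le_card hsub
    rw [card_erase_of_mem (mem_range.2 hi), card_range] at this
    omega
  -- r ≤ h - 1
  set F1 := F.filter (fun i => i ≤ k) with hF1
  set F2 := F.filter (fun i => i = k + 1) with hF2
  set F3 := F.filter (fun i => k + 1 < i ∧ i ≤ 2 * k + 1) with hF3
  set F4 := F.filter (fun i => 2 * k + 1 < i) with hF4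
  have hsum := card_split4 F F1 F2 F3 F4 (by
    intro i hi
    simp only [hF1, hF2, hF3, hF4, mem_filter, hi, true_and]
    omega)
  have e1 : ∀ i ∈ F1, i ≤ k ∧ d c (W (3 * i)) ≤ r := by
    intro i hi
    rw [hF1, mem_filter, hmem] at hi
    refine ⟨hi.2, ?_⟩
    rw [← pt1 i (by omega)]; exact hi.1.2
  have e2 : F2 = ∅ ∨ (F2.card ≤ 1 ∧ d c (W (3 * k + 3)) ≤ r) := by
    rcases F2.eq_empty_or_nonempty with h | ⟨i, hi⟩
    · exact Or.inl h
    · right
      rw [hF2, mem_filter, hmem] at hi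
      constructor
      · have : F2 ⊆ {k + 1} := by
          intro j hj
          rw [hF2, mem_filter] at hj
          rw [mem_singleton]; exact hj.2
        simpa using card_le_card this
      · have h1 := hi.1.2
        rw [hi.2, pt1 (k + 1) le_rfl] at h1
        exact h1
  have e3 : ∀ i ∈ F3, k + 1 < i ∧ i ≤ 2 * k + 1 ∧ d c (W (3 * k + 7 + 3 * (i - k - 2))) ≤ r := by
    intro i hi
    rw [hF3, mem_filter, hmem] at hi
    refine ⟨hi.2.1, hi.2.2, ?_⟩
    rw [← pt2 i hi.2.1]; exact hi.1.2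
  have e4 : ∀ i ∈ F4, 2 * k + 1 < i ∧ i < s ∧ d c (W (3 * k + 7 + 3 * (i - k - 2))) ≤ r := by
    intro i hi
    rw [hF4, mem_filter, hmem] at hi
    refine ⟨hi.2, hi.1.1, ?_⟩
    rw [← pt2 i (by omega)]; exact hi.1.2
  rcases extremes F1 with h1 | ⟨t1, ht1, t2, ht2, ht12, hc1⟩ <;>
  rcases e2 with h2 | ⟨hc2, hm⟩ <;>
  rcases extremes F3 with h3 | ⟨t3, ht3, t4, ht4, ht34, hc3⟩ <;>
  rcases extremes F4 with h4 | ⟨t5, ht5, t6, ht6, ht56, hc4⟩
  all_goals (try rw [h1, card_empty] at hsum)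
  all_goals (try rw [h2, card_empty] at hsum)
  all_goals (try rw [h3, card_empty] at hsum)
  all_goals (try rw [h4, card_empty] at hsum)
  all_goals (try replace ht1 := e1 _ ht1)
  all_goals (try replace ht2 := e1 _ ht2)
  all_goals (try replace ht3 := e3 _ ht3)
  all_goals (try replace ht4 := e3 _ ht4)
  all_goals (try replace ht5 := e4 _ ht5)
  all_goals (try replace ht6 := e4 _ ht6)
  all_goals (try have k12 := hA (3 * t1) (3 * t2) (by omega) (by omega) ht1.2 ht2.2)
  all_goals (try have k1m := hA (3 * t1) (3 * k + 3) (by omega) (by omega) ht1.2 hm)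
  all_goals (try have k14 := hA (3 * t1) (3 * k + 7 + 3 * (t4 - k - 2)) (by omega) (by omega) ht1.2 ht4.2.2)
  all_goals (try have km4 := hA (3 * k + 3) (3 * k + 7 + 3 * (t4 - k - 2)) (by omega) (by omega) hm ht4.2.2)
  all_goals (try have k34 := hA (3 * k + 7 + 3 * (t3 - k - 2)) (3 * k + 7 + 3 * (t4 - k - 2)) (by omega) (by omega) ht3.2.2 ht4.2.2)
  all_goals (try have k36 := hB (3 * k + 7 + 3 * (t3 - k - 2)) (3 * k + 7 + 3 * (t6 - k - 2)) (by omega) (by omega) (by omega) ht3.2.2 ht6.2.2)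
  all_goals (try have km6 := hB (3 * k + 3) (3 * k + 7 + 3 * (t6 - k - 2)) (by omega) (by omega) (by omega) hm ht6.2.2)
  all_goals (try have k56 := hB (3 * k + 7 + 3 * (t5 - k - 2)) (3 * k + 7 + 3 * (t6 - k - 2)) (by omega) (by omega) (by omega) ht5.2.2 ht6.2.2)
  all_goals (try have k15 := hC (3 * t1) (3 * k + 7 + 3 * (t5 - k - 2)) (by omega) (by omega) (by omega) ht1.2 ht5.2.2)
  all_goals (try have k26 := hC (3 * t2) (3 * k + 7 + 3 * (t6 - k - 2)) (by omega) (by omega) (by omega) ht2.2 ht6.2.2)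
  all_goals (clear hW1 hW2 hA hB hC hmem pt1 pt2 e1 e3 e4 hno)
  all_goals omega

end Pool.Agent.H72.MPk
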