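import Pool.Agent.H72.MultipackT5
import Pool.Agent.H72.MultipackW

set_option autoImplicit false

/-! Main theorem: `γ_b ≤ 2 mp`. -/

namespace Pool.Agent.H72.MPk

open Finset

variable {V : Type}

/-- A geodesic from `a` to `c` passing through `b`. -/
theorem exists_geo_via {d : V → V → ℕ} (hd : GM d) {a b c : V} (h : d a c = d a b + d b c) :
    ∃ p : ℕ → V, p 0 = a ∧ p (d a b) = b ∧ p (d a c) = c ∧ (∀ i, d (p i) (p (i + 1)) ≤ 1) ∧
      IsGeo d 0 (d a c) p := by
  obtain ⟨p1, h10, h11, h12, _⟩ := exists_geo hd a b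
  obtain ⟨p2, h20, h21, h22, _⟩ := exists_geo hd b c
  have hlip : ∀ i, d ((fun i => if i ≤ d a b then p1 i else p2 (i - d a b)) i)
      ((fun i => if i ≤ d a b then p1 i else p2 (i - d a b)) (i + 1)) ≤ 1 := by
    intro i
    simp only
    rcases lt_trichotomy i (d a b) with hi | hi | hi
    · rw [if_pos hi.le, if_pos (by omega)]
      exact h12 i
    · rw [if_pos hi.le, if_neg (by omega), hi, h11, show d a b + 1 - d a b = 0 + 1 by omega]
      have := h22 0
      rw [h20] at this
      exact this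
    · rw [if_neg (by omega), if_neg (by omega),
        show i + 1 - d a b = (i - d a b) + 1 by omega]
      exact h22 _
  have e0 : (fun i => if i ≤ d a b then p1 i else p2 (i - d a b)) 0 = a := by
    simp only; rw [if_pos (Nat.zero_le _), h10]
  have e1 : (fun i => if i ≤ d a b then p1 i else p2 (i - d a b)) (d a b) = b := by
    simp only; rw [if_pos le_rfl, h11]
  have e2 : (fun i => if i ≤ d a b then p1 i else p2 (i - d a b)) (d a c) = c := by
    simp only
    split_ifs with hle
    · have hbc : d b c = 0 := by omega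
      have : d a c = d a b := by omega
      rw [this, h11]
      rw [hbc] at h21
      rw [← h20, h21]
    · rw [show d a c - d a b = d b c by omega, h21]
  refine ⟨fun i => if i ≤ d a b then p1 i else p2 (i - d a b), e0, e1, e2, hlip,
    isGeo_of_lip hd (fun i _ _ => hlip i) ?_⟩
  simp only at e0 e2 ⊢
  rw [e0, e2]
  omega

theorem IsGeo.mono {d : V → V → ℕ} {lo hi lo' hi' : ℕ} {p : ℕ → V} (h : IsGeo d lo hi p)
    (h1 : lo ≤ lo') (h2 : hi' ≤ hi) : IsGeo d lo' hi' p :=
  fun i j a b c => h i j (h1.trans a) b (c.trans h2)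

theorem hasMP_one [DecidableEq V] {d : V → V → ℕ} (hd : GM d) (x : V) : HasMP d 1 := by
  apply hasMP_of_index hd 1 (fun _ => x)
  intro c r hr
  have := card_filter_le (range 1) (fun _ => d c x ≤ r)
  rw [card_range] at this
  omega

theorem hasMP_two [DecidableEq V] {d : V → V → ℕ} (hd : GM d) {x y : V} (h : 3 ≤ d x y) :
    HasMP d 2 := by
  set pt : ℕ → V := fun i => if i = 0 then x else y with hpt
  apply hasMP_of_index hd 2 pt
  intro c r hr
  set F := (range 2).filter (fun i => d c (pt i) ≤ r) with hF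
  have hmem : ∀ i, i ∈ F ↔ i < 2 ∧ d c (pt i) ≤ r := by
    intro i; rw [hF, mem_filter, mem_range]
  have hFs : F.card ≤ 2 := by
    have := card_filter_le (range 2) (fun i => d c (pt i) ≤ r)
    rw [card_range] at this
    exact this
  have p0 : pt 0 = x := by simp [hpt]
  have p1 : pt 1 = y := by simp [hpt]
  rcases Nat.lt_or_ge r 2 with hr2 | hr2
  swap
  · exact hFs.trans hr2
  have hpair : ∀ i ∈ F, ∀ j ∈ F, i < j → False := by
    intro i hi j hj hij
    rw [hmem] at hi hj
    have hi0 : i = 0 := by omega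
    have hj0 : j = 1 := by omega
    rw [hi0, p0] at hi
    rw [hj0, p1] at hj
    have := ball_tri hd hi.2 hj.2
    omega
  refine le_trans (card_le_one.2 ?_) hr
  intro i hi j hj
  rcases lt_trichotomy i j with hlt | heq | hgt
  · exact (hpair i hi j hj hlt).elim
  · exact heq
  · exact (hpair j hj i hi hgt).elim

theorem hasMP_three [DecidableEq V] {d : V → V → ℕ} (hd : GM d) {x y z : V} (h : 5 ≤ d x y)
    (h1 : 3 ≤ d x z) (h2 : 3 ≤ d y z) : HasMP d 3 := by
  set pt : ℕ → V := fun i => if i = 0 then x else if i = 1 then y else z with hpt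
  apply hasMP_of_index hd 3 pt
  intro c r hr
  set F := (range 3).filter (fun i => d c (pt i) ≤ r) with hF
  have hmem : ∀ i, i ∈ F ↔ i < 3 ∧ d c (pt i) ≤ r := by
    intro i; rw [hF, mem_filter, mem_range]
  have hFs : F.card ≤ 3 := by
    have := card_filter_le (range 3) (fun i => d c (pt i) ≤ r)
    rw [card_range] at this
    exact this
  have p0 : pt 0 = x := by simp [hpt]
  have p1 : pt 1 = y := by simp [hpt]
  have p2 : pt 2 = z := by simp [hpt]
  rcases Nat.lt_or_ge r 3 with hr2 | hr2
  swap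
  · exact hFs.trans hr2
  have hxy : 0 ∈ F → 1 ∈ F → False := by
    intro ha hb
    rw [hmem, p0] at ha
    rw [hmem, p1] at hb
    have := ball_tri hd ha.2 hb.2
    omega
  have hor : r = 1 ∨ r = 2 := by omega
  rcases hor with hr1 | hr1
  · have hxz : 0 ∈ F → 2 ∈ F → False := by
      intro ha hb
      rw [hmem, p0] at ha
      rw [hmem, p2] at hb
      have := ball_tri hd ha.2 hb.2
      omega
    have hyz : 1 ∈ F → 2 ∈ F → False := by
      intro ha hb
      rw [hmem, p1] at ha
      rw [hmem, p2] at hb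
      have := ball_tri hd ha.2 hb.2
      omega
    have hpair : ∀ i ∈ F, ∀ j ∈ F, i < j → False := by
      intro i hi j hj hij
      have hi' := ((hmem i).1 hi).1
      have hj' := ((hmem j).1 hj).1
      have : (i = 0 ∧ j = 1) ∨ (i = 0 ∧ j = 2) ∨ (i = 1 ∧ j = 2) := by omega
      rcases this with ⟨rfl, rfl⟩ | ⟨rfl, rfl⟩ | ⟨rfl, rfl⟩
      · exact hxy hi hj
      · exact hxz hi hj
      · exact hyz hi hj
    refine le_trans (card_le_one.2 ?_) hr
    intro i hi j hj
    rcases lt_trichotomy i j with hlt | heq | hgt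
    · exact (hpair i hi j hj hlt).elim
    · exact heq
    · exact (hpair j hj i hi hgt).elim
  · have hsub : ∃ i, i < 3 ∧ i ∉ F := by
      by_contra hcon
      push Not at hcon
      exact hxy (hcon 0 (by omega)) (hcon 1 (by omega))
    obtain ⟨i, hi, hiF⟩ := hsub
    have hsub : F ⊆ (range 3).erase i := by
      intro j hj
      rw [mem_erase, mem_range]
      refine ⟨?_, ((hmem j).1 hj).1⟩
      rintro rfl
      exact hiF hj
    have := card_le_card hsub
    rw [card_erase_of_mem (mem_range.2 hi), card_range] at this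
    omega

/-- The critical case `D = R = 6k+5`, `k ≥ 1`. -/
theorem critical [DecidableEq V] {d : V → V → ℕ} (hd : GM d) (k D : ℕ) (hk : 1 ≤ k)
    (hD : D = 6 * k + 5) (hecc : ∀ u, ∃ v, d u v = D) (x y : V) (hxy : d x y = D) :
    HasMP d (3 * k + 3) := by
  by_contra hno
  obtain ⟨h, hh⟩ : ∃ h, h = 3 * k + 2 := ⟨_, rfl⟩
  have hDh : D = 2 * h + 1 := by omega
  -- the star property
  have star : ∀ x y u v w : V, d x y = 2 * h + 1 → d x u = h → d u y = h + 1 →
      d u v = 2 * h + 1 → d u w = h + 3 → d w v = h - 2 → d y w ≤ 2 := by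
    intro x y u v w h1 h2 h3 h4 h5 h6
    by_contra hcon
    obtain ⟨P, hP0, hP1, hP2, _, hPg⟩ := exists_geo_via hd (a := x) (b := u) (c := y) (by omega)
    obtain ⟨Q, hQ0, hQ1, hQ2, _, hQg⟩ := exists_geo_via hd (a := u) (b := w) (c := v) (by omega)
    apply hno
    refine tshape5 hd k (2 * h + 1) h (2 * h + 1) (2 * k + 1) (k + 1) (h + 3) _ P Q ?_ ?_ ?_
      (by omega) (by omega) (by omega) rfl rfl (by omega) rfl ?_
    · rw [h1] at hPg; exact hPg
    · rw [h4] at hQg; exact hQg
    · rw [hQ0]; rw [h2] at hP1; exact hP1.symm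
    · rw [h1] at hP2
      rw [h5] at hQ1
      rw [hP2, hQ1]
      omega
  -- choose `u`
  obtain ⟨p, hp0, hp1, _, hpg⟩ := exists_geo hd x y
  obtain ⟨u, hu⟩ : ∃ u, u = p h := ⟨_, rfl⟩
  have hxu : d x u = h := by
    rw [hu, ← hp0, hpg 0 h le_rfl (Nat.zero_le _) (by omega)]; omega
  have huy : d u y = h + 1 := by
    have := hpg h (d x y) (Nat.zero_le _) (by omega) le_rfl
    rw [hp1, ← hu] at this
    omega
  obtain ⟨v, huv⟩ := hecc u
  obtain ⟨q, hq0, hq1, _, hqg⟩ := exists_geo hd u v
  obtain ⟨w, hw⟩ : ∃ w, w = q (h + 3) := ⟨_, rfl⟩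
  have huw : d u w = h + 3 := by
    rw [hw, ← hq0, hqg 0 (h + 3) le_rfl (Nat.zero_le _) (by omega)]; omega
  have hwv : d w v = h - 2 := by
    have := hqg (h + 3) (d u v) (Nat.zero_le _) (by omega) le_rfl
    rw [hq1, ← hw] at this
    omega
  have hyw := star x y u v w (by omega) hxu huy (by omega) huw hwv
  have hyv : d y v = h := by
    have h1 := hd.tri y w v
    have h2 := hd.tri u y v
    omega
  -- the W path
  obtain ⟨P, hP0, hP1, hP2, hPl, _⟩ := exists_geo_via hd (a := x) (b := u) (c := y) (by omega)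
  obtain ⟨P3, h30, h31, h3l, _⟩ := exists_geo hd y v
  rw [hxu] at hP1
  rw [hxy, hDh] at hP2
  rw [hyv] at h31
  set W : ℕ → V := fun i => if i ≤ 2 * h + 1 then P i else P3 (i - (2 * h + 1)) with hW
  have hWl : ∀ i, d (W i) (W (i + 1)) ≤ 1 := by
    intro i
    simp only [hW]
    rcases lt_trichotomy i (2 * h + 1) with hi | hi | hi
    · rw [if_pos hi.le, if_pos (by omega)]
      exact hPl i
    · rw [if_pos hi.le, if_neg (by omega), hi, hP2,
        show 2 * h + 1 + 1 - (2 * h + 1) = 0 + 1 by omega]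
      have := h3l 0
      rw [h30] at this
      exact this
    · rw [if_neg (by omega), if_neg (by omega),
        show i + 1 - (2 * h + 1) = (i - (2 * h + 1)) + 1 by omega]
      exact h3l _
  have W0 : W 0 = x := by simp only [hW]; rw [if_pos (by omega), hP0]
  have Wh : W h = u := by simp only [hW]; rw [if_pos (by omega), hP1]
  have Wy : W (2 * h + 1) = y := by simp only [hW]; rw [if_pos (by omega), hP2]
  have Wv : W (3 * h + 1) = v := by
    simp only [hW]; rw [if_neg (by omega), show 3 * h + 1 - (2 * h + 1) = h by omega, h31]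
  have hW1 : IsGeo d 0 (2 * h + 1) W := by
    apply isGeo_of_lip hd (fun i _ _ => hWl i)
    rw [W0, Wy]; omega
  have hW2 : IsGeo d h (3 * h + 1) W := by
    apply isGeo_of_lip hd (fun i _ _ => hWl i)
    rw [Wh, Wv]; omega
  apply hno
  apply wshape hd k h _ W hk hh rfl hW1 hW2
  rintro c ⟨hc1, hc2⟩
  have cx := hc1 0 (by omega)
  rw [Nat.mul_zero, W0] at cx
  have cm := hc1 (k + 1) le_rfl
  have c2h := hc2 (k - 1) (by omega)
  have cv := hc2 (2 * k) le_rfl
  rw [show 3 * k + 7 + 3 * (2 * k) = 3 * h + 1 by omega, Wv] at cv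
  rw [show 3 * (k + 1) = h + 1 by omega] at cm
  have hcy : h + 1 ≤ d c y := by
    have h1 := hd.tri x c y
    have h2 := hd.comm x c
    omega
  have hcu : d u c ≤ h + 1 := by
    have h1 := hd.tri c (W (h + 1)) u
    have h2 := hWl h
    rw [Wh] at h2
    have h3 := hd.comm u (W (h + 1))
    have h4 := hd.comm u c
    omega
  have hcu2 : d u c = h + 1 ∧ d c v = h := by
    have h1 := hd.tri u c v
    omega
  obtain ⟨q', hq0', hq1', _, hqg'⟩ := exists_geo hd c v
  obtain ⟨w', hw'⟩ : ∃ w, w = q' 2 := ⟨_, rfl⟩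
  have hcw : d c w' = 2 := by
    rw [hw', ← hq0', hqg' 0 2 le_rfl (Nat.zero_le _) (by omega)]
  have hwv' : d w' v = h - 2 := by
    have := hqg' 2 (d c v) (Nat.zero_le _) (by omega) le_rfl
    rw [hq1', ← hw'] at this
    omega
  have huw' : d u w' = h + 3 := by
    have h1 := hd.tri u c w'
    have h2 := hd.tri u w' v
    omega
  have h1 := star x y u v w' (by omega) hxu huy (by omega) huw' hwv'
  have h2 := hd.tri c w' y
  have h3 := hd.comm w' y
  omega

/-- The main theorem in the abstract metric form. -/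
theorem main [Fintype V] [DecidableEq V] [Nonempty V] {d : V → V → ℕ} (hd : GM d) :
    ∃ (f : V → ℕ) (S : Finset V),
      (∀ u : V, ∃ v : V, 0 < f v ∧ d u v ≤ f v) ∧
      (∀ v : V, ∀ r : ℕ, 1 ≤ r → (S.filter (fun u => d v u ≤ r)).card ≤ r) ∧
      ∑ v, f v ≤ 2 * S.card := by
  -- radius
  obtain ⟨c0, hc0⟩ := Finite.exists_min (fun u : V => univ.sup (d u))
  set R := univ.sup (d c0) with hR
  have hcov : ∀ v, d c0 v ≤ R := fun v => le_sup (f := d c0) (mem_univ v)
  have hecc : ∀ u, ∃ v, R ≤ d u v := by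
    intro u
    obtain ⟨v, _, hv⟩ := exists_mem_eq_sup univ univ_nonempty (d u)
    exact ⟨v, by rw [← hv]; exact hc0 u⟩
  -- diameter
  obtain ⟨⟨x, y⟩, hmax⟩ := Finite.exists_max (fun p : V × V => d p.1 p.2)
  set D := d x y with hDdef
  have hmax' : ∀ u v, d u v ≤ D := fun u v => hmax (u, v)
  have hRD : R ≤ D := by
    obtain ⟨v, hv⟩ := hecc x
    exact hv.trans (hmax' x v)
  have single : ∀ s, R ≤ 2 * s → 1 ≤ s → HasMP d s → ∃ (f : V → ℕ) (S : Finset V),
      (∀ u : V, ∃ v : V, 0 < f v ∧ d u v ≤ f v) ∧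
      (∀ v : V, ∀ r : ℕ, 1 ≤ r → (S.filter (fun u => d v u ≤ r)).card ≤ r) ∧
      ∑ v, f v ≤ 2 * S.card := by
    rintro s hs hs1 ⟨S, hS1, hS2⟩
    refine ⟨Pi.single c0 (max R 1), S, ?_, hS2, ?_⟩
    · intro u
      refine ⟨c0, ?_, ?_⟩
      · rw [Pi.single_eq_same]; omega
      · rw [Pi.single_eq_same, hd.comm]
        exact (hcov u).trans (le_max_left _ _)
    · rw [Finset.sum_pi_single', if_pos (mem_univ _), hS1]
      omega
  obtain ⟨p, hp0, hp1, _, hpg⟩ := exists_geo hd x y
  have tcase : ∀ L a n m q0 s : ℕ, L ≤ D → a ≤ L → 1 ≤ n → 3 * n ≤ L →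
      (m = 0 ∨ q0 + 3 * (m - 1) ≤ R) → s = n + 1 + m → 2 * s ≤ L + 1 → a + 3 ≤ q0 →
      L - a + 3 ≤ q0 → s + 3 ≤ q0 → HasMP d s := by
    intro L a n m q0 s hL ha hn1 hn hm hs hLs h1 h2 h3
    obtain ⟨v, hv⟩ := hecc (p a)
    obtain ⟨q, hq0, hq1, _, hqg⟩ := exists_geo hd (p a) v
    exact tshape hd L a R n m q0 s p q (hpg.mono le_rfl hL) (hqg.mono le_rfl hv) hq0 ha hn1 hn hm
      hs hLs h1 h2 h3
  obtain ⟨k, hk⟩ : ∃ k, k = R / 6 := ⟨_, rfl⟩
  have hcases : R = 6 * k ∨ R = 6 * k + 1 ∨ R = 6 * k + 2 ∨ R = 6 * k + 3 ∨ R = 6 * k + 4 ∨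
      R = 6 * k + 5 := by omega
  rcases hcases with h | h | h | h | h | h
  · rcases Nat.eq_zero_or_pos k with hk0 | hk0
    · exact single 1 (by omega) le_rfl (hasMP_one hd c0)
    · exact single (3 * k) (by omega) (by omega) (tcase (6 * k) (3 * k) (2 * k) (k - 1)
        (3 * k + 6) _ (by omega) (by omega) (by omega) (by omega) (by omega) (by omega) (by omega)
        (by omega) (by omega) (by omega))
  · rcases Nat.eq_zero_or_pos k with hk0 | hk0
    · exact single 1 (by omega) le_rfl (hasMP_one hd c0)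
    · exact single (3 * k + 1) (by omega) (by omega) (tcase (6 * k + 1) (3 * k) (2 * k) k
        (3 * k + 4) _ (by omega) (by omega) (by omega) (by omega) (by omega) (by omega) (by omega)
        (by omega) (by omega) (by omega))
  · rcases Nat.eq_zero_or_pos k with hk0 | hk0
    · exact single 1 (by omega) le_rfl (hasMP_one hd c0)
    · exact single (3 * k + 1) (by omega) (by omega) (tcase (6 * k + 2) (3 * k + 1) (2 * k) k
        (3 * k + 5) _ (by omega) (by omega) (by omega) (by omega) (by omega) (by omega) (by omega)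
        (by omega) (by omega) (by omega))
  · exact single (3 * k + 2) (by omega) (by omega) (tcase (6 * k + 3) (3 * k + 1) (2 * k + 1) k
        (3 * k + 6) _ (by omega) (by omega) (by omega) (by omega) (by omega) (by omega) (by omega)
        (by omega) (by omega) (by omega))
  · exact single (3 * k + 2) (by omega) (by omega) (tcase (6 * k + 4) (3 * k + 2) (2 * k + 1) k
        (3 * k + 7) _ (by omega) (by omega) (by omega) (by omega) (by omega) (by omega) (by omega)
        (by omega) (by omega) (by omega))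
  · rcases Nat.lt_or_ge R D with hlt | hge
    · exact single (3 * k + 3) (by omega) (by omega) (tcase (6 * k + 6) (3 * k + 3) (2 * k + 2) k
        (3 * k + 8) _ (by omega) (by omega) (by omega) (by omega) (by omega) (by omega) (by omega)
        (by omega) (by omega) (by omega))
    · have hDR : D = 6 * k + 5 := by omega
      rcases Nat.eq_zero_or_pos k with hk0 | hk0
      · -- `D = R = 5`
        have hD5 : d x y = 5 := by omega
        by_cases hz : ∃ z, 3 ≤ d x z ∧ 3 ≤ d y z
        · obtain ⟨z, hz1, hz2⟩ := hz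
          exact single 3 (by omega) (by omega) (hasMP_three hd (by omega) hz1 hz2)
        · push Not at hz
          obtain ⟨S, hS1, hS2⟩ := hasMP_two hd (x := x) (y := y) (by omega)
          have hne : x ≠ y := by
            rintro rfl
            rw [hd.self] at hD5
            omega
          refine ⟨Pi.single x 2 + Pi.single y 2, S, ?_, hS2, ?_⟩
          · intro u
            rcases Nat.lt_or_ge (d x u) 3 with h3 | h3
            · refine ⟨x, ?_, ?_⟩
              · simp
              · rw [Pi.add_apply, Pi.single_eq_same, hd.comm]; omega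
            · have := hz u h3
              refine ⟨y, ?_, ?_⟩
              · simp
              · rw [Pi.add_apply, Pi.single_eq_same, hd.comm]; omega
          · simp only [Pi.add_apply]
            rw [Finset.sum_add_distrib, Finset.sum_pi_single', Finset.sum_pi_single',
              if_pos (mem_univ _), if_pos (mem_univ _), hS1]
      · refine single (3 * k + 3) (by omega) (by omega) (critical hd k D hk0 hDR ?_ x y rfl)
        intro u
        obtain ⟨v, hv⟩ := hecc u
        exact ⟨v, le_antisymm (hmax' u v) (by omega)⟩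

end Pool.Agent.H72.MPk
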