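import Pool.Agent.H72.MultipackT

set_option autoImplicit false

/-! The T-shaped multipacking in the case `D = R = 6k+5`. -/

namespace Pool.Agent.H72.MPk

open Finset

variable {V : Type}

/-- T-shaped multipacking of size `3k+3` when `L = e = 6k+5`, under the condition that
`y = P L` and `Q q0` are not at distance `≤ 2`. -/
theorem tshape5 [DecidableEq V] {d : V → V → ℕ} (hd : GM d) (k L a e n m q0 s : ℕ) (P Q : ℕ → V)
    (hP : IsGeo d 0 L P) (hQ : IsGeo d 0 e Q) (hu : Q 0 = P a)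
    (hLk : L = 6 * k + 5) (hek : e = 6 * k + 5) (hak : a = 3 * k + 2) (hnk : n = 2 * k + 1)
    (hmk : m = k + 1) (hqk : q0 = 3 * k + 5) (hsk : s = 3 * k + 3)
    (hyw : 3 ≤ d (P L) (Q q0)) : HasMP d s := by
  have ha : a ≤ L := by omega
  set pt : ℕ → V := fun i => if i < n then P (3 * i) else if i = n then P L
    else Q (q0 + 3 * (i - n - 1)) with hpt
  apply hasMP_of_index hd s pt
  intro c r hr
  set F := (range s).filter (fun i => d c (pt i) ≤ r) with hF
  have hFs : F.card ≤ s := by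
    have := card_filter_le (range s) (fun i => d c (pt i) ≤ r)
    rw [card_range] at this
    exact this
  have hPP : ∀ i j, i ≤ j → j ≤ L → d c (P i) ≤ r → d c (P j) ≤ r → j - i ≤ 2 * r := by
    intro i j hij hj h1 h2
    have := ball_tri hd h1 h2
    rw [hP i j (Nat.zero_le _) hij hj] at this
    exact this
  have hQQ : ∀ i j, i ≤ j → j ≤ e → d c (Q i) ≤ r → d c (Q j) ≤ r → j - i ≤ 2 * r := by
    intro i j hij hj h1 h2
    have := ball_tri hd h1 h2
    rw [hQ i j (Nat.zero_le _) hij hj] at this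
    exact this
  have hPQ1 : ∀ i j, i ≤ a → j ≤ e → d c (P i) ≤ r → d c (Q j) ≤ r → j ≤ 2 * r + (a - i) := by
    intro i j hi hj h1 h2
    have h3 := ball_tri hd h1 h2
    have h4 := hd.tri (Q 0) (P i) (Q j)
    have h5 := hQ 0 j le_rfl (Nat.zero_le _) hj
    have h6 := hP i a (Nat.zero_le _) hi ha
    have h7 : d (Q 0) (P i) = a - i := by rw [hu, hd.comm, h6]
    omega
  have hPQ2 : ∀ i j, a ≤ i → i ≤ L → j ≤ e → d c (P i) ≤ r → d c (Q j) ≤ r →
      j ≤ 2 * r + (i - a) := by
    intro i j hi hiL hj h1 h2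
    have h3 := ball_tri hd h1 h2
    have h4 := hd.tri (Q 0) (P i) (Q j)
    have h5 := hQ 0 j le_rfl (Nat.zero_le _) hj
    have h6 := hP a i (Nat.zero_le _) hi hiL
    have h7 : d (Q 0) (P i) = i - a := by rw [hu, h6]
    omega
  have hmem : ∀ i, i ∈ F ↔ i < s ∧ d c (pt i) ≤ r := by
    intro i; rw [hF, mem_filter, mem_range]
  have pt1 : ∀ i, i < n → pt i = P (3 * i) := by
    intro i hi; simp only [hpt]; rw [if_pos hi]
  have pt2 : pt n = P L := by
    simp only [hpt, lt_irrefl, if_false, if_true]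
  have pt3 : ∀ i, n < i → pt i = Q (q0 + 3 * (i - n - 1)) := by
    intro i hi; simp only [hpt]; rw [if_neg (by omega), if_neg (by omega)]
  rcases Nat.lt_or_ge r s with hrs | hrs
  swap
  · omega
  rcases Nat.eq_or_lt_of_le (Nat.le_sub_one_of_lt hrs) with hr1 | hr1
  · -- r = s - 1 : `x` and `y` are not both in the ball
    have hmiss : ∃ i, i < s ∧ i ∉ F := by
      by_contra hcon
      push Not at hcon
      have h0 := (hmem 0).1 (hcon 0 (by omega))
      have hnn := (hmem n).1 (hcon n (by omega))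
      rw [pt1 0 (by omega)] at h0
      rw [pt2] at hnn
      have := hPP (3 * 0) L (by omega) le_rfl h0.2 hnn.2
      omega
    obtain ⟨i, hi, hiF⟩ := hmiss
    have hsub : F ⊆ (range s).erase i := by
      intro j hj
      rw [mem_erase, mem_range]
      refine ⟨?_, ((hmem j).1 hj).1⟩
      rintro rfl
      exact hiF hj
    have := card_le_card hsub
    rw [card_erase_of_mem (mem_range.2 hi), card_range] at this
    omega
  -- r ≤ s - 2
  set F1 := F.filter (fun i => i < n ∧ 3 * i < a) with hF1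
  set F2 := F.filter (fun i => i < n ∧ a ≤ 3 * i) with hF2
  set F3 := F.filter (fun i => i = n) with hF3
  set F4 := F.filter (fun i => n < i) with hF4
  have hsum := card_split4 F F1 F2 F3 F4 (by
    intro i hi
    simp only [hF1, hF2, hF3, hF4, mem_filter, hi, true_and]
    omega)
  have e1 : ∀ i ∈ F1, i < n ∧ 3 * i < a ∧ d c (P (3 * i)) ≤ r := by
    intro i hi
    rw [hF1, mem_filter, hmem] at hi
    refine ⟨hi.2.1, hi.2.2, ?_⟩
    rw [← pt1 i hi.2.1]; exact hi.1.2
  have e2 : ∀ i ∈ F2, i < n ∧ a ≤ 3 * i ∧ d c (P (3 * i)) ≤ r := by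
    intro i hi
    rw [hF2, mem_filter, hmem] at hi
    refine ⟨hi.2.1, hi.2.2, ?_⟩
    rw [← pt1 i hi.2.1]; exact hi.1.2
  have e3 : F3 = ∅ ∨ (F3.card ≤ 1 ∧ d c (P L) ≤ r) := by
    rcases F3.eq_empty_or_nonempty with h | ⟨i, hi⟩
    · exact Or.inl h
    · right
      rw [hF3, mem_filter, hmem] at hi
      constructor
      · have : F3 ⊆ {n} := by
          intro j hj
          rw [hF3, mem_filter] at hj
          rw [mem_singleton]; exact hj.2
        simpa using card_le_card this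
      · rw [← pt2, ← hi.2]; exact hi.1.2
  have e4 : ∀ i ∈ F4, n < i ∧ i < s ∧ d c (Q (q0 + 3 * (i - n - 1))) ≤ r := by
    intro i hi
    rw [hF4, mem_filter, hmem] at hi
    refine ⟨hi.2, hi.1.1, ?_⟩
    rw [← pt3 i hi.2]; exact hi.1.2
  have kyw : ∀ i, d c (P L) ≤ r → d c (Q (q0 + 3 * (i - n - 1))) ≤ r →
      r ≠ 1 ∨ q0 + 3 * (i - n - 1) ≠ q0 := by
    intro i hy h5
    by_contra hcon
    push Not at hcon
    rw [hcon.2] at h5
    have := ball_tri hd hy h5
    omega
  rcases extremes F1 with h1 | ⟨t1, ht1, t2, ht2, ht12, hc1⟩ <;>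
  rcases extremes F2 with h2 | ⟨t3, ht3, t4, ht4, ht34, hc2⟩ <;>
  rcases e3 with h3 | ⟨hc3, hy⟩ <;>
  rcases extremes F4 with h4 | ⟨t5, ht5, t6, ht6, ht56, hc4⟩
  all_goals (try rw [h1, card_empty] at hsum)
  all_goals (try rw [h2, card_empty] at hsum)
  all_goals (try rw [h3, card_empty] at hsum)
  all_goals (try rw [h4, card_empty] at hsum)
  all_goals (try replace ht1 := e1 _ ht1)
  all_goals (try replace ht2 := e1 _ ht2)
  all_goals (try replace ht3 := e2 _ ht3)
  all_goals (try replace ht4 := e2 _ ht4)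
  all_goals (try replace ht5 := e4 _ ht5)
  all_goals (try replace ht6 := e4 _ ht6)
  all_goals (try have k12 := hPP (3 * t1) (3 * t2) (by omega) (by omega) ht1.2.2 ht2.2.2)
  all_goals (try have k34 := hPP (3 * t3) (3 * t4) (by omega) (by omega) ht3.2.2 ht4.2.2)
  all_goals (try have k14 := hPP (3 * t1) (3 * t4) (by omega) (by omega) ht1.2.2 ht4.2.2)
  all_goals (try have k1y := hPP (3 * t1) L (by omega) (by omega) ht1.2.2 hy)
  all_goals (try have k3y := hPP (3 * t3) L (by omega) (by omega) ht3.2.2 hy)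
  all_goals (try have k56 := hQQ (q0 + 3 * (t5 - n - 1)) (q0 + 3 * (t6 - n - 1)) (by omega) (by omega) ht5.2.2 ht6.2.2)
  all_goals (try have k26 := hPQ1 (3 * t2) (q0 + 3 * (t6 - n - 1)) (by omega) (by omega) ht2.2.2 ht6.2.2)
  all_goals (try have k36 := hPQ2 (3 * t3) (q0 + 3 * (t6 - n - 1)) (by omega) (by omega) (by omega) ht3.2.2 ht6.2.2)
  all_goals (try have ky6 := hPQ2 L (q0 + 3 * (t6 - n - 1)) (by omega) (by omega) (by omega) hy ht6.2.2)
  all_goals (try have kyw5 := kyw t5 hy ht5.2.2)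
  all_goals (clear hP hQ kyw hPP hQQ hPQ1 hPQ2 hmem pt1 pt2 pt3 e1 e2 e4)
  all_goals omega

end Pool.Agent.H72.MPk
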